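import Mathlib

/-! Lattice terms, ortholattices, bipartition lattices, and the two terms of the identity. -/

namespace R761.BipLat

/-- Lattice terms in the variables `x_0, x_1, ...`. -/
inductive LTerm where
  | var (i : ℕ) : LTerm
  | sup (s t : LTerm) : LTerm
  | inf (s t : LTerm) : LTerm

/-- Value of a lattice term under an assignment of the variables. -/
def LTerm.eval {L : Type*} [Lattice L] (v : ℕ → L) : LTerm → L
  | .var i => v i
  | .sup s t => s.eval v ⊔ t.eval v
  | .inf s t => s.eval v ⊓ t.eval v

/-- An ortholattice: a bounded lattice with an orthocomplementation. -/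
class OrthoLattice (L : Type*) extends Lattice L, BoundedOrder L where
  perp : L → L
  perp_perp : ∀ x : L, perp (perp x) = x
  perp_anti : ∀ x y : L, x ≤ y → perp y ≤ perp x
  inf_perp : ∀ x : L, x ⊓ perp x = ⊥
  sup_perp : ∀ x : L, x ⊔ perp x = ⊤

/-- Ortholattice terms. -/
inductive OTerm where
  | var (i : ℕ) : OTerm
  | zero : OTerm
  | one : OTerm
  | perp (s : OTerm) : OTerm
  | sup (s t : OTerm) : OTerm
  | inf (s t : OTerm) : OTerm

/-- Value of an ortholattice term under an assignment of the variables. -/
def OTerm.eval {L : Type*} [OrthoLattice L] (v : ℕ → L) : OTerm → L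
  | .var i => v i
  | .zero => ⊥
  | .one => ⊤
  | .perp s => OrthoLattice.perp (s.eval v)
  | .sup s t => s.eval v ⊔ t.eval v
  | .inf s t => s.eval v ⊓ t.eval v

/-- A lattice term read as an ortholattice term. -/
def LTerm.toO : LTerm → OTerm
  | .var i => .var i
  | .sup s t => .sup s.toO t.toO
  | .inf s t => .inf s.toO t.toO

theorem eval_toO {L : Type*} [OrthoLattice L] (v : ℕ → L) (s : LTerm) :
    s.toO.eval v = s.eval v := by
  induction s with
  | var i => rfl
  | sup s t hs ht => simp only [LTerm.toO, OTerm.eval, LTerm.eval, hs, ht]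
  | inf s t hs ht => simp only [LTerm.toO, OTerm.eval, LTerm.eval, hs, ht]

section Terms
/-- the terms of the identity -/
def tA : LTerm := .var 0
def tB : LTerm := .inf (.var 1) (.var 3)
def tC : LTerm := .var 2
def tm : LTerm := .sup tA tB
def tp : LTerm := .inf (.var 3) tm
def tpi : LTerm := .sup tp tC
def tal : LTerm := .sup tA tC
def th : LTerm := .inf tal tpi
def tR : LTerm := .sup tB th
/-- left side `m ∧ (p ∨ C)` -/
def lhs : LTerm := .inf tm tpi
/-- right side `p ∨ (m ∧ (B ∨ ((A ∨ C) ∧ (p ∨ C))))` -/
def rhs : LTerm := .sup tp (.inf tm tR)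
end Terms

/-- Statement of subtask NT1: the identity `lhs = rhs` fails in some (finite) lattice. -/
def StmtNT1 : Prop :=
  ∃ (L : Type) (_ : Lattice L) (_ : Finite L) (v : ℕ → L), lhs.eval v ≠ rhs.eval v

/-- Statement of subtask NT2: every lattice embeds as a sublattice into an ortholattice. -/
def StmtNT2 : Prop :=
  ∀ (L : Type) (_ : Lattice L), ∃ (O : Type) (_ : OrthoLattice O) (f : L → O),
    Function.Injective f ∧ (∀ x y : L, f (x ⊔ y) = f x ⊔ f y) ∧
      (∀ x y : L, f (x ⊓ y) = f x ⊓ f y) ∧ (Finite L → Finite O)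

end R761.BipLat
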