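import Mathlib
import Pool.Agent.R761.BipLat.Defs

/-! The lattice of bipartitions of a set `X`: relations `x` such that both `x` and its complement
are transitive, ordered by inclusion. -/

namespace R761.BipLat

variable {X : Type*}

/-- A bipartition of `X`: a relation such that it and its complement are transitive. -/
structure Bip (X : Type*) where
  rel : X → X → Prop
  tr : ∀ x y z, rel x y → rel y z → rel x z
  op : ∀ x y z, ¬ rel x y → ¬ rel y z → ¬ rel x z

namespace Bip

@[ext] theorem ext' {r q : Bip X} (h : ∀ x y, r.rel x y ↔ q.rel x y) : r = q := by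
  cases r; cases q
  congr
  funext x y
  exact propext (h x y)

instance : LE (Bip X) := ⟨fun r q => ∀ x y, r.rel x y → q.rel x y⟩

instance : PartialOrder (Bip X) where
  le_refl _ _ _ h := h
  le_trans _ _ _ h1 h2 x y h := h2 x y (h1 x y h)
  le_antisymm _ _ h1 h2 := ext' fun x y => ⟨h1 x y, h2 x y⟩

/-- complement of a bipartition -/
def co (r : Bip X) : Bip X where
  rel x y := ¬ r.rel x y
  tr := r.op
  op x y z h1 h2 h3 := h3 (r.tr x y z (not_not.1 h1) (not_not.1 h2))

/-- join: transitive closure of the union -/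
def join (r q : Bip X) : Bip X where
  rel := Relation.TransGen (fun x y => r.rel x y ∨ q.rel x y)
  tr _ _ _ h1 h2 := h1.trans h2
  op x y z h1 h2 h3 := by
    rcases Relation.TransGen.head'_iff.1 h3 with ⟨w, hw, hwz⟩
    have key : (r.rel y w ∨ q.rel y w) := by
      rcases hw with hw | hw
      · by_contra hc
        push Not at hc
        exact r.op x y w (fun h => h1 (Relation.TransGen.single (Or.inl h))) hc.1 hw
      · by_contra hc
        push Not at hc
        exact q.op x y w (fun h => h1 (Relation.TransGen.single (Or.inr h))) hc.2 hw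
    exact h2 (Relation.TransGen.head' key hwz)

/-- meet: the largest open subset of the intersection -/
def meet (r q : Bip X) : Bip X := co (join (co r) (co q))

theorem co_co (r : Bip X) : co (co r) = r := ext' fun x y => not_not

theorem co_anti {r q : Bip X} (h : r ≤ q) : co q ≤ co r := fun x y h1 h2 => h1 (h x y h2)

theorem le_join_left (r q : Bip X) : r ≤ join r q :=
  fun _ _ h => Relation.TransGen.single (Or.inl h)

theorem le_join_right (r q : Bip X) : q ≤ join r q :=
  fun _ _ h => Relation.TransGen.single (Or.inr h)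

theorem join_le {r q u : Bip X} (h1 : r ≤ u) (h2 : q ≤ u) : join r q ≤ u := by
  intro x y h
  induction h with
  | single h => exact h.elim (h1 _ _) (h2 _ _)
  | tail _ h ih => exact u.tr _ _ _ ih (h.elim (h1 _ _) (h2 _ _))

instance : Lattice (Bip X) where
  sup := join
  inf := meet
  le_sup_left := le_join_left
  le_sup_right := le_join_right
  sup_le _ _ _ := join_le
  inf_le_left r q := by
    have := co_anti (le_join_left (co r) (co q))
    rwa [co_co] at this
  inf_le_right r q := by
    have := co_anti (le_join_right (co r) (co q))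
    rwa [co_co] at this
  le_inf r q u h1 h2 := by
    have := co_anti (join_le (co_anti h1) (co_anti h2))
    rwa [co_co] at this

instance : BoundedOrder (Bip X) where
  top := ⟨fun _ _ => True, fun _ _ _ _ _ => trivial, fun _ _ _ h => absurd trivial h⟩
  le_top _ _ _ _ := trivial
  bot := ⟨fun _ _ => False, fun _ _ _ h => h.elim, fun _ _ _ _ _ h => h.elim⟩
  bot_le _ _ _ h := h.elim

theorem sup_rel (r q : Bip X) (x y : X) :
    (r ⊔ q).rel x y ↔ Relation.TransGen (fun x y => r.rel x y ∨ q.rel x y) x y := Iff.rfl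

theorem inf_rel (r q : Bip X) (x y : X) :
    (r ⊓ q).rel x y ↔ ¬ Relation.TransGen (fun x y => ¬ r.rel x y ∨ ¬ q.rel x y) x y := Iff.rfl

theorem co_inf (r q : Bip X) : co (r ⊓ q) = co r ⊔ co q := co_co _

/-- cut rule for joins -/
theorem cut (r q : Bip X) {x y : X} (h : (r ⊔ q).rel x y) (φ : X → Prop) (hy : ¬ φ y) :
    ∃ c d, (c = x ∨ φ c) ∧ ¬ φ d ∧ (r.rel c d ∨ q.rel c d) ∧ (c = x ∨ (r ⊔ q).rel x c) ∧
      (d = y ∨ (r ⊔ q).rel d y) ∧ (r ⊔ q).rel x d ∧ (r ⊔ q).rel c y := by
  change Relation.TransGen (fun x y => r.rel x y ∨ q.rel x y) x y at h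
  induction h using Relation.TransGen.head_induction_on with
  | single h => exact ⟨_, _, Or.inl rfl, hy, h, Or.inl rfl, Or.inl rfl,
      Relation.TransGen.single h, Relation.TransGen.single h⟩
  | @head x' w h1 h2 ih =>
    by_cases hw : φ w
    · rcases ih with ⟨c, d, h3, h4, h5, h6, h7, h8, h9⟩
      refine ⟨c, d, Or.inr (h3.elim (fun h => h ▸ hw) id), h4, h5, Or.inr ?_, h7, ?_, h9⟩
      · rcases h6 with h6 | h6
        · rw [h6]; exact Relation.TransGen.single h1
        · exact Relation.TransGen.head h1 h6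
      · exact Relation.TransGen.head h1 h8
    · exact ⟨_, _, Or.inl rfl, hw, h1, Or.inl rfl, Or.inr h2,
        Relation.TransGen.single h1, Relation.TransGen.head h1 h2⟩

/-- cut rule for meets -/
theorem cutm (r q : Bip X) {x y : X} (h : ¬ (r ⊓ q).rel x y) (φ : X → Prop) (hy : ¬ φ y) :
    ∃ c d, (c = x ∨ φ c) ∧ ¬ φ d ∧ (¬ r.rel c d ∨ ¬ q.rel c d) ∧ (c = x ∨ ¬ (r ⊓ q).rel x c) ∧
      (d = y ∨ ¬ (r ⊓ q).rel d y) ∧ ¬ (r ⊓ q).rel x d ∧ ¬ (r ⊓ q).rel c y := by
  have h' : (co r ⊔ co q).rel x y := by
    rw [← co_inf]; exact h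
  rcases cut (co r) (co q) h' φ hy with ⟨c, d, h1, h2, h3, h4, h5, h6, h7⟩
  rw [← co_inf] at h4 h5 h6 h7
  exact ⟨c, d, h1, h2, h3, h4, h5, h6, h7⟩

/-- a new pair of a join is reversible -/
theorem nj (r q : Bip X) {x y : X} (h : (r ⊔ q).rel x y) (h1 : ¬ r.rel x y) (h2 : ¬ q.rel x y) :
    (r ⊔ q).rel y x := by
  rcases Relation.TransGen.head'_iff.1 h with ⟨c', hc', h'⟩
  rcases Relation.reflTransGen_iff_eq_or_transGen.1 h' with e | h''
  · subst e; exact absurd hc' (not_or.2 ⟨h1, h2⟩)
  · rcases Relation.TransGen.tail'_iff.1 h'' with ⟨c, hcc, hcy⟩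
    have a1 : r.rel y c' ∨ q.rel y c' := by
      rcases hc' with hc | hc
      · left; by_contra hn; exact r.op _ _ _ h1 hn hc
      · right; by_contra hn; exact q.op _ _ _ h2 hn hc
    have a2 : r.rel c x ∨ q.rel c x := by
      rcases hcy with hc | hc
      · left; by_contra hn; exact r.op _ _ _ hn h1 hc
      · right; by_contra hn; exact q.op _ _ _ hn h2 hc
    exact Relation.TransGen.tail (Relation.TransGen.head' a1 hcc) a2

theorem nf (r q : Bip X) {x y : X} (h : ¬ (r ⊓ q).rel x y) (h1 : r.rel x y) (h2 : q.rel x y) :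
    ¬ (r ⊓ q).rel y x := by
  have h' : (co r ⊔ co q).rel x y := by
    rw [← co_inf]; exact h
  have := nj (co r) (co q) h' (fun hn => hn h1) (fun hn => hn h2)
  rw [← co_inf] at this
  exact this

end Bip
end R761.BipLat
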