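import Mathlib
import Pool.Agent.R761.BipLat.Bip

/-! Local configuration: nine relations with the local rules used in the proof. -/

namespace R761.BipLat

/-- Nine relations `A, B, C, p, m = A ∨ B, pi = p ∨ C, al = A ∨ C, be = B ∨ C, s = m ∧ pi` with
`al ∧ m = A`, `m ∧ be = B`, `al ∧ pi = C`, `B ≤ p ≤ m`, recorded through local rules. -/
structure Q (X : Type*) where
  A : X → X → Prop
  B : X → X → Prop
  C : X → X → Prop
  p : X → X → Prop
  m : X → X → Prop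
  pi : X → X → Prop
  al : X → X → Prop
  be : X → X → Prop
  s : X → X → Prop
  tA : ∀ x y z, A x y → A y z → A x z
  tB : ∀ x y z, B x y → B y z → B x z
  tC : ∀ x y z, C x y → C y z → C x z
  tp : ∀ x y z, p x y → p y z → p x z
  tm : ∀ x y z, m x y → m y z → m x z
  tpi : ∀ x y z, pi x y → pi y z → pi x z
  tal : ∀ x y z, al x y → al y z → al x z
  tbe : ∀ x y z, be x y → be y z → be x z
  ts : ∀ x y z, s x y → s y z → s x z
  oA : ∀ x y z, A x z → A x y ∨ A y z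
  oB : ∀ x y z, B x z → B x y ∨ B y z
  oC : ∀ x y z, C x z → C x y ∨ C y z
  op : ∀ x y z, p x z → p x y ∨ p y z
  om : ∀ x y z, m x z → m x y ∨ m y z
  opi : ∀ x y z, pi x z → pi x y ∨ pi y z
  oal : ∀ x y z, al x z → al x y ∨ al y z
  obe : ∀ x y z, be x z → be x y ∨ be y z
  os : ∀ x y z, s x z → s x y ∨ s y z
  iAm : ∀ x y, A x y → m x y
  iBm : ∀ x y, B x y → m x y
  iBp : ∀ x y, B x y → p x y
  ipm : ∀ x y, p x y → m x y
  ippi : ∀ x y, p x y → pi x y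
  iCpi : ∀ x y, C x y → pi x y
  iAal : ∀ x y, A x y → al x y
  iCal : ∀ x y, C x y → al x y
  iBbe : ∀ x y, B x y → be x y
  iCbe : ∀ x y, C x y → be x y
  ibepi : ∀ x y, be x y → pi x y
  ism : ∀ x y, s x y → m x y
  ispi : ∀ x y, s x y → pi x y
  ips : ∀ x y, p x y → s x y
  njm : ∀ x y, m x y → A x y ∨ B x y ∨ m y x
  njpi : ∀ x y, pi x y → p x y ∨ C x y ∨ pi y x
  njal : ∀ x y, al x y → A x y ∨ C x y ∨ al y x
  njbe : ∀ x y, be x y → B x y ∨ C x y ∨ be y x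
  nfA : ∀ x y, al x y → m x y → A x y ∨ ¬ A y x
  nfB : ∀ x y, m x y → be x y → B x y ∨ ¬ B y x
  nfC : ∀ x y, al x y → pi x y → C x y ∨ ¬ C y x
  nfs : ∀ x y, m x y → pi x y → s x y ∨ ¬ s y x
  cutpi : ∀ x y, pi x y → ∀ φ : X → Prop, ¬ φ y → ∃ c d, (c = x ∨ φ c) ∧ ¬ φ d ∧
    (p c d ∨ C c d) ∧ (c = x ∨ pi x c) ∧ (d = y ∨ pi d y) ∧ pi x d ∧ pi c y
  cutB : ∀ x y, ¬ B x y → ∀ φ : X → Prop, ¬ φ y → ∃ c d, (c = x ∨ φ c) ∧ ¬ φ d ∧
    (¬ m c d ∨ ¬ be c d) ∧ (c = x ∨ ¬ B x c) ∧ (d = y ∨ ¬ B d y) ∧ ¬ B x d ∧ ¬ B c y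

/-- The configuration coming from four bipartitions. -/
def mkQ {X : Type*} (A B C p : Bip X) (hA : (A ⊔ C) ⊓ (A ⊔ B) = A) (hB : (A ⊔ B) ⊓ (B ⊔ C) = B)
    (hC : (A ⊔ C) ⊓ (p ⊔ C) = C) (hBp : B ≤ p) (hpm : p ≤ A ⊔ B) : Q X where
  A := A.rel
  B := B.rel
  C := C.rel
  p := p.rel
  m := (A ⊔ B).rel
  pi := (p ⊔ C).rel
  al := (A ⊔ C).rel
  be := (B ⊔ C).rel
  s := ((A ⊔ B) ⊓ (p ⊔ C)).rel
  tA := A.tr
  tB := B.tr
  tC := C.tr
  tp := p.tr
  tm := (A ⊔ B).tr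
  tpi := (p ⊔ C).tr
  tal := (A ⊔ C).tr
  tbe := (B ⊔ C).tr
  ts := ((A ⊔ B) ⊓ (p ⊔ C)).tr
  oA := fun x y z h => by
    by_contra hn; exact A.op x y z (fun h1 => hn (Or.inl h1)) (fun h1 => hn (Or.inr h1)) h
  oB := fun x y z h => by
    by_contra hn; exact B.op x y z (fun h1 => hn (Or.inl h1)) (fun h1 => hn (Or.inr h1)) h
  oC := fun x y z h => by
    by_contra hn; exact C.op x y z (fun h1 => hn (Or.inl h1)) (fun h1 => hn (Or.inr h1)) h
  op := fun x y z h => by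
    by_contra hn; exact p.op x y z (fun h1 => hn (Or.inl h1)) (fun h1 => hn (Or.inr h1)) h
  om := fun x y z h => by
    by_contra hn
    exact (A ⊔ B).op x y z (fun h1 => hn (Or.inl h1)) (fun h1 => hn (Or.inr h1)) h
  opi := fun x y z h => by
    by_contra hn
    exact (p ⊔ C).op x y z (fun h1 => hn (Or.inl h1)) (fun h1 => hn (Or.inr h1)) h
  oal := fun x y z h => by
    by_contra hn
    exact (A ⊔ C).op x y z (fun h1 => hn (Or.inl h1)) (fun h1 => hn (Or.inr h1)) h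
  obe := fun x y z h => by
    by_contra hn
    exact (B ⊔ C).op x y z (fun h1 => hn (Or.inl h1)) (fun h1 => hn (Or.inr h1)) h
  os := fun x y z h => by
    by_contra hn
    exact ((A ⊔ B) ⊓ (p ⊔ C)).op x y z (fun h1 => hn (Or.inl h1)) (fun h1 => hn (Or.inr h1)) h
  iAm := (le_sup_left : A ≤ A ⊔ B)
  iBm := (le_sup_right : B ≤ A ⊔ B)
  iBp := hBp
  ipm := hpm
  ippi := (le_sup_left : p ≤ p ⊔ C)
  iCpi := (le_sup_right : C ≤ p ⊔ C)
  iAal := (le_sup_left : A ≤ A ⊔ C)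
  iCal := (le_sup_right : C ≤ A ⊔ C)
  iBbe := (le_sup_left : B ≤ B ⊔ C)
  iCbe := (le_sup_right : C ≤ B ⊔ C)
  ibepi := (sup_le_sup_right hBp C : B ⊔ C ≤ p ⊔ C)
  ism := (inf_le_left : (A ⊔ B) ⊓ (p ⊔ C) ≤ A ⊔ B)
  ispi := (inf_le_right : (A ⊔ B) ⊓ (p ⊔ C) ≤ p ⊔ C)
  ips := (le_inf hpm le_sup_left : p ≤ (A ⊔ B) ⊓ (p ⊔ C))
  njm := fun x y h => by
    by_cases h1 : A.rel x y
    · exact Or.inl h1
    by_cases h2 : B.rel x y
    · exact Or.inr (Or.inl h2)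
    exact Or.inr (Or.inr (Bip.nj A B h h1 h2))
  njpi := fun x y h => by
    by_cases h1 : p.rel x y
    · exact Or.inl h1
    by_cases h2 : C.rel x y
    · exact Or.inr (Or.inl h2)
    exact Or.inr (Or.inr (Bip.nj p C h h1 h2))
  njal := fun x y h => by
    by_cases h1 : A.rel x y
    · exact Or.inl h1
    by_cases h2 : C.rel x y
    · exact Or.inr (Or.inl h2)
    exact Or.inr (Or.inr (Bip.nj A C h h1 h2))
  njbe := fun x y h => by
    by_cases h1 : B.rel x y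
    · exact Or.inl h1
    by_cases h2 : C.rel x y
    · exact Or.inr (Or.inl h2)
    exact Or.inr (Or.inr (Bip.nj B C h h1 h2))
  nfA := fun x y h1 h2 => by
    by_cases h : A.rel x y
    · exact Or.inl h
    have := Bip.nf (A ⊔ C) (A ⊔ B) (by rw [hA]; exact h) h1 h2
    rw [hA] at this
    exact Or.inr this
  nfB := fun x y h1 h2 => by
    by_cases h : B.rel x y
    · exact Or.inl h
    have := Bip.nf (A ⊔ B) (B ⊔ C) (by rw [hB]; exact h) h1 h2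
    rw [hB] at this
    exact Or.inr this
  nfC := fun x y h1 h2 => by
    by_cases h : C.rel x y
    · exact Or.inl h
    have := Bip.nf (A ⊔ C) (p ⊔ C) (by rw [hC]; exact h) h1 h2
    rw [hC] at this
    exact Or.inr this
  nfs := fun x y h1 h2 => by
    by_cases h : ((A ⊔ B) ⊓ (p ⊔ C)).rel x y
    · exact Or.inl h
    exact Or.inr (Bip.nf (A ⊔ B) (p ⊔ C) h h1 h2)
  cutpi := fun x y h φ hy => Bip.cut p C h φ hy
  cutB := fun x y h φ hy => by
    have := Bip.cutm (A ⊔ B) (B ⊔ C) (by rw [hB]; exact h) φ hy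
    rw [hB] at this
    exact this

end R761.BipLat
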