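import Mathlib
import Pool.Agent.R761.BipLat.Q

/-! The rules of a configuration `Q`, in refutation form. -/

namespace R761.BipLat

variable {X : Type*}

theorem eqL (r : X → X → Prop) {i j : X} (l : X) : i = j → r i l → ¬ r j l → False := by
  intro e h1 h2; subst e; exact h2 h1
theorem eqL' (r : X → X → Prop) {i j : X} (l : X) : i = j → ¬ r i l → r j l → False := by
  intro e h1 h2; subst e; exact h1 h2
theorem eqR (r : X → X → Prop) {i j : X} (l : X) : i = j → r l i → ¬ r l j → False := by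
  intro e h1 h2; subst e; exact h2 h1
theorem eqR' (r : X → X → Prop) {i j : X} (l : X) : i = j → ¬ r l i → r l j → False := by
  intro e h1 h2; subst e; exact h1 h2

namespace Q

theorem xtA (q : Q X) (i j l : X) : q.A i j → q.A j l → ¬ q.A i l → False :=
  fun h1 h2 h3 => h3 (q.tA _ _ _ h1 h2)
theorem xoA (q : Q X) (i j l : X) : ¬ q.A i j → ¬ q.A j l → q.A i l → False :=
  fun h1 h2 h3 => (q.oA _ j _ h3).elim h1 h2
theorem xtB (q : Q X) (i j l : X) : q.B i j → q.B j l → ¬ q.B i l → False :=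
  fun h1 h2 h3 => h3 (q.tB _ _ _ h1 h2)
theorem xoB (q : Q X) (i j l : X) : ¬ q.B i j → ¬ q.B j l → q.B i l → False :=
  fun h1 h2 h3 => (q.oB _ j _ h3).elim h1 h2
theorem xtC (q : Q X) (i j l : X) : q.C i j → q.C j l → ¬ q.C i l → False :=
  fun h1 h2 h3 => h3 (q.tC _ _ _ h1 h2)
theorem xoC (q : Q X) (i j l : X) : ¬ q.C i j → ¬ q.C j l → q.C i l → False :=
  fun h1 h2 h3 => (q.oC _ j _ h3).elim h1 h2
theorem xtp (q : Q X) (i j l : X) : q.p i j → q.p j l → ¬ q.p i l → False :=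
  fun h1 h2 h3 => h3 (q.tp _ _ _ h1 h2)
theorem xop (q : Q X) (i j l : X) : ¬ q.p i j → ¬ q.p j l → q.p i l → False :=
  fun h1 h2 h3 => (q.op _ j _ h3).elim h1 h2
theorem xtm (q : Q X) (i j l : X) : q.m i j → q.m j l → ¬ q.m i l → False :=
  fun h1 h2 h3 => h3 (q.tm _ _ _ h1 h2)
theorem xom (q : Q X) (i j l : X) : ¬ q.m i j → ¬ q.m j l → q.m i l → False :=
  fun h1 h2 h3 => (q.om _ j _ h3).elim h1 h2
theorem xtpi (q : Q X) (i j l : X) : q.pi i j → q.pi j l → ¬ q.pi i l → False :=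
  fun h1 h2 h3 => h3 (q.tpi _ _ _ h1 h2)
theorem xopi (q : Q X) (i j l : X) : ¬ q.pi i j → ¬ q.pi j l → q.pi i l → False :=
  fun h1 h2 h3 => (q.opi _ j _ h3).elim h1 h2
theorem xtal (q : Q X) (i j l : X) : q.al i j → q.al j l → ¬ q.al i l → False :=
  fun h1 h2 h3 => h3 (q.tal _ _ _ h1 h2)
theorem xoal (q : Q X) (i j l : X) : ¬ q.al i j → ¬ q.al j l → q.al i l → False :=
  fun h1 h2 h3 => (q.oal _ j _ h3).elim h1 h2
theorem xtbe (q : Q X) (i j l : X) : q.be i j → q.be j l → ¬ q.be i l → False :=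
  fun h1 h2 h3 => h3 (q.tbe _ _ _ h1 h2)
theorem xobe (q : Q X) (i j l : X) : ¬ q.be i j → ¬ q.be j l → q.be i l → False :=
  fun h1 h2 h3 => (q.obe _ j _ h3).elim h1 h2
theorem xts (q : Q X) (i j l : X) : q.s i j → q.s j l → ¬ q.s i l → False :=
  fun h1 h2 h3 => h3 (q.ts _ _ _ h1 h2)
theorem xos (q : Q X) (i j l : X) : ¬ q.s i j → ¬ q.s j l → q.s i l → False :=
  fun h1 h2 h3 => (q.os _ j _ h3).elim h1 h2
theorem xiAm (q : Q X) (i j : X) : q.A i j → ¬ q.m i j → False :=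
  fun h1 h2 => h2 (q.iAm _ _ h1)
theorem xiBm (q : Q X) (i j : X) : q.B i j → ¬ q.m i j → False :=
  fun h1 h2 => h2 (q.iBm _ _ h1)
theorem xiBp (q : Q X) (i j : X) : q.B i j → ¬ q.p i j → False :=
  fun h1 h2 => h2 (q.iBp _ _ h1)
theorem xipm (q : Q X) (i j : X) : q.p i j → ¬ q.m i j → False :=
  fun h1 h2 => h2 (q.ipm _ _ h1)
theorem xippi (q : Q X) (i j : X) : q.p i j → ¬ q.pi i j → False :=
  fun h1 h2 => h2 (q.ippi _ _ h1)
theorem xiCpi (q : Q X) (i j : X) : q.C i j → ¬ q.pi i j → False :=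
  fun h1 h2 => h2 (q.iCpi _ _ h1)
theorem xiAal (q : Q X) (i j : X) : q.A i j → ¬ q.al i j → False :=
  fun h1 h2 => h2 (q.iAal _ _ h1)
theorem xiCal (q : Q X) (i j : X) : q.C i j → ¬ q.al i j → False :=
  fun h1 h2 => h2 (q.iCal _ _ h1)
theorem xiBbe (q : Q X) (i j : X) : q.B i j → ¬ q.be i j → False :=
  fun h1 h2 => h2 (q.iBbe _ _ h1)
theorem xiCbe (q : Q X) (i j : X) : q.C i j → ¬ q.be i j → False :=
  fun h1 h2 => h2 (q.iCbe _ _ h1)
theorem xibepi (q : Q X) (i j : X) : q.be i j → ¬ q.pi i j → False :=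
  fun h1 h2 => h2 (q.ibepi _ _ h1)
theorem xism (q : Q X) (i j : X) : q.s i j → ¬ q.m i j → False :=
  fun h1 h2 => h2 (q.ism _ _ h1)
theorem xispi (q : Q X) (i j : X) : q.s i j → ¬ q.pi i j → False :=
  fun h1 h2 => h2 (q.ispi _ _ h1)
theorem xips (q : Q X) (i j : X) : q.p i j → ¬ q.s i j → False :=
  fun h1 h2 => h2 (q.ips _ _ h1)
theorem xnjm (q : Q X) (i j : X) : q.m i j → ¬ q.A i j → ¬ q.B i j → ¬ q.m j i → False :=
  fun h1 h2 h3 h4 => (q.njm _ _ h1).elim h2 fun h => h.elim h3 h4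
theorem xnjpi (q : Q X) (i j : X) : q.pi i j → ¬ q.p i j → ¬ q.C i j → ¬ q.pi j i → False :=
  fun h1 h2 h3 h4 => (q.njpi _ _ h1).elim h2 fun h => h.elim h3 h4
theorem xnjal (q : Q X) (i j : X) : q.al i j → ¬ q.A i j → ¬ q.C i j → ¬ q.al j i → False :=
  fun h1 h2 h3 h4 => (q.njal _ _ h1).elim h2 fun h => h.elim h3 h4
theorem xnjbe (q : Q X) (i j : X) : q.be i j → ¬ q.B i j → ¬ q.C i j → ¬ q.be j i → False :=
  fun h1 h2 h3 h4 => (q.njbe _ _ h1).elim h2 fun h => h.elim h3 h4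
theorem xnfA (q : Q X) (i j : X) : ¬ q.A i j → q.al i j → q.m i j → q.A j i → False :=
  fun h1 h2 h3 h4 => (q.nfA _ _ h2 h3).elim h1 fun h => h h4
theorem xnfB (q : Q X) (i j : X) : ¬ q.B i j → q.m i j → q.be i j → q.B j i → False :=
  fun h1 h2 h3 h4 => (q.nfB _ _ h2 h3).elim h1 fun h => h h4
theorem xnfC (q : Q X) (i j : X) : ¬ q.C i j → q.al i j → q.pi i j → q.C j i → False :=
  fun h1 h2 h3 h4 => (q.nfC _ _ h2 h3).elim h1 fun h => h h4
theorem xnfs (q : Q X) (i j : X) : ¬ q.s i j → q.m i j → q.pi i j → q.s j i → False :=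
  fun h1 h2 h3 h4 => (q.nfs _ _ h2 h3).elim h1 fun h => h h4

theorem jcutpi (q : Q X) (x y : X) (φ : X → Prop) : ∃ c d,
    (q.pi x y → ¬ φ y → ¬ (c = x) → ¬ φ c → False) ∧
    (q.pi x y → ¬ φ y → φ d → False) ∧
    (q.pi x y → ¬ φ y → ¬ q.p c d → ¬ q.C c d → False) ∧
    (q.pi x y → ¬ φ y → ¬ (c = x) → ¬ q.pi x c → False) ∧
    (q.pi x y → ¬ φ y → ¬ (d = y) → ¬ q.pi d y → False) ∧
    (q.pi x y → ¬ φ y → ¬ q.pi x d → False) ∧
    (q.pi x y → ¬ φ y → ¬ q.pi c y → False) := by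
  by_cases h : q.pi x y
  · by_cases hy : φ y
    · exact ⟨x, x, fun _ h2 => (h2 hy).elim, fun _ h2 => (h2 hy).elim, fun _ h2 => (h2 hy).elim,
        fun _ h2 => (h2 hy).elim, fun _ h2 => (h2 hy).elim, fun _ h2 => (h2 hy).elim,
        fun _ h2 => (h2 hy).elim⟩
    · rcases q.cutpi x y h φ hy with ⟨c, d, h1, h2, h3, h4, h5, h6, h7⟩
      exact ⟨c, d, fun _ _ a b => h1.elim a b, fun _ _ a => h2 a, fun _ _ a b => h3.elim a b,
        fun _ _ a b => h4.elim a b, fun _ _ a b => h5.elim a b, fun _ _ a => a h6,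
        fun _ _ a => a h7⟩
  · exact ⟨x, x, fun h2 => (h h2).elim, fun h2 => (h h2).elim, fun h2 => (h h2).elim,
      fun h2 => (h h2).elim, fun h2 => (h h2).elim, fun h2 => (h h2).elim, fun h2 => (h h2).elim⟩

theorem mcutB (q : Q X) (x y : X) (φ : X → Prop) : ∃ c d,
    (¬ q.B x y → ¬ φ y → ¬ (c = x) → ¬ φ c → False) ∧
    (¬ q.B x y → ¬ φ y → φ d → False) ∧
    (¬ q.B x y → ¬ φ y → q.m c d → q.be c d → False) ∧
    (¬ q.B x y → ¬ φ y → ¬ (c = x) → q.B x c → False) ∧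
    (¬ q.B x y → ¬ φ y → ¬ (d = y) → q.B d y → False) ∧
    (¬ q.B x y → ¬ φ y → q.B x d → False) ∧
    (¬ q.B x y → ¬ φ y → q.B c y → False) := by
  by_cases h : ¬ q.B x y
  · by_cases hy : φ y
    · exact ⟨x, x, fun _ h2 => (h2 hy).elim, fun _ h2 => (h2 hy).elim, fun _ h2 => (h2 hy).elim,
        fun _ h2 => (h2 hy).elim, fun _ h2 => (h2 hy).elim, fun _ h2 => (h2 hy).elim,
        fun _ h2 => (h2 hy).elim⟩
    · rcases q.cutB x y h φ hy with ⟨c, d, h1, h2, h3, h4, h5, h6, h7⟩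
      exact ⟨c, d, fun _ _ a b => h1.elim a b, fun _ _ a => h2 a,
        fun _ _ a b => h3.elim (fun g => g a) (fun g => g b),
        fun _ _ a b => h4.elim a (fun g => g b), fun _ _ a b => h5.elim a (fun g => g b),
        fun _ _ a => h6 a, fun _ _ a => h7 a⟩
  · exact ⟨x, x, fun h2 => (h h2).elim, fun h2 => (h h2).elim, fun h2 => (h h2).elim,
      fun h2 => (h h2).elim, fun h2 => (h h2).elim, fun h2 => (h h2).elim, fun h2 => (h h2).elim⟩

/-- the mirror image of a configuration -/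
def flip (q : Q X) : Q X where
  A x y := q.A y x
  B x y := q.B y x
  C x y := q.C y x
  p x y := q.p y x
  m x y := q.m y x
  pi x y := q.pi y x
  al x y := q.al y x
  be x y := q.be y x
  s x y := q.s y x
  tA x y z h1 h2 := q.tA z y x h2 h1
  tB x y z h1 h2 := q.tB z y x h2 h1
  tC x y z h1 h2 := q.tC z y x h2 h1
  tp x y z h1 h2 := q.tp z y x h2 h1
  tm x y z h1 h2 := q.tm z y x h2 h1
  tpi x y z h1 h2 := q.tpi z y x h2 h1
  tal x y z h1 h2 := q.tal z y x h2 h1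
  tbe x y z h1 h2 := q.tbe z y x h2 h1
  ts x y z h1 h2 := q.ts z y x h2 h1
  oA x y z h := (q.oA z y x h).symm
  oB x y z h := (q.oB z y x h).symm
  oC x y z h := (q.oC z y x h).symm
  op x y z h := (q.op z y x h).symm
  om x y z h := (q.om z y x h).symm
  opi x y z h := (q.opi z y x h).symm
  oal x y z h := (q.oal z y x h).symm
  obe x y z h := (q.obe z y x h).symm
  os x y z h := (q.os z y x h).symm
  iAm x y := q.iAm y x
  iBm x y := q.iBm y x
  iBp x y := q.iBp y x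
  ipm x y := q.ipm y x
  ippi x y := q.ippi y x
  iCpi x y := q.iCpi y x
  iAal x y := q.iAal y x
  iCal x y := q.iCal y x
  iBbe x y := q.iBbe y x
  iCbe x y := q.iCbe y x
  ibepi x y := q.ibepi y x
  ism x y := q.ism y x
  ispi x y := q.ispi y x
  ips x y := q.ips y x
  njm x y := q.njm y x
  njpi x y := q.njpi y x
  njal x y := q.njal y x
  njbe x y := q.njbe y x
  nfA x y := q.nfA y x
  nfB x y := q.nfB y x
  nfC x y := q.nfC y x
  nfs x y := q.nfs y x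
  cutpi x y h φ hy := by
    rcases q.cutpi y x h (fun z => ¬ (z = x ∨ φ z)) (fun hn => hn (Or.inl rfl)) with
      ⟨c, d, h1, h2, h3, h4, h5, h6, h7⟩
    refine ⟨d, c, not_not.1 h2, ?_, h3, h5, h4, h7, h6⟩
    rcases h1 with h1 | h1
    · rw [h1]; exact hy
    · exact fun hc => h1 (Or.inr hc)
  cutB x y h φ hy := by
    rcases q.cutB y x h (fun z => ¬ (z = x ∨ φ z)) (fun hn => hn (Or.inl rfl)) with
      ⟨c, d, h1, h2, h3, h4, h5, h6, h7⟩
    refine ⟨d, c, not_not.1 h2, ?_, h3, h5, h4, h7, h6⟩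
    rcases h1 with h1 | h1
    · rw [h1]; exact hy
    · exact fun hc => h1 (Or.inr hc)

end Q
end R761.BipLat
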