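import Mathlib
import Pool.Agent.R761.BipLat.Rules

/-! Lemma P and its mirror image (proof terms produced by a propositional refutation of the
    rules). -/

namespace R761.BipLat
namespace Q

variable {X : Type*}

theorem xP (q : Q X) (x0 x1 x2 : X) : q.m x0 x1 → ¬ (q.m x0 x2) → q.pi x2 x1 → ¬ (q.be x2 x1) → ¬
    (q.p x2 x1) → False := by
  intro h0 h1 h2 h3 h4
  obtain ⟨x3, x4, k0_1, k0_2, k0_3, k0_4, k0_5, k0_6, k0_7⟩ := q.jcutpi x2 x1 (fun z => q.p x2 z
      ∨ q.C x2 z)
  have c12 : q.C x2 x4 → ¬ ((q.p x2 x4 ∨ q.C x2 x4)) → False := fun h1 h2 => h2 (Or.inr h1)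
  have c67 : ¬ (q.m x0 x1) → False := fun h => h h0
  have c26 : (q.p x2 x3 ∨ q.C x2 x3) → ¬ (q.p x2 x3) → ¬ (q.C x2 x3) → False := fun h a0 a1 =>
      h.elim (fun g => a0 g) (fun g => a1 g)
  have c3 : q.p x2 x1 → False := fun h => h4 h
  have c31 : q.m x0 x2 → False := fun h => h1 h
  have c47 : (q.p x2 x1 ∨ q.C x2 x1) → ¬ (q.p x2 x1) → ¬ (q.C x2 x1) → False := fun h a0 a1 =>
      h.elim (fun g => a0 g) (fun g => a1 g)
  have c28 : q.be x2 x1 → False := fun h => h3 h
  have c62 : ¬ (q.pi x2 x1) → False := fun h => h h2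
  have c52 : q.p x2 x4 → ¬ ((q.p x2 x4 ∨ q.C x2 x4)) → False := fun h1 h2 => h2 (Or.inl h1)
  have c100076 : q.m x1 x2 → ¬ (q.m x0 x2) → False := by
    intro a0 a1
    have u0 : q.m x0 x1 := Classical.byContradiction fun h => c67 h
    exact q.xtm x0 x1 x2 u0 a0 a1
  have c100077 : q.B x2 x1 → False := by
    intro a0
    have u0 : ¬ (q.p x2 x1) := fun h => c3 h
    exact q.xiBp x2 x1 a0 u0
  have c100078 : ¬ (q.B x1 x3) → q.B x2 x3 → False := by
    intro a0 a1
    have u0 : ¬ (q.B x2 x1) := fun h => c100077 h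
    exact q.xoB x2 x1 x3 u0 a0 a1
  have c100079 : q.m x1 x2 → False := by
    intro a0
    have u0 : ¬ (q.m x0 x2) := fun h => c31 h
    exact c100076 a0 u0
  have c100080 : q.B x1 x2 → False := by
    intro a0
    have u0 : ¬ (q.m x1 x2) := fun h => c100079 h
    exact q.xiBm x1 x2 a0 u0
  have c100081 : (q.p x2 x1 ∨ q.C x2 x1) → ¬ (q.C x2 x1) → False := by
    intro a0 a1
    have u0 : ¬ (q.p x2 x1) := fun h => c3 h
    exact c47 a0 u0 a1
  have c100082 : ¬ (q.m x2 x1) → False := by
    intro a0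
    have u0 : ¬ (q.m x0 x2) := fun h => c31 h
    have u1 : q.m x0 x1 := Classical.byContradiction fun h => c67 h
    exact q.xom x0 x2 x1 u0 a0 u1
  have c100083 : q.C x2 x1 → False := by
    intro a0
    have u0 : ¬ (q.be x2 x1) := fun h => c28 h
    exact q.xiCbe x2 x1 a0 u0
  have c100084 : (q.p x2 x1 ∨ q.C x2 x1) → False := by
    intro a0
    have u0 : ¬ (q.C x2 x1) := fun h => c100083 h
    exact c100081 a0 u0
  have c100085 : (q.p x2 x4 ∨ q.C x2 x4) → False := by
    intro a0
    have u0 : q.pi x2 x1 := Classical.byContradiction fun h => c62 h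
    have u1 : ¬ ((q.p x2 x1 ∨ q.C x2 x1)) := fun h => c100084 h
    exact k0_2 u0 u1 a0
  have c100086 : q.C x2 x4 → False := by
    intro a0
    have u0 : ¬ ((q.p x2 x4 ∨ q.C x2 x4)) := fun h => c100085 h
    exact c12 a0 u0
  have c100087 : q.p x2 x4 → False := by
    intro a0
    have u0 : ¬ ((q.p x2 x4 ∨ q.C x2 x4)) := fun h => c100085 h
    exact c52 a0 u0
  have c100088 : q.B x2 x4 → False := by
    intro a0
    have u0 : ¬ (q.p x2 x4) := fun h => c100087 h
    exact q.xiBp x2 x4 a0 u0
  have c100089 : q.B x1 x4 → False := by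
    intro a0
    have u0 : ¬ (q.B x2 x4) := fun h => c100088 h
    have u1 : ¬ (q.B x1 x2) := fun h => c100080 h
    exact q.xoB x1 x2 x4 u1 u0 a0
  have c100090 : q.m x2 x4 → ¬ (q.A x2 x4) → ¬ (q.m x4 x2) → False := by
    intro a0 a1 a2
    have u0 : ¬ (q.B x2 x4) := fun h => c100088 h
    exact q.xnjm x2 x4 a0 a1 u0 a2
  have c100091 : ¬ (q.be x1 x3) → q.be x2 x3 → False := by
    intro a0 a1
    have u0 : ¬ (q.be x2 x1) := fun h => c28 h
    exact q.xobe x2 x1 x3 u0 a0 a1
  have c100092 : ¬ (q.p x3 x4) → ¬ (q.C x3 x4) → False := by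
    intro a0 a1
    have u0 : q.pi x2 x1 := Classical.byContradiction fun h => c62 h
    have u1 : ¬ ((q.p x2 x1 ∨ q.C x2 x1)) := fun h => c100084 h
    exact k0_3 u0 u1 a0 a1
  have c100093 : ¬ (q.p x1 x3) → q.p x2 x3 → False := by
    intro a0 a1
    have u0 : ¬ (q.p x2 x1) := fun h => c3 h
    exact q.xop x2 x1 x3 u0 a0 a1
  have c100095 : q.p x3 x2 → x3 = x2 → False := by
    intro a0 a1
    have u0 : ¬ (q.p x2 x1) := fun h => c3 h
    have u1 : ¬ (q.m x1 x2) := fun h => c100079 h
    have u2 : ¬ (q.p x3 x1) := fun h => eqL q.p (i := x3) (j := x2) x1 a1 h u0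
    have u3 : q.m x3 x2 := Classical.byContradiction fun h => q.xipm x3 x2 a0 h
    have u4 : q.p x1 x2 := Classical.byContradiction fun h => q.xop x3 x1 x2 u2 h a0
    have u5 : ¬ (q.m x1 x3) := fun h => q.xtm x1 x3 x2 h u3 u1
    have u6 : q.p x1 x3 := Classical.byContradiction fun h => eqR' q.p (i := x3) (j := x2) x1 a1
        h u4
    exact q.xipm x1 x3 u6 u5
  have c100096 : x3 = x2 → False := by
    intro a0
    have u0 : ¬ (q.p x2 x4) := fun h => c100087 h
    have u1 : ¬ (q.C x2 x4) := fun h => c100086 h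
    have u2 : ¬ (q.p x3 x2) := fun h => c100095 h a0
    have u3 : ¬ (q.p x3 x4) := fun h => q.xop x3 x2 x4 u2 u0 h
    have u4 : q.C x3 x4 := Classical.byContradiction fun h => c100092 u3 h
    have u5 : ¬ (q.C x2 x3) := fun h => q.xtC x2 x3 x4 h u4 u1
    have u6 : q.C x3 x2 := Classical.byContradiction fun h => q.xoC x3 x2 x4 h u1 u4
    have u7 : ¬ (q.C x3 x3) := fun h => eqL q.C (i := x3) (j := x2) x3 a0 h u5
    exact eqR' q.C (i := x3) (j := x2) x3 a0 u7 u6
  have c100097 : ¬ (q.pi x2 x3) → False := by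
    intro a0
    have u0 : ¬ (x3 = x2) := fun h => c100096 h
    have u1 : ¬ ((q.p x2 x1 ∨ q.C x2 x1)) := fun h => c100084 h
    have u2 : q.pi x2 x1 := Classical.byContradiction fun h => c62 h
    exact k0_4 u2 u1 u0 a0
  have c100098 : ¬ ((q.p x2 x3 ∨ q.C x2 x3)) → False := by
    intro a0
    have u0 : ¬ (x3 = x2) := fun h => c100096 h
    have u1 : ¬ ((q.p x2 x1 ∨ q.C x2 x1)) := fun h => c100084 h
    have u2 : q.pi x2 x1 := Classical.byContradiction fun h => c62 h
    exact k0_1 u2 u1 u0 a0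
  have c100099 : q.m x4 x2 → ¬ (q.B x4 x1) → x4 = x1 → False := by
    intro a0 a1 a2
    have u0 : ¬ (q.m x1 x2) := fun h => c100079 h
    have u1 : q.m x2 x1 := Classical.byContradiction fun h => c100082 h
    have u2 : ¬ (q.m x1 x4) := fun h => q.xtm x1 x4 x2 h a0 u0
    have u3 : q.m x4 x1 := Classical.byContradiction fun h => q.xtm x4 x2 x1 a0 u1 h
    have u4 : ¬ (q.A x1 x4) := fun h => q.xiAm x1 x4 h u2
    have u5 : q.A x4 x1 := Classical.byContradiction fun h => q.xnjm x4 x1 u3 h a1 u2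
    have u6 : ¬ (q.A x4 x4) := fun h => eqL q.A (i := x4) (j := x1) x4 a2 h u4
    exact eqR' q.A (i := x4) (j := x1) x4 a2 u6 u5
  have c100100 : q.C x3 x4 → x4 = x1 → False := by
    intro a0 a1
    have u0 : ¬ (q.C x2 x4) := fun h => c100086 h
    have u1 : (q.p x2 x3 ∨ q.C x2 x3) := Classical.byContradiction fun h => c100098 h
    have u2 : q.pi x2 x3 := Classical.byContradiction fun h => c100097 h
    have u3 : ¬ (q.be x2 x1) := fun h => c28 h
    have u4 : ¬ (q.B x1 x4) := fun h => c100089 h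
    have u5 : ¬ (q.m x1 x2) := fun h => c100079 h
    have u6 : q.m x2 x1 := Classical.byContradiction fun h => c100082 h
    have u7 : q.be x3 x4 := Classical.byContradiction fun h => q.xiCbe x3 x4 a0 h
    have u8 : ¬ (q.C x2 x3) := fun h => q.xtC x2 x3 x4 h a0 u0
    have u9 : q.C x3 x2 := Classical.byContradiction fun h => q.xoC x3 x2 x4 h u0 a0
    have u10 : q.p x2 x3 := Classical.byContradiction fun h => c26 u1 h u8
    have u11 : ¬ (q.al x2 x3) := fun h => q.xnfC x2 x3 u8 h u2 u9
    have u12 : q.p x1 x3 := Classical.byContradiction fun h => c100093 h u10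
    have u13 : ¬ (q.A x2 x3) := fun h => q.xiAal x2 x3 h u11
    have u14 : q.m x1 x3 := Classical.byContradiction fun h => q.xipm x1 x3 u12 h
    have u15 : ¬ (q.m x3 x2) := fun h => q.xtm x1 x3 x2 u14 h u5
    have u16 : q.m x2 x3 := Classical.byContradiction fun h => q.xom x1 x2 x3 u5 h u14
    have u17 : q.B x2 x3 := Classical.byContradiction fun h => q.xnjm x2 x3 u16 u13 h u15
    have u18 : q.be x2 x3 := Classical.byContradiction fun h => q.xiBbe x2 x3 u17 h
    have u19 : q.B x1 x3 := Classical.byContradiction fun h => c100078 h u17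
    have u20 : ¬ (q.be x3 x1) := fun h => q.xtbe x2 x3 x1 u18 h u3
    have u21 : q.B x4 x3 := Classical.byContradiction fun h => q.xoB x1 x4 x3 u4 h u19
    have u22 : ¬ (q.be x4 x1) := fun h => q.xtbe x3 x4 x1 u7 h u20
    have u23 : ¬ (q.B x4 x1) := fun h => q.xiBbe x4 x1 h u22
    have u24 : ¬ (q.B x4 x4) := fun h => q.xoB x4 x1 x4 u23 u4 h
    have u25 : ¬ (q.B x3 x4) := fun h => q.xtB x4 x3 x4 u21 h u24
    have u26 : ¬ (q.m x3 x4) := fun h => q.xnfB x3 x4 u25 h u7 u21
    have u27 : ¬ (q.A x3 x4) := fun h => q.xiAm x3 x4 h u26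
    have u28 : ¬ (q.A x2 x4) := fun h => q.xoA x2 x3 x4 u13 u27 h
    have u29 : ¬ (q.m x4 x2) := fun h => c100099 h u23 a1
    have u30 : ¬ (q.m x2 x4) := fun h => c100090 h u28 u29
    have u31 : ¬ (q.m x1 x4) := fun h => q.xom x1 x2 x4 u5 u30 h
    have u32 : q.m x4 x1 := Classical.byContradiction fun h => q.xom x2 x4 x1 u30 h u6
    have u33 : ¬ (q.A x1 x4) := fun h => q.xiAm x1 x4 h u31
    have u34 : q.A x4 x1 := Classical.byContradiction fun h => q.xnjm x4 x1 u32 h u23 u31
    have u35 : ¬ (q.A x4 x4) := fun h => eqL q.A (i := x4) (j := x1) x4 a1 h u33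
    exact eqR' q.A (i := x4) (j := x1) x4 a1 u35 u34
  have c100101 : q.p x3 x2 → False := by
    intro a0
    have u0 : q.pi x2 x1 := Classical.byContradiction fun h => c62 h
    have u1 : ¬ (q.m x1 x2) := fun h => c100079 h
    have u2 : q.m x2 x1 := Classical.byContradiction fun h => c100082 h
    have u3 : (q.p x2 x3 ∨ q.C x2 x3) := Classical.byContradiction fun h => c100098 h
    have u4 : ¬ (q.C x2 x1) := fun h => c100083 h
    have u5 : ¬ (q.be x2 x1) := fun h => c28 h
    have u6 : q.pi x3 x2 := Classical.byContradiction fun h => q.xippi x3 x2 a0 h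
    have u7 : q.m x3 x2 := Classical.byContradiction fun h => q.xipm x3 x2 a0 h
    have u8 : q.pi x3 x1 := Classical.byContradiction fun h => q.xtpi x3 x2 x1 u6 u0 h
    have u9 : ¬ (q.m x1 x3) := fun h => q.xtm x1 x3 x2 h u7 u1
    have u10 : q.m x3 x1 := Classical.byContradiction fun h => q.xtm x3 x2 x1 u7 u2 h
    have u11 : ¬ (q.p x1 x3) := fun h => q.xipm x1 x3 h u9
    have u12 : ¬ (q.B x1 x3) := fun h => q.xiBp x1 x3 h u11
    have u13 : ¬ (q.p x2 x3) := fun h => c100093 u11 h
    have u14 : q.C x2 x3 := Classical.byContradiction fun h => c26 u3 u13 h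
    have u15 : ¬ (q.C x3 x1) := fun h => q.xtC x2 x3 x1 u14 h u4
    have u16 : q.be x2 x3 := Classical.byContradiction fun h => q.xiCbe x2 x3 u14 h
    have u17 : ¬ (q.be x3 x1) := fun h => q.xtbe x2 x3 x1 u16 h u5
    have u18 : q.be x1 x3 := Classical.byContradiction fun h => c100091 h u16
    have u19 : ¬ (q.B x3 x1) := fun h => q.xiBbe x3 x1 h u17
    have u20 : q.C x1 x3 := Classical.byContradiction fun h => q.xnjbe x1 x3 u18 u12 h u17
    have u21 : q.A x3 x1 := Classical.byContradiction fun h => q.xnjm x3 x1 u10 h u19 u9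
    have u22 : ¬ (q.al x3 x1) := fun h => q.xnfC x3 x1 u15 h u8 u20
    exact q.xiAal x3 x1 u21 u22
  have c100102 : q.p x3 x4 → False := by
    intro a0
    have u0 : ¬ (q.p x3 x2) := fun h => c100101 h
    have u1 : ¬ (q.p x2 x4) := fun h => c100087 h
    exact q.xop x3 x2 x4 u0 u1 a0
  have c100103 : ¬ (q.C x3 x4) → False := by
    intro a0
    have u0 : ¬ (q.p x3 x4) := fun h => c100102 h
    exact c100092 u0 a0
  have c100104 : ¬ (q.be x3 x4) → False := by
    intro a0
    have u0 : q.C x3 x4 := Classical.byContradiction fun h => c100103 h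
    exact q.xiCbe x3 x4 u0 a0
  have c100105 : q.C x2 x3 → False := by
    intro a0
    have u0 : q.C x3 x4 := Classical.byContradiction fun h => c100103 h
    have u1 : ¬ (q.C x2 x4) := fun h => c100086 h
    exact q.xtC x2 x3 x4 a0 u0 u1
  have c100106 : ¬ (q.C x3 x2) → False := by
    intro a0
    have u0 : q.C x3 x4 := Classical.byContradiction fun h => c100103 h
    have u1 : ¬ (q.C x2 x4) := fun h => c100086 h
    exact q.xoC x3 x2 x4 a0 u1 u0
  have c100107 : x4 = x1 → False := by
    intro a0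
    have u0 : q.C x3 x4 := Classical.byContradiction fun h => c100103 h
    exact c100100 u0 a0
  have c100108 : ¬ (q.p x2 x3) → False := by
    intro a0
    have u0 : ¬ (q.C x2 x3) := fun h => c100105 h
    have u1 : (q.p x2 x3 ∨ q.C x2 x3) := Classical.byContradiction fun h => c100098 h
    exact c26 u1 a0 u0
  have c100109 : q.al x2 x3 → False := by
    intro a0
    have u0 : q.C x3 x2 := Classical.byContradiction fun h => c100106 h
    have u1 : q.pi x2 x3 := Classical.byContradiction fun h => c100097 h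
    have u2 : ¬ (q.C x2 x3) := fun h => c100105 h
    exact q.xnfC x2 x3 u2 a0 u1 u0
  have c100110 : ¬ (q.pi x4 x1) → False := by
    intro a0
    have u0 : ¬ (x4 = x1) := fun h => c100107 h
    have u1 : ¬ ((q.p x2 x1 ∨ q.C x2 x1)) := fun h => c100084 h
    have u2 : q.pi x2 x1 := Classical.byContradiction fun h => c62 h
    exact k0_5 u2 u1 u0 a0
  have c100111 : ¬ (q.p x1 x3) → False := by
    intro a0
    have u0 : q.p x2 x3 := Classical.byContradiction fun h => c100108 h
    exact c100093 a0 u0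
  have c100112 : q.A x2 x3 → False := by
    intro a0
    have u0 : ¬ (q.al x2 x3) := fun h => c100109 h
    exact q.xiAal x2 x3 a0 u0
  have c100113 : ¬ (q.m x1 x3) → False := by
    intro a0
    have u0 : q.p x1 x3 := Classical.byContradiction fun h => c100111 h
    exact q.xipm x1 x3 u0 a0
  have c100114 : q.m x3 x2 → False := by
    intro a0
    have u0 : q.m x1 x3 := Classical.byContradiction fun h => c100113 h
    have u1 : ¬ (q.m x1 x2) := fun h => c100079 h
    exact q.xtm x1 x3 x2 u0 a0 u1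
  have c100115 : ¬ (q.m x2 x3) → False := by
    intro a0
    have u0 : q.m x1 x3 := Classical.byContradiction fun h => c100113 h
    have u1 : ¬ (q.m x1 x2) := fun h => c100079 h
    exact q.xom x1 x2 x3 u1 a0 u0
  have c100116 : ¬ (q.B x2 x3) → False := by
    intro a0
    have u0 : q.m x2 x3 := Classical.byContradiction fun h => c100115 h
    have u1 : ¬ (q.A x2 x3) := fun h => c100112 h
    have u2 : ¬ (q.m x3 x2) := fun h => c100114 h
    exact q.xnjm x2 x3 u0 u1 a0 u2
  have c100117 : ¬ (q.be x2 x3) → False := by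
    intro a0
    have u0 : q.B x2 x3 := Classical.byContradiction fun h => c100116 h
    exact q.xiBbe x2 x3 u0 a0
  have c100118 : ¬ (q.B x1 x3) → False := by
    intro a0
    have u0 : q.B x2 x3 := Classical.byContradiction fun h => c100116 h
    exact c100078 a0 u0
  have c100119 : q.be x3 x1 → False := by
    intro a0
    have u0 : q.be x2 x3 := Classical.byContradiction fun h => c100117 h
    have u1 : ¬ (q.be x2 x1) := fun h => c28 h
    exact q.xtbe x2 x3 x1 u0 a0 u1
  have c100120 : ¬ (q.be x1 x3) → False := by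
    intro a0
    have u0 : q.be x2 x3 := Classical.byContradiction fun h => c100117 h
    exact c100091 a0 u0
  have c100121 : ¬ (q.B x4 x3) → False := by
    intro a0
    have u0 : q.B x1 x3 := Classical.byContradiction fun h => c100118 h
    have u1 : ¬ (q.B x1 x4) := fun h => c100089 h
    exact q.xoB x1 x4 x3 u1 a0 u0
  have c100123 : q.be x4 x1 → False := by
    intro a0
    have u0 : ¬ (q.be x3 x1) := fun h => c100119 h
    have u1 : q.be x3 x4 := Classical.byContradiction fun h => c100104 h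
    exact q.xtbe x3 x4 x1 u1 a0 u0
  have c100124 : ¬ (q.be x1 x4) → False := by
    intro a0
    have u0 : q.be x1 x3 := Classical.byContradiction fun h => c100120 h
    have u1 : q.be x3 x4 := Classical.byContradiction fun h => c100104 h
    exact q.xtbe x1 x3 x4 u0 u1 a0
  have c100125 : q.B x4 x1 → False := by
    intro a0
    have u0 : ¬ (q.be x4 x1) := fun h => c100123 h
    exact q.xiBbe x4 x1 a0 u0
  have c100126 : q.C x4 x1 → False := by
    intro a0
    have u0 : ¬ (q.be x4 x1) := fun h => c100123 h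
    exact q.xiCbe x4 x1 a0 u0
  have c100127 : ¬ (q.C x1 x4) → False := by
    intro a0
    have u0 : ¬ (q.be x4 x1) := fun h => c100123 h
    have u1 : ¬ (q.B x1 x4) := fun h => c100089 h
    have u2 : q.be x1 x4 := Classical.byContradiction fun h => c100124 h
    exact q.xnjbe x1 x4 u2 u1 a0 u0
  have c100128 : q.B x4 x4 → False := by
    intro a0
    have u0 : ¬ (q.B x4 x1) := fun h => c100125 h
    have u1 : ¬ (q.B x1 x4) := fun h => c100089 h
    exact q.xoB x4 x1 x4 u0 u1 a0
  have c100129 : q.al x4 x1 → False := by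
    intro a0
    have u0 : ¬ (q.C x4 x1) := fun h => c100126 h
    have u1 : q.pi x4 x1 := Classical.byContradiction fun h => c100110 h
    have u2 : q.C x1 x4 := Classical.byContradiction fun h => c100127 h
    exact q.xnfC x4 x1 u0 a0 u1 u2
  have c100130 : q.B x3 x4 → False := by
    intro a0
    have u0 : ¬ (q.B x4 x4) := fun h => c100128 h
    have u1 : q.B x4 x3 := Classical.byContradiction fun h => c100121 h
    exact q.xtB x4 x3 x4 u1 a0 u0
  have c100131 : q.A x4 x1 → False := by
    intro a0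
    have u0 : ¬ (q.al x4 x1) := fun h => c100129 h
    exact q.xiAal x4 x1 a0 u0
  have c100132 : q.m x3 x4 → False := by
    intro a0
    have u0 : ¬ (q.B x3 x4) := fun h => c100130 h
    have u1 : q.be x3 x4 := Classical.byContradiction fun h => c100104 h
    have u2 : q.B x4 x3 := Classical.byContradiction fun h => c100121 h
    exact q.xnfB x3 x4 u0 a0 u1 u2
  have c100133 : q.A x3 x4 → False := by
    intro a0
    have u0 : ¬ (q.m x3 x4) := fun h => c100132 h
    exact q.xiAm x3 x4 a0 u0
  have c100134 : q.A x2 x4 → False := by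
    intro a0
    have u0 : ¬ (q.A x3 x4) := fun h => c100133 h
    have u1 : ¬ (q.A x2 x3) := fun h => c100112 h
    exact q.xoA x2 x3 x4 u1 u0 a0
  have c100135 : ¬ (q.m x2 x4) → False := by
    intro a0
    have u0 : ¬ (q.m x1 x2) := fun h => c100079 h
    have u1 : q.m x2 x1 := Classical.byContradiction fun h => c100082 h
    have u2 : ¬ (q.B x4 x1) := fun h => c100125 h
    have u3 : ¬ (q.A x4 x1) := fun h => c100131 h
    have u4 : ¬ (q.m x1 x4) := fun h => q.xom x1 x2 x4 u0 a0 h
    have u5 : q.m x4 x1 := Classical.byContradiction fun h => q.xom x2 x4 x1 a0 h u1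
    exact q.xnjm x4 x1 u5 u3 u2 u4
  have c100136 : ¬ (q.m x4 x2) → False := by
    intro a0
    have u0 : q.m x2 x4 := Classical.byContradiction fun h => c100135 h
    have u1 : ¬ (q.A x2 x4) := fun h => c100134 h
    exact c100090 u0 u1 a0
  have c100137 : q.m x1 x4 → False := by
    intro a0
    have u0 : q.m x4 x2 := Classical.byContradiction fun h => c100136 h
    have u1 : ¬ (q.m x1 x2) := fun h => c100079 h
    exact q.xtm x1 x4 x2 a0 u0 u1
  have c100138 : ¬ (q.m x4 x1) → False := by
    intro a0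
    have u0 : q.m x4 x2 := Classical.byContradiction fun h => c100136 h
    have u1 : q.m x2 x1 := Classical.byContradiction fun h => c100082 h
    exact q.xtm x4 x2 x1 u0 u1 a0
  have u0 : q.m x4 x1 := Classical.byContradiction fun h => c100138 h
  have u1 : ¬ (q.m x1 x4) := fun h => c100137 h
  have u2 : ¬ (q.A x4 x1) := fun h => c100131 h
  have u3 : ¬ (q.B x4 x1) := fun h => c100125 h
  exact q.xnjm x4 x1 u0 u2 u3 u1

theorem xPm (q : Q X) (x0 x1 x2 : X) : q.m x0 x1 → ¬ (q.m x2 x1) → q.pi x0 x2 → ¬ (q.be x0 x2) →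
    ¬ (q.p x0 x2) → False :=
  xP q.flip x1 x0 x2

end Q
end R761.BipLat
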