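import Mathlib
import Pool.Agent.R761.BipLat.LemP

/-! Lemma L1b (proof terms produced by a propositional refutation of the rules). -/

namespace R761.BipLat
namespace Q

variable {X : Type*}

theorem xL1b (q : Q X) (x0 x1 : X) : q.s x0 x1 → q.be x0 x1 → ¬ (q.B x0 x1) → ¬ (q.C x0 x1) →
    False := by
  intro h0 h1 h2 h3
  obtain ⟨x2, x3, k0_1, k0_2, k0_3, k0_4, k0_5, k0_6, k0_7⟩ := q.mcutB x0 x1 (fun z => ¬ q.be x0
      z ∨ ¬ q.s x0 z)
  have c40 : ¬ (q.s x0 x1) → False := fun h => h h0
  have c16 : ¬ (q.s x0 x3) → ¬ ((¬ q.be x0 x3 ∨ ¬ q.s x0 x3)) → False := fun h1 h2 => h2 (Or.inr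
      h1)
  have c32 : ¬ (q.be x0 x3) → ¬ ((¬ q.be x0 x3 ∨ ¬ q.s x0 x3)) → False := fun h1 h2 => h2 (Or.inl
      h1)
  have c18 : (¬ q.be x0 x2 ∨ ¬ q.s x0 x2) → q.be x0 x2 → q.s x0 x2 → False := fun h a0 a1 =>
      h.elim (fun g => g a0) (fun g => g a1)
  have c34 : ¬ (q.be x0 x1) → False := fun h => h h1
  have c5 : q.C x0 x1 → False := fun h => h3 h
  have c36 : q.B x0 x1 → False := fun h => h2 h
  have c14 : (¬ q.be x0 x1 ∨ ¬ q.s x0 x1) → q.be x0 x1 → q.s x0 x1 → False := fun h a0 a1 =>
      h.elim (fun g => g a0) (fun g => g a1)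
  have c100045 : q.s x1 x2 → ¬ (q.s x0 x2) → False := by
    intro a0 a1
    have u0 : q.s x0 x1 := Classical.byContradiction fun h => c40 h
    exact q.xts x0 x1 x2 u0 a0 a1
  have c100046 : (¬ q.be x0 x1 ∨ ¬ q.s x0 x1) → False := by
    intro a0
    have u0 : q.be x0 x1 := Classical.byContradiction fun h => c34 h
    have u1 : q.s x0 x1 := Classical.byContradiction fun h => c40 h
    exact c14 a0 u0 u1
  have c100047 : q.B x2 x1 → False := by
    intro a0
    have u0 : ¬ ((¬ q.be x0 x1 ∨ ¬ q.s x0 x1)) := fun h => c100046 h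
    have u1 : ¬ (q.B x0 x1) := fun h => c36 h
    exact k0_7 u1 u0 a0
  have c100048 : q.m x2 x1 → ¬ (q.A x2 x1) → ¬ (q.m x1 x2) → False := by
    intro a0 a1 a2
    have u0 : ¬ (q.B x2 x1) := fun h => c100047 h
    exact q.xnjm x2 x1 a0 a1 u0 a2
  have c100049 : q.m x2 x3 → q.be x2 x3 → False := by
    intro a0 a1
    have u0 : ¬ (q.B x0 x1) := fun h => c36 h
    have u1 : ¬ ((¬ q.be x0 x1 ∨ ¬ q.s x0 x1)) := fun h => c100046 h
    exact k0_3 u0 u1 a0 a1
  have c100050 : (¬ q.be x0 x3 ∨ ¬ q.s x0 x3) → False := by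
    intro a0
    have u0 : ¬ (q.B x0 x1) := fun h => c36 h
    have u1 : ¬ ((¬ q.be x0 x1 ∨ ¬ q.s x0 x1)) := fun h => c100046 h
    exact k0_2 u0 u1 a0
  have c100051 : ¬ (q.s x0 x3) → False := by
    intro a0
    have u0 : ¬ ((¬ q.be x0 x3 ∨ ¬ q.s x0 x3)) := fun h => c100050 h
    exact c16 a0 u0
  have c100052 : ¬ (q.be x0 x3) → False := by
    intro a0
    have u0 : ¬ ((¬ q.be x0 x3 ∨ ¬ q.s x0 x3)) := fun h => c100050 h
    exact c32 a0 u0
  have c100053 : ¬ (q.m x0 x3) → False := by
    intro a0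
    have u0 : q.s x0 x3 := Classical.byContradiction fun h => c100051 h
    exact q.xism x0 x3 u0 a0
  have c100054 : ¬ (q.s x0 x2) → ¬ (q.s x2 x1) → False := by
    intro a0 a1
    have u0 : q.s x0 x1 := Classical.byContradiction fun h => c40 h
    exact q.xos x0 x2 x1 a0 a1 u0
  have c100055 : ¬ (q.C x1 x2) → q.C x0 x2 → False := by
    intro a0 a1
    have u0 : ¬ (q.C x0 x1) := fun h => c5 h
    exact q.xoC x0 x1 x2 u0 a0 a1
  have c100056 : ¬ (q.C x2 x0) → q.C x2 x1 → False := by
    intro a0 a1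
    have u0 : ¬ (q.C x0 x1) := fun h => c5 h
    exact q.xoC x2 x0 x1 a0 u0 a1
  have c100057 : q.be x2 x1 → ¬ (q.C x2 x1) → ¬ (q.be x1 x2) → False := by
    intro a0 a1 a2
    have u0 : ¬ (q.B x2 x1) := fun h => c100047 h
    exact q.xnjbe x2 x1 a0 u0 a1 a2
  have c100058 : x2 = x0 → False := by
    intro a0
    have u0 : q.be x0 x3 := Classical.byContradiction fun h => c100052 h
    have u1 : q.s x0 x3 := Classical.byContradiction fun h => c100051 h
    have u2 : q.be x2 x3 := Classical.byContradiction fun h => eqL' q.be (i := x2) (j := x0) x3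
        a0 h u0
    have u3 : ¬ (q.m x2 x3) := fun h => c100049 h u2
    have u4 : ¬ (q.s x2 x3) := fun h => q.xism x2 x3 h u3
    have u5 : q.s x0 x2 := Classical.byContradiction fun h => q.xos x0 x2 x3 h u4 u1
    have u6 : ¬ (q.s x2 x0) := fun h => q.xts x2 x0 x3 h u1 u4
    have u7 : q.s x2 x2 := Classical.byContradiction fun h => eqL' q.s (i := x2) (j := x0) x2 a0
        h u5
    exact eqR q.s (i := x2) (j := x0) x2 a0 u7 u6
  have c100059 : ¬ ((¬ q.be x0 x2 ∨ ¬ q.s x0 x2)) → False := by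
    intro a0
    have u0 : ¬ (x2 = x0) := fun h => c100058 h
    have u1 : ¬ (q.B x0 x1) := fun h => c36 h
    have u2 : ¬ ((¬ q.be x0 x1 ∨ ¬ q.s x0 x1)) := fun h => c100046 h
    exact k0_1 u1 u2 u0 a0
  have c100060 : q.B x0 x2 → False := by
    intro a0
    have u0 : ¬ (x2 = x0) := fun h => c100058 h
    have u1 : ¬ (q.B x0 x1) := fun h => c36 h
    have u2 : ¬ ((¬ q.be x0 x1 ∨ ¬ q.s x0 x1)) := fun h => c100046 h
    exact k0_4 u1 u2 u0 a0
  have c100061 : q.s x0 x2 → False := by
    intro a0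
    have u0 : (¬ q.be x0 x2 ∨ ¬ q.s x0 x2) := Classical.byContradiction fun h => c100059 h
    have u1 : q.be x0 x1 := Classical.byContradiction fun h => c34 h
    have u2 : q.be x0 x3 := Classical.byContradiction fun h => c100052 h
    have u3 : ¬ (q.B x0 x2) := fun h => c100060 h
    have u4 : q.m x0 x3 := Classical.byContradiction fun h => c100053 h
    have u5 : q.m x0 x2 := Classical.byContradiction fun h => q.xism x0 x2 a0 h
    have u6 : q.pi x0 x2 := Classical.byContradiction fun h => q.xispi x0 x2 a0 h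
    have u7 : ¬ (q.be x0 x2) := fun h => c18 u0 h a0
    have u8 : q.be x2 x1 := Classical.byContradiction fun h => q.xobe x0 x2 x1 u7 h u1
    have u9 : ¬ (q.be x1 x2) := fun h => q.xtbe x0 x1 x2 u1 h u7
    have u10 : ¬ (q.C x1 x2) := fun h => q.xiCbe x1 x2 h u9
    have u11 : q.C x2 x1 := Classical.byContradiction fun h => c100057 u8 h u9
    have u12 : ¬ (q.C x0 x2) := fun h => c100055 u10 h
    have u13 : q.C x2 x0 := Classical.byContradiction fun h => c100056 h u11
    have u14 : ¬ (q.al x0 x2) := fun h => q.xnfC x0 x2 u12 h u6 u13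
    have u15 : q.be x2 x0 := Classical.byContradiction fun h => q.xiCbe x2 x0 u13 h
    have u16 : ¬ (q.A x0 x2) := fun h => q.xiAal x0 x2 h u14
    have u17 : q.be x2 x3 := Classical.byContradiction fun h => q.xtbe x2 x0 x3 u15 u2 h
    have u18 : q.m x2 x0 := Classical.byContradiction fun h => q.xnjm x0 x2 u5 u16 u3 h
    have u19 : ¬ (q.m x2 x3) := fun h => c100049 h u17
    exact q.xtm x2 x0 x3 u18 u4 u19
  have c100062 : ¬ (q.s x2 x3) → False := by
    intro a0
    have u0 : ¬ (q.s x0 x2) := fun h => c100061 h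
    have u1 : q.s x0 x3 := Classical.byContradiction fun h => c100051 h
    exact q.xos x0 x2 x3 u0 a0 u1
  have c100063 : q.s x1 x2 → False := by
    intro a0
    have u0 : ¬ (q.s x0 x2) := fun h => c100061 h
    exact c100045 a0 u0
  have c100064 : ¬ (q.s x2 x1) → False := by
    intro a0
    have u0 : ¬ (q.s x0 x2) := fun h => c100061 h
    exact c100054 u0 a0
  have c100065 : ¬ (q.m x2 x3) → False := by
    intro a0
    have u0 : q.s x2 x3 := Classical.byContradiction fun h => c100062 h
    exact q.xism x2 x3 u0 a0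
  have c100066 : ¬ (q.pi x2 x1) → False := by
    intro a0
    have u0 : q.s x2 x1 := Classical.byContradiction fun h => c100064 h
    exact q.xispi x2 x1 u0 a0
  have c100067 : ¬ (q.m x2 x1) → False := by
    intro a0
    have u0 : q.s x2 x1 := Classical.byContradiction fun h => c100064 h
    exact q.xism x2 x1 u0 a0
  have c100068 : q.be x2 x3 → False := by
    intro a0
    have u0 : q.m x2 x3 := Classical.byContradiction fun h => c100065 h
    exact c100049 u0 a0
  have c100069 : q.be x2 x0 → False := by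
    intro a0
    have u0 : ¬ (q.be x2 x3) := fun h => c100068 h
    have u1 : q.be x0 x3 := Classical.byContradiction fun h => c100052 h
    exact q.xtbe x2 x0 x3 a0 u1 u0
  have c100070 : q.C x2 x0 → False := by
    intro a0
    have u0 : ¬ (q.be x2 x0) := fun h => c100069 h
    exact q.xiCbe x2 x0 a0 u0
  have c100071 : q.C x2 x1 → False := by
    intro a0
    have u0 : ¬ (q.C x2 x0) := fun h => c100070 h
    exact c100056 u0 a0
  have c100072 : ¬ (q.be x1 x2) → False := by
    intro a0
    have u0 : ¬ (q.C x2 x1) := fun h => c100071 h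
    have u1 : q.be x0 x1 := Classical.byContradiction fun h => c34 h
    have u2 : ¬ (q.be x2 x0) := fun h => c100069 h
    have u3 : ¬ (q.B x0 x2) := fun h => c100060 h
    have u4 : ¬ (q.C x1 x2) := fun h => q.xiCbe x1 x2 h a0
    have u5 : ¬ (q.be x2 x1) := fun h => c100057 h u0 a0
    have u6 : ¬ (q.C x0 x2) := fun h => c100055 u4 h
    have u7 : q.be x0 x2 := Classical.byContradiction fun h => q.xobe x0 x2 x1 h u5 u1
    exact q.xnjbe x0 x2 u7 u3 u6 u2
  have c100073 : ¬ (q.be x0 x2) → False := by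
    intro a0
    have u0 : q.be x1 x2 := Classical.byContradiction fun h => c100072 h
    have u1 : q.be x0 x1 := Classical.byContradiction fun h => c34 h
    exact q.xtbe x0 x1 x2 u1 u0 a0
  have c100074 : ¬ (q.pi x1 x2) → False := by
    intro a0
    have u0 : q.be x1 x2 := Classical.byContradiction fun h => c100072 h
    exact q.xibepi x1 x2 u0 a0
  have c100075 : ¬ (q.C x0 x2) → False := by
    intro a0
    have u0 : q.be x0 x2 := Classical.byContradiction fun h => c100073 h
    have u1 : ¬ (q.B x0 x2) := fun h => c100060 h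
    have u2 : ¬ (q.be x2 x0) := fun h => c100069 h
    exact q.xnjbe x0 x2 u0 u1 a0 u2
  have c100076 : q.m x1 x2 → False := by
    intro a0
    have u0 : q.pi x1 x2 := Classical.byContradiction fun h => c100074 h
    have u1 : ¬ (q.s x1 x2) := fun h => c100063 h
    have u2 : q.s x2 x1 := Classical.byContradiction fun h => c100064 h
    exact q.xnfs x1 x2 u1 a0 u0 u2
  have c100077 : ¬ (q.C x1 x2) → False := by
    intro a0
    have u0 : q.C x0 x2 := Classical.byContradiction fun h => c100075 h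
    exact c100055 a0 u0
  have c100078 : ¬ (q.A x2 x1) → False := by
    intro a0
    have u0 : ¬ (q.m x1 x2) := fun h => c100076 h
    have u1 : q.m x2 x1 := Classical.byContradiction fun h => c100067 h
    exact c100048 u1 a0 u0
  have c100079 : q.al x2 x1 → False := by
    intro a0
    have u0 : q.C x1 x2 := Classical.byContradiction fun h => c100077 h
    have u1 : ¬ (q.C x2 x1) := fun h => c100071 h
    have u2 : q.pi x2 x1 := Classical.byContradiction fun h => c100066 h
    exact q.xnfC x2 x1 u1 a0 u2 u0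
  have u0 : q.A x2 x1 := Classical.byContradiction fun h => c100078 h
  have u1 : ¬ (q.al x2 x1) := fun h => c100079 h
  exact q.xiAal x2 x1 u0 u1

end Q
end R761.BipLat
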