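import Mathlib
import Pool.Agent.R761.BipLat.LemB

/-! Lemma L1a (proof terms produced by a propositional refutation of the rules). -/

namespace R761.BipLat
namespace Q

variable {X : Type*}

theorem xL1a (q : Q X) (x0 x1 : X) : q.s x0 x1 → q.C x0 x1 → ¬ (q.p x0 x1) → False := by
  intro h0 h1 h2
  obtain ⟨x2, x3, k0_1, k0_2, k0_3, k0_4, k0_5, k0_6, k0_7⟩ := q.mcutB x0 x1 (fun z => ¬ q.be x0
      z ∨ ¬ q.s x0 z)
  obtain ⟨x4, x5, k1_1, k1_2, k1_3, k1_4, k1_5, k1_6, k1_7⟩ := q.mcutB x3 x1 (fun z => ¬ q.be x3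
      z ∨ ¬ q.m x3 z)
  have c166 : ¬ (q.s x0 x1) → False := fun h => h h0
  have c120 : (¬ q.be x3 x4 ∨ ¬ q.m x3 x4) → q.be x3 x4 → q.m x3 x4 → False := fun h a0 a1 =>
      h.elim (fun g => g a0) (fun g => g a1)
  have c288 : q.p x0 x1 → False := fun h => h2 h
  have c254 : ¬ (q.be x0 x3) → ¬ ((¬ q.be x0 x3 ∨ ¬ q.s x0 x3)) → False := fun h1 h2 => h2
      (Or.inl h1)
  have c251 : ¬ (q.C x0 x1) → False := fun h => h h1
  have c272 : (¬ q.be x0 x1 ∨ ¬ q.s x0 x1) → q.be x0 x1 → q.s x0 x1 → False := fun h a0 a1 =>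
      h.elim (fun g => g a0) (fun g => g a1)
  have c268 : ¬ (q.s x0 x3) → ¬ ((¬ q.be x0 x3 ∨ ¬ q.s x0 x3)) → False := fun h1 h2 => h2 (Or.inr
      h1)
  have c92 : (¬ q.be x0 x2 ∨ ¬ q.s x0 x2) → q.be x0 x2 → q.s x0 x2 → False := fun h a0 a1 =>
      h.elim (fun g => g a0) (fun g => g a1)
  have c113 : ¬ (q.be x3 x5) → ¬ ((¬ q.be x3 x5 ∨ ¬ q.m x3 x5)) → False := fun h1 h2 => h2
      (Or.inl h1)
  have c32 : ¬ (q.m x3 x5) → ¬ ((¬ q.be x3 x5 ∨ ¬ q.m x3 x5)) → False := fun h1 h2 => h2 (Or.inr
      h1)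
  have c163 : (¬ q.be x3 x1 ∨ ¬ q.m x3 x1) → q.be x3 x1 → q.m x3 x1 → False := fun h a0 a1 =>
      h.elim (fun g => g a0) (fun g => g a1)
  have c100292 : q.s x3 x0 → ¬ (q.s x3 x1) → False := by
    intro a0 a1
    have u0 : q.s x0 x1 := Classical.byContradiction fun h => c166 h
    exact q.xts x3 x0 x1 a0 u0 a1
  have c100293 : ¬ (q.pi x0 x1) → False := by
    intro a0
    have u0 : q.C x0 x1 := Classical.byContradiction fun h => c251 h
    exact q.xiCpi x0 x1 u0 a0
  have c100294 : ¬ (q.p x1 x2) → q.p x0 x2 → False := by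
    intro a0 a1
    have u0 : ¬ (q.p x0 x1) := fun h => c288 h
    exact q.xop x0 x1 x2 u0 a0 a1
  have c100295 : ¬ (q.be x0 x1) → False := by
    intro a0
    have u0 : q.C x0 x1 := Classical.byContradiction fun h => c251 h
    exact q.xiCbe x0 x1 u0 a0
  have c100296 : (¬ q.be x0 x1 ∨ ¬ q.s x0 x1) → False := by
    intro a0
    have u0 : q.be x0 x1 := Classical.byContradiction fun h => c100295 h
    have u1 : q.s x0 x1 := Classical.byContradiction fun h => c166 h
    exact c272 a0 u0 u1
  have c100297 : ¬ (q.B x0 x1) → ¬ (x2 = x0) → q.B x0 x2 → False := by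
    intro a0 a1 a2
    have u0 : ¬ ((¬ q.be x0 x1 ∨ ¬ q.s x0 x1)) := fun h => c100296 h
    exact k0_4 a0 u0 a1 a2
  have c100298 : q.pi x2 x0 → ¬ (q.pi x2 x1) → False := by
    intro a0 a1
    have u0 : q.pi x0 x1 := Classical.byContradiction fun h => c100293 h
    exact q.xtpi x2 x0 x1 a0 u0 a1
  have c100299 : ¬ (q.B x0 x1) → (¬ q.be x0 x3 ∨ ¬ q.s x0 x3) → False := by
    intro a0 a1
    have u0 : ¬ ((¬ q.be x0 x1 ∨ ¬ q.s x0 x1)) := fun h => c100296 h
    exact k0_2 a0 u0 a1
  have c100300 : ¬ (q.B x0 x1) → ¬ (x2 = x0) → ¬ ((¬ q.be x0 x2 ∨ ¬ q.s x0 x2)) → False := by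
    intro a0 a1 a2
    have u0 : ¬ ((¬ q.be x0 x1 ∨ ¬ q.s x0 x1)) := fun h => c100296 h
    exact k0_1 a0 u0 a1 a2
  have c100301 : x2 = x0 → ¬ (q.C x2 x1) → False := by
    intro a0 a1
    have u0 : q.C x0 x1 := Classical.byContradiction fun h => c251 h
    exact eqL' q.C (i := x2) (j := x0) x1 a0 a1 u0
  have c100302 : ¬ (q.s x0 x2) → ¬ (q.s x2 x1) → False := by
    intro a0 a1
    have u0 : q.s x0 x1 := Classical.byContradiction fun h => c166 h
    exact q.xos x0 x2 x1 a0 a1 u0
  have c100303 : q.be x1 x2 → ¬ (q.be x0 x2) → False := by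
    intro a0 a1
    have u0 : q.be x0 x1 := Classical.byContradiction fun h => c100295 h
    exact q.xtbe x0 x1 x2 u0 a0 a1
  have c100304 : q.B x0 x1 → False := by
    intro a0
    have u0 : ¬ (q.p x0 x1) := fun h => c288 h
    exact q.xiBp x0 x1 a0 u0
  have c100305 : (¬ q.be x0 x3 ∨ ¬ q.s x0 x3) → False := by
    intro a0
    have u0 : ¬ (q.B x0 x1) := fun h => c100304 h
    exact c100299 u0 a0
  have c100306 : ¬ (q.be x0 x3) → False := by
    intro a0
    have u0 : ¬ ((¬ q.be x0 x3 ∨ ¬ q.s x0 x3)) := fun h => c100305 h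
    exact c254 a0 u0
  have c100307 : ¬ (q.s x0 x3) → False := by
    intro a0
    have u0 : ¬ ((¬ q.be x0 x3 ∨ ¬ q.s x0 x3)) := fun h => c100305 h
    exact c268 a0 u0
  have c100308 : ¬ (q.m x0 x3) → False := by
    intro a0
    have u0 : q.s x0 x3 := Classical.byContradiction fun h => c100307 h
    exact q.xism x0 x3 u0 a0
  have c100309 : q.s x1 x2 → ¬ (q.s x0 x2) → False := by
    intro a0 a1
    have u0 : q.s x0 x1 := Classical.byContradiction fun h => c166 h
    exact q.xts x0 x1 x2 u0 a0 a1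
  have c100310 : q.m x0 x1 → q.B x1 x0 → False := by
    intro a0 a1
    have u0 : ¬ (q.B x0 x1) := fun h => c100304 h
    have u1 : q.be x0 x1 := Classical.byContradiction fun h => c100295 h
    exact q.xnfB x0 x1 u0 a0 u1 a1
  have c100311 : ¬ (q.be x0 x2) → ¬ (q.be x2 x1) → False := by
    intro a0 a1
    have u0 : q.be x0 x1 := Classical.byContradiction fun h => c100295 h
    exact q.xobe x0 x2 x1 a0 a1 u0
  have c100312 : ¬ (q.p x1 x3) → q.p x0 x3 → False := by
    intro a0 a1
    have u0 : ¬ (q.p x0 x1) := fun h => c288 h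
    exact q.xop x0 x1 x3 u0 a0 a1
  have c100313 : q.s x1 x0 → ¬ (q.s x1 x3) → False := by
    intro a0 a1
    have u0 : q.s x0 x3 := Classical.byContradiction fun h => c100307 h
    exact q.xts x1 x0 x3 a0 u0 a1
  have c100314 : q.m x2 x3 → q.be x2 x3 → False := by
    intro a0 a1
    have u0 : ¬ (q.B x0 x1) := fun h => c100304 h
    have u1 : ¬ ((¬ q.be x0 x1 ∨ ¬ q.s x0 x1)) := fun h => c100296 h
    exact k0_3 u0 u1 a0 a1
  have c100315 : q.B x0 x2 → ¬ (q.B x1 x0) → x2 = x0 → False := by
    intro a0 a1 a2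
    have u0 : ¬ (q.B x0 x1) := fun h => c100304 h
    have u1 : ¬ (q.B x2 x1) := fun h => q.xtB x0 x2 x1 a0 h u0
    have u2 : q.B x0 x0 := Classical.byContradiction fun h => eqR q.B (i := x2) (j := x0) x0 a2
        a0 h
    have u3 : ¬ (q.B x2 x0) := fun h => q.xoB x2 x1 x0 u1 a1 h
    exact eqL' q.B (i := x2) (j := x0) x0 a2 u3 u2
  have c100316 : ¬ (q.m x2 x0) → q.m x0 x0 → x2 = x0 → False := by
    intro a0 a1 a2
    have u0 : ¬ (q.m x2 x2) := fun h => eqR q.m (i := x2) (j := x0) x2 a2 h a0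
    have u1 : q.m x0 x2 := Classical.byContradiction fun h => q.xom x0 x2 x0 h a0 a1
    exact eqL' q.m (i := x2) (j := x0) x2 a2 u0 u1
  have c100317 : q.p x1 x3 → q.m x2 x1 → q.pi x2 x1 → ¬ (q.s x2 x3) → ¬ (q.p x2 x3) → False := by
    intro a0 a1 a2 a3 a4
    have u0 : q.s x1 x3 := Classical.byContradiction fun h => q.xips x1 x3 a0 h
    have u1 : q.p x1 x2 := Classical.byContradiction fun h => q.xop x1 x2 x3 h a4 a0
    have u2 : ¬ (q.s x2 x1) := fun h => q.xts x2 x1 x3 h u0 a3
    have u3 : q.s x1 x2 := Classical.byContradiction fun h => q.xips x1 x2 u1 h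
    exact q.xnfs x2 x1 u2 a1 a2 u3
  have c100318 : q.be x2 x3 → q.m x3 x2 → q.be x0 x2 → q.pi x3 x2 → (¬ q.be x3 x1 ∨ ¬ q.m x3 x1)
      → False := by
    intro a0 a1 a2 a3 a4
    have u0 : q.s x0 x3 := Classical.byContradiction fun h => c100307 h
    have u1 : ¬ (q.B x0 x1) := fun h => c100304 h
    have u2 : q.m x0 x3 := Classical.byContradiction fun h => c100308 h
    have u3 : q.be x0 x3 := Classical.byContradiction fun h => c100306 h
    have u4 : ¬ (q.m x2 x3) := fun h => c100314 h a0
    have u5 : ¬ (q.p x2 x3) := fun h => q.xipm x2 x3 h u4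
    have u6 : ¬ (q.A x2 x3) := fun h => q.xiAm x2 x3 h u4
    have u7 : ¬ (q.s x2 x3) := fun h => q.xism x2 x3 h u4
    have u8 : q.s x0 x2 := Classical.byContradiction fun h => q.xos x0 x2 x3 h u7 u0
    have u9 : ¬ ((¬ q.be x0 x2 ∨ ¬ q.s x0 x2)) := fun h => c92 h a2 u8
    have u10 : x2 = x0 := Classical.byContradiction fun h => c100300 u1 h u9
    have u11 : q.C x2 x1 := Classical.byContradiction fun h => c100301 u10 h
    have u12 : q.s x0 x0 := Classical.byContradiction fun h => eqR q.s (i := x2) (j := x0) x0 u10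
        u8 h
    have u13 : q.pi x3 x0 := Classical.byContradiction fun h => eqR q.pi (i := x2) (j := x0) x3
        u10 a3 h
    have u14 : ¬ (q.A x0 x3) := fun h => eqL' q.A (i := x2) (j := x0) x3 u10 u6 h
    have u15 : q.pi x2 x1 := Classical.byContradiction fun h => q.xiCpi x2 x1 u11 h
    have u16 : q.m x0 x0 := Classical.byContradiction fun h => q.xism x0 x0 u12 h
    have u17 : q.m x2 x0 := Classical.byContradiction fun h => c100316 h u16 u10
    have u18 : q.m x3 x0 := Classical.byContradiction fun h => q.xom x2 x3 x0 u4 h u17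
    have u19 : q.s x3 x0 := Classical.byContradiction fun h => q.xnfs x3 x0 h u18 u13 u0
    have u20 : q.s x3 x1 := Classical.byContradiction fun h => c100292 u19 h
    have u21 : q.m x3 x1 := Classical.byContradiction fun h => q.xism x3 x1 u20 h
    have u22 : q.m x0 x1 := Classical.byContradiction fun h => q.xtm x0 x3 x1 u2 u21 h
    have u23 : ¬ (q.be x3 x1) := fun h => c163 a4 h u21
    have u24 : ¬ (q.B x1 x0) := fun h => c100310 u22 h
    have u25 : q.m x2 x1 := Classical.byContradiction fun h => q.xtm x2 x0 x1 u17 u22 h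
    have u26 : ¬ (q.B x0 x2) := fun h => c100315 h u24 u10
    have u27 : ¬ (q.B x2 x2) := fun h => eqL q.B (i := x2) (j := x0) x2 u10 h u26
    have u28 : ¬ (q.B x2 x0) := fun h => eqR' q.B (i := x2) (j := x0) x2 u10 u27 h
    have u29 : ¬ (q.B x2 x1) := fun h => q.xoB x2 x0 x1 u28 u1 h
    have u30 : ¬ (q.p x1 x3) := fun h => c100317 h u25 u15 u7 u5
    have u31 : ¬ (q.B x1 x3) := fun h => q.xiBp x1 x3 h u30
    have u32 : ¬ (q.B x2 x3) := fun h => q.xoB x2 x1 x3 u29 u31 h
    have u33 : ¬ (q.B x0 x3) := fun h => q.xoB x0 x2 x3 u26 u32 h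
    have u34 : ¬ (q.B x3 x0) := fun h => q.xnfB x0 x3 u33 u2 u3 h
    have u35 : ¬ (q.B x3 x2) := fun h => q.xoB x3 x0 x2 u34 u26 h
    have u36 : q.A x3 x2 := Classical.byContradiction fun h => q.xnjm x3 x2 a1 h u35 u4
    have u37 : q.A x3 x0 := Classical.byContradiction fun h => eqR q.A (i := x2) (j := x0) x3 u10
        u36 h
    have u38 : ¬ (q.al x0 x3) := fun h => q.xnfA x0 x3 u14 h u2 u37
    have u39 : ¬ (q.al x2 x3) := fun h => eqL q.al (i := x2) (j := x0) x3 u10 h u38
    have u40 : ¬ (q.C x2 x3) := fun h => q.xiCal x2 x3 h u39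
    have u41 : q.be x3 x2 := Classical.byContradiction fun h => q.xnjbe x2 x3 a0 u32 u40 h
    have u42 : ¬ (q.C x1 x3) := fun h => q.xtC x2 x1 x3 u11 h u40
    have u43 : ¬ (q.be x1 x3) := fun h => q.xnjbe x1 x3 h u31 u42 u23
    have u44 : ¬ (q.be x1 x0) := fun h => q.xtbe x1 x0 x3 h u3 u43
    have u45 : ¬ (q.be x3 x0) := fun h => q.xobe x3 x1 x0 u23 u44 h
    have u46 : ¬ (q.be x2 x0) := fun h => q.xtbe x3 x2 x0 u41 h u45
    have u47 : ¬ (q.be x2 x2) := fun h => eqR q.be (i := x2) (j := x0) x2 u10 h u46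
    have u48 : q.C x0 x2 := Classical.byContradiction fun h => q.xnjbe x0 x2 a2 u26 h u46
    have u49 : ¬ (q.C x2 x2) := fun h => q.xiCbe x2 x2 h u47
    exact eqL' q.C (i := x2) (j := x0) x2 u10 u49 u48
  have c100319 : q.m x2 x1 → q.m x3 x2 → q.be x0 x2 → q.pi x3 x2 → (¬ q.be x3 x1 ∨ ¬ q.m x3 x1) →
      False := by
    intro a0 a1 a2 a3 a4
    have u0 : q.be x0 x3 := Classical.byContradiction fun h => c100306 h
    have u1 : ¬ (q.B x0 x1) := fun h => c100304 h
    have u2 : q.s x0 x3 := Classical.byContradiction fun h => c100307 h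
    have u3 : ¬ (q.p x0 x1) := fun h => c288 h
    have u4 : ¬ (q.be x2 x3) := fun h => c100318 h a1 a2 a3 a4
    have u5 : ¬ (q.be x2 x0) := fun h => q.xtbe x2 x0 x3 h u0 u4
    have u6 : ¬ (q.C x2 x0) := fun h => q.xiCbe x2 x0 h u5
    have u7 : ¬ (q.B x2 x0) := fun h => q.xiBbe x2 x0 h u5
    have u8 : q.pi x0 x2 := Classical.byContradiction fun h => q.xibepi x0 x2 a2 h
    have u9 : q.m x3 x1 := Classical.byContradiction fun h => q.xtm x3 x2 x1 a1 a0 h
    have u10 : ¬ (q.be x3 x1) := fun h => c163 a4 h u9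
    have u11 : ¬ (q.be x2 x1) := fun h => q.xobe x2 x3 x1 u4 u10 h
    have u12 : ¬ (q.C x2 x1) := fun h => q.xiCbe x2 x1 h u11
    have u13 : ¬ (x2 = x0) := fun h => c100301 h u12
    have u14 : ¬ (q.B x0 x2) := fun h => c100297 u1 u13 h
    have u15 : (¬ q.be x0 x2 ∨ ¬ q.s x0 x2) := Classical.byContradiction fun h => c100300 u1 u13 h
    have u16 : q.C x0 x2 := Classical.byContradiction fun h => q.xnjbe x0 x2 a2 u14 h u5
    have u17 : ¬ (q.s x0 x2) := fun h => c92 u15 a2 h
    have u18 : q.s x2 x3 := Classical.byContradiction fun h => q.xos x0 x2 x3 u17 h u2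
    have u19 : q.s x2 x1 := Classical.byContradiction fun h => c100302 u17 h
    have u20 : ¬ (q.s x1 x2) := fun h => c100309 h u17
    have u21 : q.s x3 x2 := Classical.byContradiction fun h => q.xnfs x3 x2 h a1 a3 u18
    have u22 : q.pi x2 x1 := Classical.byContradiction fun h => q.xispi x2 x1 u19 h
    have u23 : q.s x2 x2 := Classical.byContradiction fun h => q.xts x2 x3 x2 u18 u21 h
    have u24 : q.s x2 x0 := Classical.byContradiction fun h => q.xos x2 x0 x2 h u17 u23
    have u25 : q.pi x2 x0 := Classical.byContradiction fun h => q.xispi x2 x0 u24 h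
    have u26 : ¬ (q.m x0 x2) := fun h => q.xnfs x0 x2 u17 h u8 u24
    have u27 : ¬ (q.al x2 x0) := fun h => q.xnfC x2 x0 u6 h u25 u16
    have u28 : ¬ (q.A x2 x0) := fun h => q.xiAal x2 x0 h u27
    have u29 : ¬ (q.m x2 x0) := fun h => q.xnjm x2 x0 h u28 u7 u26
    have u30 : ¬ (q.p x2 x0) := fun h => q.xipm x2 x0 h u29
    have u31 : ¬ (q.p x2 x1) := fun h => q.xop x2 x0 x1 u30 u3 h
    have u32 : q.pi x1 x2 := Classical.byContradiction fun h => q.xnjpi x2 x1 u22 u31 u12 h
    have u33 : q.m x1 x1 := Classical.byContradiction fun h => q.xPm x2 x1 x1 a0 h u22 u11 u31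
    have u34 : ¬ (q.m x1 x2) := fun h => q.xnfs x1 x2 u20 h u32 u19
    exact q.xP x1 x1 x2 u33 u34 u22 u11 u31
  have c100320 : q.m x3 x2 → q.be x0 x2 → (¬ q.be x3 x1 ∨ ¬ q.m x3 x1) → q.pi x3 x2 → False := by
    intro a0 a1 a2 a3
    have u0 : ¬ (q.B x0 x1) := fun h => c100304 h
    have u1 : q.be x0 x3 := Classical.byContradiction fun h => c100306 h
    have u2 : ¬ (q.be x2 x3) := fun h => c100318 h a0 a1 a3 a2
    have u3 : ¬ (q.be x2 x0) := fun h => q.xtbe x2 x0 x3 h u1 u2
    have u4 : ¬ (q.B x2 x0) := fun h => q.xiBbe x2 x0 h u3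
    have u5 : ¬ (q.m x2 x1) := fun h => c100319 h a0 a1 a3 a2
    have u6 : ¬ (q.s x2 x1) := fun h => q.xism x2 x1 h u5
    have u7 : q.s x0 x2 := Classical.byContradiction fun h => c100302 h u6
    have u8 : ¬ ((¬ q.be x0 x2 ∨ ¬ q.s x0 x2)) := fun h => c92 h a1 u7
    have u9 : x2 = x0 := Classical.byContradiction fun h => c100300 u0 h u8
    have u10 : ¬ (q.be x2 x2) := fun h => eqR q.be (i := x2) (j := x0) x2 u9 h u3
    have u11 : ¬ (q.B x0 x0) := fun h => eqL' q.B (i := x2) (j := x0) x0 u9 u4 h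
    have u12 : ¬ (q.C x2 x2) := fun h => q.xiCbe x2 x2 h u10
    have u13 : ¬ (q.B x0 x2) := fun h => eqR q.B (i := x2) (j := x0) x0 u9 h u11
    have u14 : ¬ (q.C x0 x2) := fun h => eqL' q.C (i := x2) (j := x0) x2 u9 u12 h
    exact q.xnjbe x0 x2 a1 u13 u14 u3
  have c100321 : q.s x0 x2 → ¬ (q.m x3 x2) → q.be x0 x2 → False := by
    intro a0 a1 a2
    have u0 : ¬ (q.B x0 x1) := fun h => c100304 h
    have u1 : q.be x0 x3 := Classical.byContradiction fun h => c100306 h
    have u2 : ¬ ((¬ q.be x0 x2 ∨ ¬ q.s x0 x2)) := fun h => c92 h a2 a0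
    have u3 : x2 = x0 := Classical.byContradiction fun h => c100300 u0 h u2
    have u4 : q.s x0 x0 := Classical.byContradiction fun h => eqR q.s (i := x2) (j := x0) x0 u3
        a0 h
    have u5 : ¬ (q.m x3 x0) := fun h => eqR' q.m (i := x2) (j := x0) x3 u3 a1 h
    have u6 : q.m x0 x0 := Classical.byContradiction fun h => q.xism x0 x0 u4 h
    have u7 : q.m x2 x0 := Classical.byContradiction fun h => c100316 h u6 u3
    have u8 : q.m x2 x3 := Classical.byContradiction fun h => q.xom x2 x3 x0 h u5 u7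
    have u9 : ¬ (q.be x2 x3) := fun h => c100314 u8 h
    have u10 : ¬ (q.be x2 x0) := fun h => q.xtbe x2 x0 x3 h u1 u9
    have u11 : ¬ (q.B x2 x0) := fun h => q.xiBbe x2 x0 h u10
    have u12 : ¬ (q.be x2 x2) := fun h => eqR q.be (i := x2) (j := x0) x2 u3 h u10
    have u13 : ¬ (q.B x0 x0) := fun h => eqL' q.B (i := x2) (j := x0) x0 u3 u11 h
    have u14 : ¬ (q.C x2 x2) := fun h => q.xiCbe x2 x2 h u12
    have u15 : ¬ (q.B x0 x2) := fun h => eqR q.B (i := x2) (j := x0) x0 u3 h u13
    have u16 : ¬ (q.C x0 x2) := fun h => eqL' q.C (i := x2) (j := x0) x2 u3 u14 h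
    exact q.xnjbe x0 x2 a2 u15 u16 u10
  have c100322 : x2 = x0 → ¬ (q.be x2 x0) → q.be x0 x2 → False := by
    intro a0 a1 a2
    have u0 : ¬ (q.B x2 x0) := fun h => q.xiBbe x2 x0 h a1
    have u1 : ¬ (q.be x2 x2) := fun h => eqR q.be (i := x2) (j := x0) x2 a0 h a1
    have u2 : ¬ (q.B x0 x0) := fun h => eqL' q.B (i := x2) (j := x0) x0 a0 u0 h
    have u3 : ¬ (q.C x2 x2) := fun h => q.xiCbe x2 x2 h u1
    have u4 : ¬ (q.B x0 x2) := fun h => eqR q.B (i := x2) (j := x0) x0 a0 h u2
    have u5 : ¬ (q.C x0 x2) := fun h => eqL' q.C (i := x2) (j := x0) x2 a0 u3 h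
    exact q.xnjbe x0 x2 a2 u4 u5 a1
  have c100323 : q.p x1 x3 → q.C x3 x1 → ¬ (q.m x3 x1) → ¬ (q.C x1 x3) → ¬ (q.B x1 x3) → False :=
      by
    intro a0 a1 a2 a3 a4
    have u0 : q.pi x1 x3 := Classical.byContradiction fun h => q.xippi x1 x3 a0 h
    have u1 : q.m x1 x3 := Classical.byContradiction fun h => q.xipm x1 x3 a0 h
    have u2 : ¬ (q.al x1 x3) := fun h => q.xnfC x1 x3 a3 h u0 a1
    have u3 : q.A x1 x3 := Classical.byContradiction fun h => q.xnjm x1 x3 u1 h a4 a2
    exact q.xiAal x1 x3 u3 u2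
  have c100324 : ¬ (q.p x2 x3) → q.m x2 x3 → q.pi x2 x3 → ¬ (q.m x3 x2) → False := by
    intro a0 a1 a2 a3
    have u0 : ¬ (q.be x2 x3) := fun h => c100314 a1 h
    have u1 : q.m x2 x2 := Classical.byContradiction fun h => q.xP x2 x3 x2 a1 h a2 u0 a0
    exact q.xPm x2 x2 x3 u1 a3 a2 u0 a0
  have c100325 : q.s x2 x0 → q.m x2 x0 → q.C x0 x2 → ¬ (q.s x0 x2) → q.pi x0 x2 → False := by
    intro a0 a1 a2 a3 a4
    have u0 : q.s x0 x3 := Classical.byContradiction fun h => c100307 h
    have u1 : q.be x0 x3 := Classical.byContradiction fun h => c100306 h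
    have u2 : q.s x2 x3 := Classical.byContradiction fun h => q.xos x0 x2 x3 a3 h u0
    have u3 : q.m x2 x3 := Classical.byContradiction fun h => q.xism x2 x3 u2 h
    have u4 : ¬ (q.be x2 x3) := fun h => c100314 u3 h
    have u5 : ¬ (q.be x2 x0) := fun h => q.xtbe x2 x0 x3 h u1 u4
    have u6 : ¬ (q.C x2 x0) := fun h => q.xiCbe x2 x0 h u5
    have u7 : ¬ (q.B x2 x0) := fun h => q.xiBbe x2 x0 h u5
    have u8 : q.pi x2 x0 := Classical.byContradiction fun h => q.xispi x2 x0 a0 h
    have u9 : ¬ (q.m x0 x2) := fun h => q.xnfs x0 x2 a3 h a4 a0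
    have u10 : ¬ (q.al x2 x0) := fun h => q.xnfC x2 x0 u6 h u8 a2
    have u11 : q.A x2 x0 := Classical.byContradiction fun h => q.xnjm x2 x0 a1 h u7 u9
    exact q.xiAal x2 x0 u11 u10
  have c100326 : ¬ (q.be x1 x3) → ¬ (q.B x3 x1) → ¬ (q.B x1 x3) → ¬ (q.m x3 x1) → q.be x3 x1 →
      q.p x1 x3 → False := by
    intro a0 a1 a2 a3 a4 a5
    have u0 : ¬ (q.C x1 x3) := fun h => q.xiCbe x1 x3 h a0
    have u1 : q.C x3 x1 := Classical.byContradiction fun h => q.xnjbe x3 x1 a4 a1 h a0
    exact c100323 a5 u1 a3 u0 a2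
  have c100327 : ¬ (q.be x2 x1) → ¬ (q.m x1 x2) → ¬ (q.p x2 x1) → q.s x2 x1 → False := by
    intro a0 a1 a2 a3
    have u0 : q.m x2 x1 := Classical.byContradiction fun h => q.xism x2 x1 a3 h
    have u1 : q.pi x2 x1 := Classical.byContradiction fun h => q.xispi x2 x1 a3 h
    have u2 : q.m x1 x1 := Classical.byContradiction fun h => q.xPm x2 x1 x1 u0 h u1 a0 a2
    exact q.xP x1 x1 x2 u2 a1 u1 a0 a2
  have c100328 : ¬ (q.p x2 x0) → q.be x0 x2 → q.pi x3 x2 → (¬ q.be x3 x1 ∨ ¬ q.m x3 x1) → False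
      := by
    intro a0 a1 a2 a3
    have u0 : ¬ (q.B x0 x1) := fun h => c100304 h
    have u1 : q.s x0 x3 := Classical.byContradiction fun h => c100307 h
    have u2 : ¬ (q.p x0 x1) := fun h => c288 h
    have u3 : q.m x0 x3 := Classical.byContradiction fun h => c100308 h
    have u4 : q.be x0 x3 := Classical.byContradiction fun h => c100306 h
    have u5 : ¬ (q.m x3 x2) := fun h => c100320 h a1 a3 a2
    have u6 : ¬ (q.s x0 x2) := fun h => c100321 h u5 a1
    have u7 : q.s x2 x3 := Classical.byContradiction fun h => q.xos x0 x2 x3 u6 h u1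
    have u8 : q.pi x2 x3 := Classical.byContradiction fun h => q.xispi x2 x3 u7 h
    have u9 : q.m x2 x3 := Classical.byContradiction fun h => q.xism x2 x3 u7 h
    have u10 : q.p x2 x3 := Classical.byContradiction fun h => c100324 h u9 u8 u5
    have u11 : ¬ (q.be x2 x3) := fun h => c100314 u9 h
    have u12 : ¬ (q.be x2 x0) := fun h => q.xtbe x2 x0 x3 h u4 u11
    have u13 : ¬ (x2 = x0) := fun h => c100322 h u12 a1
    have u14 : ¬ (q.B x0 x2) := fun h => c100297 u0 u13 h
    have u15 : ¬ (q.B x2 x0) := fun h => q.xiBbe x2 x0 h u12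
    have u16 : ¬ (q.B x2 x1) := fun h => q.xoB x2 x0 x1 u15 u0 h
    have u17 : ¬ (q.s x1 x2) := fun h => c100309 h u6
    have u18 : q.s x2 x1 := Classical.byContradiction fun h => c100302 u6 h
    have u19 : ¬ (q.p x2 x1) := fun h => q.xop x2 x0 x1 a0 u2 h
    have u20 : q.p x0 x3 := Classical.byContradiction fun h => q.xop x2 x0 x3 a0 h u10
    have u21 : q.p x1 x3 := Classical.byContradiction fun h => c100312 h u20
    have u22 : q.pi x1 x3 := Classical.byContradiction fun h => q.xippi x1 x3 u21 h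
    have u23 : q.pi x1 x2 := Classical.byContradiction fun h => q.xtpi x1 x3 x2 u22 a2 h
    have u24 : ¬ (q.m x1 x2) := fun h => q.xnfs x1 x2 u17 h u23 u18
    have u25 : q.be x2 x1 := Classical.byContradiction fun h => c100327 h u24 u19 u18
    have u26 : ¬ (q.be x1 x3) := fun h => q.xtbe x2 x1 x3 u25 h u11
    have u27 : ¬ (q.B x1 x3) := fun h => q.xiBbe x1 x3 h u26
    have u28 : ¬ (q.B x2 x3) := fun h => q.xoB x2 x1 x3 u16 u27 h
    have u29 : ¬ (q.B x0 x3) := fun h => q.xoB x0 x2 x3 u14 u28 h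
    have u30 : ¬ (q.B x3 x0) := fun h => q.xnfB x0 x3 u29 u3 u4 h
    have u31 : q.be x3 x1 := Classical.byContradiction fun h => q.xobe x2 x3 x1 u11 h u25
    have u32 : ¬ (q.B x3 x2) := fun h => q.xoB x3 x0 x2 u30 u14 h
    have u33 : ¬ (q.m x3 x1) := fun h => c163 a3 u31 h
    have u34 : ¬ (q.B x3 x1) := fun h => q.xoB x3 x2 x1 u32 u16 h
    exact c100326 u26 u34 u27 u33 u31 u21
  have c100329 : q.be x0 x2 → q.pi x3 x2 → (¬ q.be x3 x1 ∨ ¬ q.m x3 x1) → False := by
    intro a0 a1 a2
    have u0 : q.s x0 x3 := Classical.byContradiction fun h => c100307 h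
    have u1 : q.be x0 x3 := Classical.byContradiction fun h => c100306 h
    have u2 : ¬ (q.B x0 x1) := fun h => c100304 h
    have u3 : q.pi x0 x2 := Classical.byContradiction fun h => q.xibepi x0 x2 a0 h
    have u4 : ¬ (q.m x3 x2) := fun h => c100320 h a0 a2 a1
    have u5 : ¬ (q.s x0 x2) := fun h => c100321 h u4 a0
    have u6 : q.s x2 x3 := Classical.byContradiction fun h => q.xos x0 x2 x3 u5 h u0
    have u7 : q.m x2 x3 := Classical.byContradiction fun h => q.xism x2 x3 u6 h
    have u8 : ¬ (q.be x2 x3) := fun h => c100314 u7 h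
    have u9 : ¬ (q.be x2 x0) := fun h => q.xtbe x2 x0 x3 h u1 u8
    have u10 : ¬ (x2 = x0) := fun h => c100322 h u9 a0
    have u11 : ¬ (q.B x0 x2) := fun h => c100297 u2 u10 h
    have u12 : q.C x0 x2 := Classical.byContradiction fun h => q.xnjbe x0 x2 a0 u11 h u9
    have u13 : q.p x2 x0 := Classical.byContradiction fun h => c100328 h a0 a1 a2
    have u14 : q.m x2 x0 := Classical.byContradiction fun h => q.xipm x2 x0 u13 h
    have u15 : q.s x2 x0 := Classical.byContradiction fun h => q.xips x2 x0 u13 h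
    exact c100325 u15 u14 u12 u5 u3
  have c100330 : ¬ (q.m x2 x1) → ¬ (q.be x0 x2) → False := by
    intro a0 a1
    have u0 : q.s x0 x3 := Classical.byContradiction fun h => c100307 h
    have u1 : q.m x0 x3 := Classical.byContradiction fun h => c100308 h
    have u2 : q.be x0 x3 := Classical.byContradiction fun h => c100306 h
    have u3 : q.be x2 x3 := Classical.byContradiction fun h => q.xobe x0 x2 x3 a1 h u2
    have u4 : ¬ (q.m x2 x3) := fun h => c100314 h u3
    have u5 : ¬ (q.s x2 x3) := fun h => q.xism x2 x3 h u4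
    have u6 : q.s x0 x2 := Classical.byContradiction fun h => q.xos x0 x2 x3 h u5 u0
    have u7 : q.pi x0 x2 := Classical.byContradiction fun h => q.xispi x0 x2 u6 h
    have u8 : q.p x0 x2 := Classical.byContradiction fun h => q.xPm x0 x3 x2 u1 u4 u7 a1 h
    have u9 : q.p x1 x2 := Classical.byContradiction fun h => c100294 h u8
    have u10 : q.s x1 x2 := Classical.byContradiction fun h => q.xips x1 x2 u9 h
    have u11 : q.pi x1 x2 := Classical.byContradiction fun h => q.xispi x1 x2 u10 h
    have u12 : q.m x1 x2 := Classical.byContradiction fun h => q.xism x1 x2 u10 h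
    have u13 : ¬ (q.be x1 x2) := fun h => c100303 h a1
    have u14 : ¬ (q.B x1 x2) := fun h => q.xiBbe x1 x2 h u13
    have u15 : ¬ (q.C x1 x2) := fun h => q.xiCbe x1 x2 h u13
    have u16 : q.be x2 x1 := Classical.byContradiction fun h => c100311 a1 h
    have u17 : ¬ (q.B x2 x1) := fun h => q.xiBm x2 x1 h a0
    have u18 : q.A x1 x2 := Classical.byContradiction fun h => q.xnjm x1 x2 u12 h u14 a0
    have u19 : q.C x2 x1 := Classical.byContradiction fun h => q.xnjbe x2 x1 u16 u17 h u13
    have u20 : q.al x1 x2 := Classical.byContradiction fun h => q.xiAal x1 x2 u18 h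
    exact q.xnfC x1 x2 u15 u20 u11 u19
  have c100331 : ¬ (q.pi x2 x1) → ¬ (q.be x0 x2) → False := by
    intro a0 a1
    have u0 : ¬ (q.B x0 x1) := fun h => c100304 h
    have u1 : q.be x2 x1 := Classical.byContradiction fun h => c100311 a1 h
    have u2 : ¬ (q.be x1 x2) := fun h => c100303 h a1
    have u3 : ¬ (q.pi x2 x0) := fun h => c100298 h a0
    have u4 : ¬ (q.C x2 x1) := fun h => q.xiCpi x2 x1 h a0
    have u5 : ¬ (q.s x2 x0) := fun h => q.xispi x2 x0 h u3
    have u6 : q.B x2 x1 := Classical.byContradiction fun h => q.xnjbe x2 x1 u1 h u4 u2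
    have u7 : ¬ (q.p x2 x0) := fun h => q.xips x2 x0 h u5
    have u8 : q.B x2 x0 := Classical.byContradiction fun h => q.xoB x2 x0 x1 h u0 u6
    exact q.xiBp x2 x0 u8 u7
  have c100332 : ¬ (q.be x3 x2) → q.al x3 x2 → ¬ (q.B x2 x3) → q.be x2 x3 → q.pi x3 x2 → False :=
      by
    intro a0 a1 a2 a3 a4
    have u0 : ¬ (q.C x3 x2) := fun h => q.xiCbe x3 x2 h a0
    have u1 : q.C x2 x3 := Classical.byContradiction fun h => q.xnjbe x2 x3 a3 a2 h a0
    exact q.xnfC x3 x2 u0 a1 a4 u1
  have c100333 : q.al x3 x2 → ¬ (q.be x3 x1) → ¬ (q.be x0 x2) → q.pi x3 x2 → False := by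
    intro a0 a1 a2 a3
    have u0 : q.s x0 x3 := Classical.byContradiction fun h => c100307 h
    have u1 : q.m x0 x3 := Classical.byContradiction fun h => c100308 h
    have u2 : ¬ (q.B x0 x1) := fun h => c100304 h
    have u3 : q.be x0 x3 := Classical.byContradiction fun h => c100306 h
    have u4 : q.be x2 x3 := Classical.byContradiction fun h => q.xobe x0 x2 x3 a2 h u3
    have u5 : ¬ (q.m x2 x3) := fun h => c100314 h u4
    have u6 : ¬ (q.p x2 x3) := fun h => q.xipm x2 x3 h u5
    have u7 : ¬ (q.s x2 x3) := fun h => q.xism x2 x3 h u5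
    have u8 : q.m x2 x1 := Classical.byContradiction fun h => c100330 h a2
    have u9 : q.pi x2 x1 := Classical.byContradiction fun h => c100331 h a2
    have u10 : ¬ (q.p x1 x3) := fun h => c100317 h u8 u9 u7 u6
    have u11 : ¬ (q.B x1 x3) := fun h => q.xiBp x1 x3 h u10
    have u12 : q.s x0 x2 := Classical.byContradiction fun h => q.xos x0 x2 x3 h u7 u0
    have u13 : q.pi x0 x2 := Classical.byContradiction fun h => q.xispi x0 x2 u12 h
    have u14 : q.p x0 x2 := Classical.byContradiction fun h => q.xPm x0 x3 x2 u1 u5 u13 a2 h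
    have u15 : q.p x1 x2 := Classical.byContradiction fun h => c100294 h u14
    have u16 : q.s x1 x2 := Classical.byContradiction fun h => q.xips x1 x2 u15 h
    have u17 : q.s x2 x1 := Classical.byContradiction fun h => q.xnfs x2 x1 h u8 u9 u16
    have u18 : ¬ (q.s x1 x3) := fun h => q.xts x2 x1 x3 u17 h u7
    have u19 : ¬ (q.s x1 x0) := fun h => c100313 h u18
    have u20 : ¬ (q.s x2 x0) := fun h => q.xts x1 x2 x0 u16 h u19
    have u21 : ¬ (q.p x2 x0) := fun h => q.xips x2 x0 h u20
    have u22 : ¬ (q.B x2 x0) := fun h => q.xiBp x2 x0 h u21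
    have u23 : ¬ (q.B x2 x1) := fun h => q.xoB x2 x0 x1 u22 u2 h
    have u24 : ¬ (q.B x2 x3) := fun h => q.xoB x2 x1 x3 u23 u11 h
    have u25 : q.be x2 x1 := Classical.byContradiction fun h => c100311 a2 h
    have u26 : ¬ (q.be x1 x2) := fun h => c100303 h a2
    have u27 : q.C x2 x1 := Classical.byContradiction fun h => q.xnjbe x2 x1 u25 u23 h u26
    have u28 : ¬ (q.C x1 x2) := fun h => q.xiCbe x1 x2 h u26
    have u29 : q.be x3 x2 := Classical.byContradiction fun h => c100332 h a0 u24 u4 a3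
    have u30 : q.be x3 x0 := Classical.byContradiction fun h => q.xobe x3 x0 x2 h a2 u29
    have u31 : q.be x1 x0 := Classical.byContradiction fun h => q.xobe x3 x1 x0 a1 h u30
    have u32 : q.be x1 x3 := Classical.byContradiction fun h => q.xtbe x1 x0 x3 u31 u3 h
    have u33 : q.C x1 x3 := Classical.byContradiction fun h => q.xnjbe x1 x3 u32 u11 h a1
    have u34 : q.C x2 x3 := Classical.byContradiction fun h => q.xtC x2 x1 x3 u27 u33 h
    have u35 : ¬ (q.C x3 x2) := fun h => q.xtC x1 x3 x2 u33 h u28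
    exact q.xnfC x3 x2 u35 a0 a3 u34
  have c100334 : ¬ (q.B x0 x2) → q.B x3 x2 → ¬ (q.B x2 x3) → False := by
    intro a0 a1 a2
    have u0 : q.m x0 x3 := Classical.byContradiction fun h => c100308 h
    have u1 : q.be x0 x3 := Classical.byContradiction fun h => c100306 h
    have u2 : ¬ (q.B x0 x3) := fun h => q.xoB x0 x2 x3 a0 a2 h
    have u3 : q.B x3 x0 := Classical.byContradiction fun h => q.xoB x3 x0 x2 h a0 a1
    exact q.xnfB x0 x3 u2 u0 u1 u3
  have c100335 : q.pi x3 x2 → (¬ q.be x3 x1 ∨ ¬ q.m x3 x1) → False := by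
    intro a0 a1
    have u0 : ¬ (q.B x0 x1) := fun h => c100304 h
    have u1 : q.m x0 x3 := Classical.byContradiction fun h => c100308 h
    have u2 : q.s x0 x3 := Classical.byContradiction fun h => c100307 h
    have u3 : q.be x0 x3 := Classical.byContradiction fun h => c100306 h
    have u4 : ¬ (q.be x0 x2) := fun h => c100329 h a0 a1
    have u5 : q.be x2 x3 := Classical.byContradiction fun h => q.xobe x0 x2 x3 u4 h u3
    have u6 : ¬ (q.m x2 x3) := fun h => c100314 h u5
    have u7 : ¬ (q.p x2 x3) := fun h => q.xipm x2 x3 h u6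
    have u8 : ¬ (q.s x2 x3) := fun h => q.xism x2 x3 h u6
    have u9 : q.s x0 x2 := Classical.byContradiction fun h => q.xos x0 x2 x3 h u8 u2
    have u10 : q.pi x0 x2 := Classical.byContradiction fun h => q.xispi x0 x2 u9 h
    have u11 : q.p x0 x2 := Classical.byContradiction fun h => q.xPm x0 x3 x2 u1 u6 u10 u4 h
    have u12 : q.p x1 x2 := Classical.byContradiction fun h => c100294 h u11
    have u13 : q.s x1 x2 := Classical.byContradiction fun h => q.xips x1 x2 u12 h
    have u14 : q.m x2 x1 := Classical.byContradiction fun h => c100330 h u4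
    have u15 : q.pi x2 x1 := Classical.byContradiction fun h => c100331 h u4
    have u16 : q.s x2 x1 := Classical.byContradiction fun h => q.xnfs x2 x1 h u14 u15 u13
    have u17 : ¬ (q.p x1 x3) := fun h => c100317 h u14 u15 u8 u7
    have u18 : q.s x2 x2 := Classical.byContradiction fun h => q.xts x2 x1 x2 u16 u13 h
    have u19 : ¬ (q.s x1 x3) := fun h => q.xts x2 x1 x3 u16 h u8
    have u20 : ¬ (q.B x1 x3) := fun h => q.xiBp x1 x3 h u17
    have u21 : q.s x3 x2 := Classical.byContradiction fun h => q.xos x2 x3 x2 u8 h u18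
    have u22 : ¬ (q.s x1 x0) := fun h => c100313 h u19
    have u23 : q.m x3 x2 := Classical.byContradiction fun h => q.xism x3 x2 u21 h
    have u24 : ¬ (q.s x2 x0) := fun h => q.xts x1 x2 x0 u13 h u22
    have u25 : q.m x3 x1 := Classical.byContradiction fun h => q.xtm x3 x2 x1 u23 u14 h
    have u26 : ¬ (q.p x2 x0) := fun h => q.xips x2 x0 h u24
    have u27 : q.m x0 x1 := Classical.byContradiction fun h => q.xtm x0 x3 x1 u1 u25 h
    have u28 : ¬ (q.be x3 x1) := fun h => c163 a1 h u25
    have u29 : ¬ (q.B x2 x0) := fun h => q.xiBp x2 x0 h u26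
    have u30 : ¬ (q.B x1 x0) := fun h => c100310 u27 h
    have u31 : ¬ (q.B x2 x1) := fun h => q.xoB x2 x0 x1 u29 u0 h
    have u32 : ¬ (q.B x2 x3) := fun h => q.xoB x2 x1 x3 u31 u20 h
    have u33 : ¬ (q.al x3 x2) := fun h => c100333 h u28 u4 a0
    have u34 : ¬ (q.A x3 x2) := fun h => q.xiAal x3 x2 h u33
    have u35 : q.B x3 x2 := Classical.byContradiction fun h => q.xnjm x3 x2 u23 u34 h u6
    have u36 : q.B x0 x2 := Classical.byContradiction fun h => c100334 h u35 u32
    have u37 : x2 = x0 := Classical.byContradiction fun h => c100297 u0 h u36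
    exact c100315 u36 u30 u37
  have c100336 : q.B x0 x2 → ¬ (q.s x3 x2) → False := by
    intro a0 a1
    have u0 : ¬ (q.B x0 x1) := fun h => c100304 h
    have u1 : q.be x0 x3 := Classical.byContradiction fun h => c100306 h
    have u2 : x2 = x0 := Classical.byContradiction fun h => c100297 u0 h a0
    have u3 : q.B x0 x0 := Classical.byContradiction fun h => eqR q.B (i := x2) (j := x0) x0 u2
        a0 h
    have u4 : q.B x2 x0 := Classical.byContradiction fun h => eqL' q.B (i := x2) (j := x0) x0 u2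
        h u3
    have u5 : q.be x2 x0 := Classical.byContradiction fun h => q.xiBbe x2 x0 u4 h
    have u6 : q.p x2 x0 := Classical.byContradiction fun h => q.xiBp x2 x0 u4 h
    have u7 : q.be x2 x3 := Classical.byContradiction fun h => q.xtbe x2 x0 x3 u5 u1 h
    have u8 : q.s x2 x0 := Classical.byContradiction fun h => q.xips x2 x0 u6 h
    have u9 : ¬ (q.m x2 x3) := fun h => c100314 h u7
    have u10 : q.s x2 x2 := Classical.byContradiction fun h => eqR' q.s (i := x2) (j := x0) x2 u2
        h u8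
    have u11 : ¬ (q.s x2 x3) := fun h => q.xism x2 x3 h u9
    exact q.xos x2 x3 x2 u11 a1 u10
  have c100337 : ¬ (q.m x2 x3) → ¬ (q.A x3 x2) → ¬ (q.B x3 x2) → ¬ (q.s x3 x2) → False := by
    intro a0 a1 a2 a3
    have u0 : q.s x0 x3 := Classical.byContradiction fun h => c100307 h
    have u1 : q.m x0 x3 := Classical.byContradiction fun h => c100308 h
    have u2 : ¬ (q.s x2 x3) := fun h => q.xism x2 x3 h a0
    have u3 : ¬ (q.m x3 x2) := fun h => q.xnjm x3 x2 h a1 a2 a0
    have u4 : q.s x0 x2 := Classical.byContradiction fun h => q.xos x0 x2 x3 h u2 u0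
    have u5 : ¬ (q.s x2 x2) := fun h => q.xos x2 x3 x2 u2 a3 h
    have u6 : q.pi x0 x2 := Classical.byContradiction fun h => q.xispi x0 x2 u4 h
    have u7 : ¬ (q.be x0 x2) := fun h => c100321 u4 u3 h
    have u8 : q.p x0 x2 := Classical.byContradiction fun h => q.xPm x0 x3 x2 u1 a0 u6 u7 h
    have u9 : q.m x2 x1 := Classical.byContradiction fun h => c100330 h u7
    have u10 : q.pi x2 x1 := Classical.byContradiction fun h => c100331 h u7
    have u11 : q.p x1 x2 := Classical.byContradiction fun h => c100294 h u8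
    have u12 : q.s x1 x2 := Classical.byContradiction fun h => q.xips x1 x2 u11 h
    have u13 : ¬ (q.s x2 x1) := fun h => q.xts x2 x1 x2 h u12 u5
    exact q.xnfs x2 x1 u13 u9 u10 u12
  have c100338 : q.p x2 x0 → ¬ (q.s x0 x2) → q.C x0 x2 → q.pi x0 x2 → False := by
    intro a0 a1 a2 a3
    have u0 : q.m x2 x0 := Classical.byContradiction fun h => q.xipm x2 x0 a0 h
    have u1 : q.s x2 x0 := Classical.byContradiction fun h => q.xips x2 x0 a0 h
    exact c100325 u1 u0 a2 a1 a3
  have c100339 : ¬ (q.be x2 x1) → ¬ (q.p x2 x1) → ¬ (q.s x1 x2) → q.s x2 x1 → False := by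
    intro a0 a1 a2 a3
    have u0 : q.pi x2 x1 := Classical.byContradiction fun h => q.xispi x2 x1 a3 h
    have u1 : ¬ (q.C x2 x1) := fun h => q.xiCbe x2 x1 h a0
    have u2 : q.m x1 x2 := Classical.byContradiction fun h => c100327 a0 h a1 a3
    have u3 : q.pi x1 x2 := Classical.byContradiction fun h => q.xnjpi x2 x1 u0 a1 u1 h
    exact q.xnfs x1 x2 a2 u2 u3 a3
  have c100340 : q.m x2 x3 → ¬ (q.B x3 x2) → ¬ (q.B x1 x3) → (¬ q.be x3 x1 ∨ ¬ q.m x3 x1) → False
      := by
    intro a0 a1 a2 a3
    have u0 : q.be x0 x3 := Classical.byContradiction fun h => c100306 h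
    have u1 : q.s x0 x3 := Classical.byContradiction fun h => c100307 h
    have u2 : ¬ (q.p x0 x1) := fun h => c288 h
    have u3 : ¬ (q.B x0 x1) := fun h => c100304 h
    have u4 : ¬ (q.pi x3 x2) := fun h => c100335 h a3
    have u5 : ¬ (q.s x3 x2) := fun h => q.xispi x3 x2 h u4
    have u6 : ¬ (q.B x0 x2) := fun h => c100336 h u5
    have u7 : ¬ (q.be x2 x3) := fun h => c100314 a0 h
    have u8 : q.be x0 x2 := Classical.byContradiction fun h => q.xobe x0 x2 x3 h u7 u0
    have u9 : ¬ (q.be x2 x0) := fun h => q.xtbe x2 x0 x3 h u0 u7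
    have u10 : q.pi x0 x2 := Classical.byContradiction fun h => q.xibepi x0 x2 u8 h
    have u11 : ¬ (q.B x2 x0) := fun h => q.xiBbe x2 x0 h u9
    have u12 : ¬ (x2 = x0) := fun h => c100322 h u9 u8
    have u13 : q.C x0 x2 := Classical.byContradiction fun h => q.xnjbe x0 x2 u8 u6 h u9
    have u14 : (¬ q.be x0 x2 ∨ ¬ q.s x0 x2) := Classical.byContradiction fun h => c100300 u3 u12 h
    have u15 : ¬ (q.s x0 x2) := fun h => c92 u14 u8 h
    have u16 : q.s x2 x3 := Classical.byContradiction fun h => q.xos x0 x2 x3 u15 h u1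
    have u17 : q.s x2 x1 := Classical.byContradiction fun h => c100302 u15 h
    have u18 : ¬ (q.s x1 x2) := fun h => c100309 h u15
    have u19 : q.pi x2 x3 := Classical.byContradiction fun h => q.xispi x2 x3 u16 h
    have u20 : q.m x2 x1 := Classical.byContradiction fun h => q.xism x2 x1 u17 h
    have u21 : ¬ (q.p x2 x0) := fun h => c100338 h u15 u13 u10
    have u22 : ¬ (q.p x2 x1) := fun h => q.xop x2 x0 x1 u21 u2 h
    have u23 : q.be x2 x1 := Classical.byContradiction fun h => c100339 h u22 u18 u17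
    have u24 : ¬ (q.be x1 x3) := fun h => q.xtbe x2 x1 x3 u23 h u7
    have u25 : q.be x3 x1 := Classical.byContradiction fun h => q.xobe x2 x3 x1 u7 h u23
    have u26 : ¬ (q.m x3 x1) := fun h => c163 a3 u25 h
    have u27 : ¬ (q.m x3 x2) := fun h => q.xtm x3 x2 x1 h u20 u26
    have u28 : q.p x2 x3 := Classical.byContradiction fun h => c100324 h a0 u19 u27
    have u29 : q.p x0 x3 := Classical.byContradiction fun h => q.xop x2 x0 x3 u21 h u28
    have u30 : ¬ (q.B x2 x1) := fun h => q.xoB x2 x0 x1 u11 u3 h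
    have u31 : q.p x1 x3 := Classical.byContradiction fun h => c100312 h u29
    have u32 : ¬ (q.B x3 x1) := fun h => q.xoB x3 x2 x1 a1 u30 h
    exact c100326 u24 u32 a2 u26 u25 u31
  have c100342 : q.be x0 x2 → ¬ (q.B x2 x3) → ¬ (q.B x1 x3) → (¬ q.be x3 x1 ∨ ¬ q.m x3 x1) →
      False := by
    intro a0 a1 a2 a3
    have u0 : ¬ (q.B x0 x1) := fun h => c100304 h
    have u1 : q.m x0 x3 := Classical.byContradiction fun h => c100308 h
    have u2 : q.s x0 x3 := Classical.byContradiction fun h => c100307 h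
    have u3 : q.be x0 x3 := Classical.byContradiction fun h => c100306 h
    have u4 : ¬ (q.pi x3 x2) := fun h => c100335 h a3
    have u5 : ¬ (q.s x3 x2) := fun h => q.xispi x3 x2 h u4
    have u6 : ¬ (q.B x0 x2) := fun h => c100336 h u5
    have u7 : ¬ (q.B x3 x2) := fun h => c100334 u6 h a1
    have u8 : ¬ (q.m x2 x3) := fun h => c100340 h u7 a2 a3
    have u9 : ¬ (q.s x2 x3) := fun h => q.xism x2 x3 h u8
    have u10 : q.s x0 x2 := Classical.byContradiction fun h => q.xos x0 x2 x3 h u9 u2
    have u11 : q.A x3 x2 := Classical.byContradiction fun h => c100337 u8 h u7 u5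
    have u12 : ¬ (q.A x2 x3) := fun h => q.xiAm x2 x3 h u8
    have u13 : ¬ (q.p x2 x3) := fun h => q.xipm x2 x3 h u8
    have u14 : ¬ ((¬ q.be x0 x2 ∨ ¬ q.s x0 x2)) := fun h => c92 h a0 u10
    have u15 : x2 = x0 := Classical.byContradiction fun h => c100300 u0 h u14
    have u16 : q.C x2 x1 := Classical.byContradiction fun h => c100301 u15 h
    have u17 : q.A x3 x0 := Classical.byContradiction fun h => eqR q.A (i := x2) (j := x0) x3 u15
        u11 h
    have u18 : ¬ (q.A x0 x3) := fun h => eqL' q.A (i := x2) (j := x0) x3 u15 u12 h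
    have u19 : q.s x0 x0 := Classical.byContradiction fun h => eqR q.s (i := x2) (j := x0) x0 u15
        u10 h
    have u20 : q.be x2 x0 := Classical.byContradiction fun h => c100322 u15 h a0
    have u21 : ¬ (q.al x0 x3) := fun h => q.xnfA x0 x3 u18 h u1 u17
    have u22 : q.pi x0 x0 := Classical.byContradiction fun h => q.xispi x0 x0 u19 h
    have u23 : q.m x0 x0 := Classical.byContradiction fun h => q.xism x0 x0 u19 h
    have u24 : q.be x2 x3 := Classical.byContradiction fun h => q.xtbe x2 x0 x3 u20 u3 h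
    have u25 : ¬ (q.al x2 x3) := fun h => eqL q.al (i := x2) (j := x0) x3 u15 h u21
    have u26 : q.pi x2 x0 := Classical.byContradiction fun h => eqL' q.pi (i := x2) (j := x0) x0
        u15 h u22
    have u27 : q.m x2 x0 := Classical.byContradiction fun h => c100316 h u23 u15
    have u28 : ¬ (q.C x2 x3) := fun h => q.xiCal x2 x3 h u25
    have u29 : q.m x3 x0 := Classical.byContradiction fun h => q.xom x2 x3 x0 u8 h u27
    have u30 : q.be x3 x2 := Classical.byContradiction fun h => q.xnjbe x2 x3 u24 a1 u28 h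
    have u31 : ¬ (q.pi x2 x3) := fun h => q.xnjpi x2 x3 h u13 u28 u4
    have u32 : ¬ (q.C x1 x3) := fun h => q.xtC x2 x1 x3 u16 h u28
    have u33 : q.be x3 x0 := Classical.byContradiction fun h => q.xtbe x3 x2 x0 u30 u20 h
    have u34 : q.pi x3 x0 := Classical.byContradiction fun h => q.xopi x2 x3 x0 u31 h u26
    have u35 : q.s x3 x0 := Classical.byContradiction fun h => q.xnfs x3 x0 h u29 u34 u2
    have u36 : q.s x3 x1 := Classical.byContradiction fun h => c100292 u35 h
    have u37 : q.m x3 x1 := Classical.byContradiction fun h => q.xism x3 x1 u36 h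
    have u38 : ¬ (q.be x3 x1) := fun h => c163 a3 h u37
    have u39 : ¬ (q.be x1 x3) := fun h => q.xnjbe x1 x3 h a2 u32 u38
    have u40 : q.be x1 x0 := Classical.byContradiction fun h => q.xobe x3 x1 x0 u38 h u33
    exact q.xtbe x1 x0 x3 u40 u3 u39
  have c100343 : ¬ (q.B x2 x3) → ¬ (q.B x1 x3) → (¬ q.be x3 x1 ∨ ¬ q.m x3 x1) → False := by
    intro a0 a1 a2
    have u0 : q.s x0 x3 := Classical.byContradiction fun h => c100307 h
    have u1 : q.m x0 x3 := Classical.byContradiction fun h => c100308 h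
    have u2 : ¬ (q.pi x3 x2) := fun h => c100335 h a2
    have u3 : ¬ (q.s x3 x2) := fun h => q.xispi x3 x2 h u2
    have u4 : ¬ (q.B x0 x2) := fun h => c100336 h u3
    have u5 : ¬ (q.B x3 x2) := fun h => c100334 u4 h a0
    have u6 : ¬ (q.m x2 x3) := fun h => c100340 h u5 a1 a2
    have u7 : ¬ (q.s x2 x3) := fun h => q.xism x2 x3 h u6
    have u8 : q.s x0 x2 := Classical.byContradiction fun h => q.xos x0 x2 x3 h u7 u0
    have u9 : ¬ (q.s x2 x2) := fun h => q.xos x2 x3 x2 u7 u3 h
    have u10 : q.pi x0 x2 := Classical.byContradiction fun h => q.xispi x0 x2 u8 h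
    have u11 : ¬ (q.be x0 x2) := fun h => c100342 h a0 a1 a2
    have u12 : q.m x2 x1 := Classical.byContradiction fun h => c100330 h u11
    have u13 : q.pi x2 x1 := Classical.byContradiction fun h => c100331 h u11
    have u14 : q.p x0 x2 := Classical.byContradiction fun h => q.xPm x0 x3 x2 u1 u6 u10 u11 h
    have u15 : q.p x1 x2 := Classical.byContradiction fun h => c100294 h u14
    have u16 : q.s x1 x2 := Classical.byContradiction fun h => q.xips x1 x2 u15 h
    have u17 : ¬ (q.s x2 x1) := fun h => q.xts x2 x1 x2 h u16 u9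
    exact q.xnfs x2 x1 u17 u12 u13 u16
  have c100344 : q.B x2 x1 → ¬ (q.s x3 x2) → False := by
    intro a0 a1
    have u0 : q.be x0 x3 := Classical.byContradiction fun h => c100306 h
    have u1 : q.s x0 x3 := Classical.byContradiction fun h => c100307 h
    have u2 : ¬ (q.B x0 x1) := fun h => c100304 h
    have u3 : q.m x0 x3 := Classical.byContradiction fun h => c100308 h
    have u4 : q.m x2 x1 := Classical.byContradiction fun h => q.xiBm x2 x1 a0 h
    have u5 : q.B x2 x0 := Classical.byContradiction fun h => q.xoB x2 x0 x1 h u2 a0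
    have u6 : q.be x2 x0 := Classical.byContradiction fun h => q.xiBbe x2 x0 u5 h
    have u7 : q.p x2 x0 := Classical.byContradiction fun h => q.xiBp x2 x0 u5 h
    have u8 : q.be x2 x3 := Classical.byContradiction fun h => q.xtbe x2 x0 x3 u6 u0 h
    have u9 : q.s x2 x0 := Classical.byContradiction fun h => q.xips x2 x0 u7 h
    have u10 : ¬ (q.m x2 x3) := fun h => c100314 h u8
    have u11 : q.pi x2 x0 := Classical.byContradiction fun h => q.xispi x2 x0 u9 h
    have u12 : ¬ (q.s x2 x3) := fun h => q.xism x2 x3 h u10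
    have u13 : q.pi x2 x1 := Classical.byContradiction fun h => c100298 u11 h
    have u14 : q.s x0 x2 := Classical.byContradiction fun h => q.xos x0 x2 x3 h u12 u1
    have u15 : ¬ (q.s x2 x2) := fun h => q.xos x2 x3 x2 u12 a1 h
    have u16 : q.pi x0 x2 := Classical.byContradiction fun h => q.xispi x0 x2 u14 h
    have u17 : ¬ (x2 = x0) := fun h => eqR' q.s (i := x2) (j := x0) x2 h u15 u9
    have u18 : (¬ q.be x0 x2 ∨ ¬ q.s x0 x2) := Classical.byContradiction fun h => c100300 u2 u17 h
    have u19 : ¬ (q.be x0 x2) := fun h => c92 u18 h u14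
    have u20 : q.p x0 x2 := Classical.byContradiction fun h => q.xPm x0 x3 x2 u3 u10 u16 u19 h
    have u21 : q.p x1 x2 := Classical.byContradiction fun h => c100294 h u20
    have u22 : q.s x1 x2 := Classical.byContradiction fun h => q.xips x1 x2 u21 h
    have u23 : ¬ (q.s x2 x1) := fun h => q.xts x2 x1 x2 h u22 u15
    exact q.xnfs x2 x1 u23 u4 u13 u22
  have c100345 : ¬ (q.B x1 x3) → (¬ q.be x3 x1 ∨ ¬ q.m x3 x1) → False := by
    intro a0 a1
    have u0 : ¬ (q.pi x3 x2) := fun h => c100335 h a1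
    have u1 : ¬ (q.s x3 x2) := fun h => q.xispi x3 x2 h u0
    have u2 : ¬ (q.B x2 x1) := fun h => c100344 h u1
    have u3 : q.B x2 x3 := Classical.byContradiction fun h => c100343 h a0 a1
    exact q.xoB x2 x1 x3 u2 a0 u3
  have c100346 : ¬ (q.be x0 x2) → q.p x1 x3 → False := by
    intro a0 a1
    have u0 : q.be x0 x3 := Classical.byContradiction fun h => c100306 h
    have u1 : q.be x2 x3 := Classical.byContradiction fun h => q.xobe x0 x2 x3 a0 h u0
    have u2 : q.m x2 x1 := Classical.byContradiction fun h => c100330 h a0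
    have u3 : q.pi x2 x1 := Classical.byContradiction fun h => c100331 h a0
    have u4 : ¬ (q.m x2 x3) := fun h => c100314 h u1
    have u5 : ¬ (q.p x2 x3) := fun h => q.xipm x2 x3 h u4
    have u6 : ¬ (q.s x2 x3) := fun h => q.xism x2 x3 h u4
    exact c100317 a1 u2 u3 u6 u5
  have c100347 : q.s x0 x2 → (¬ q.be x3 x1 ∨ ¬ q.m x3 x1) → False := by
    intro a0 a1
    have u0 : ¬ (q.B x0 x1) := fun h => c100304 h
    have u1 : q.be x0 x3 := Classical.byContradiction fun h => c100306 h
    have u2 : q.s x0 x3 := Classical.byContradiction fun h => c100307 h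
    have u3 : q.m x0 x3 := Classical.byContradiction fun h => c100308 h
    have u4 : q.B x1 x3 := Classical.byContradiction fun h => c100345 h a1
    have u5 : q.p x1 x3 := Classical.byContradiction fun h => q.xiBp x1 x3 u4 h
    have u6 : q.be x0 x2 := Classical.byContradiction fun h => c100346 h u5
    have u7 : ¬ (q.pi x3 x2) := fun h => c100335 h a1
    have u8 : ¬ (q.s x3 x2) := fun h => q.xispi x3 x2 h u7
    have u9 : ¬ (q.B x0 x2) := fun h => c100336 h u8
    have u10 : ¬ ((¬ q.be x0 x2 ∨ ¬ q.s x0 x2)) := fun h => c92 h u6 a0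
    have u11 : x2 = x0 := Classical.byContradiction fun h => c100300 u0 h u10
    have u12 : q.C x2 x1 := Classical.byContradiction fun h => c100301 u11 h
    have u13 : ¬ (q.B x2 x2) := fun h => eqL q.B (i := x2) (j := x0) x2 u11 h u9
    have u14 : q.s x0 x0 := Classical.byContradiction fun h => eqR q.s (i := x2) (j := x0) x0 u11
        a0 h
    have u15 : q.be x2 x0 := Classical.byContradiction fun h => c100322 u11 h u6
    have u16 : q.pi x2 x1 := Classical.byContradiction fun h => q.xiCpi x2 x1 u12 h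
    have u17 : q.pi x0 x0 := Classical.byContradiction fun h => q.xispi x0 x0 u14 h
    have u18 : q.m x0 x0 := Classical.byContradiction fun h => q.xism x0 x0 u14 h
    have u19 : q.be x2 x3 := Classical.byContradiction fun h => q.xtbe x2 x0 x3 u15 u1 h
    have u20 : q.pi x2 x0 := Classical.byContradiction fun h => eqL' q.pi (i := x2) (j := x0) x0
        u11 h u17
    have u21 : q.m x2 x0 := Classical.byContradiction fun h => c100316 h u18 u11
    have u22 : ¬ (q.m x2 x3) := fun h => c100314 h u19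
    have u23 : q.m x3 x0 := Classical.byContradiction fun h => q.xom x2 x3 x0 u22 h u21
    have u24 : ¬ (q.p x2 x3) := fun h => q.xipm x2 x3 h u22
    have u25 : ¬ (q.A x2 x3) := fun h => q.xiAm x2 x3 h u22
    have u26 : ¬ (q.s x2 x3) := fun h => q.xism x2 x3 h u22
    have u27 : ¬ (q.A x0 x3) := fun h => eqL' q.A (i := x2) (j := x0) x3 u11 u25 h
    have u28 : ¬ (q.m x2 x1) := fun h => c100317 u5 h u16 u26 u24
    have u29 : ¬ (q.m x0 x1) := fun h => q.xtm x2 x0 x1 u21 h u28
    have u30 : ¬ (q.m x3 x1) := fun h => q.xtm x0 x3 x1 u3 h u29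
    have u31 : ¬ (q.s x3 x1) := fun h => q.xism x3 x1 h u30
    have u32 : ¬ (q.s x3 x0) := fun h => c100292 h u31
    have u33 : ¬ (q.pi x3 x0) := fun h => q.xnfs x3 x0 u32 u23 h u2
    have u34 : q.pi x2 x3 := Classical.byContradiction fun h => q.xopi x2 x3 x0 h u33 u20
    have u35 : q.C x2 x3 := Classical.byContradiction fun h => q.xnjpi x2 x3 u34 u24 h u7
    have u36 : q.al x2 x3 := Classical.byContradiction fun h => q.xiCal x2 x3 u35 h
    have u37 : q.al x0 x3 := Classical.byContradiction fun h => eqL q.al (i := x2) (j := x0) x3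
        u11 u36 h
    have u38 : ¬ (q.A x3 x0) := fun h => q.xnfA x0 x3 u27 u37 u3 h
    have u39 : ¬ (q.A x3 x2) := fun h => eqR q.A (i := x2) (j := x0) x3 u11 h u38
    have u40 : q.B x3 x2 := Classical.byContradiction fun h => c100337 u22 u39 h u8
    have u41 : ¬ (q.B x2 x3) := fun h => q.xtB x2 x3 x2 h u40 u13
    exact c100334 u9 u40 u41
  have c100348 : (¬ q.be x3 x1 ∨ ¬ q.m x3 x1) → False := by
    intro a0
    have u0 : q.s x0 x3 := Classical.byContradiction fun h => c100307 h
    have u1 : q.be x0 x3 := Classical.byContradiction fun h => c100306 h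
    have u2 : ¬ (q.p x0 x1) := fun h => c288 h
    have u3 : ¬ (q.pi x3 x2) := fun h => c100335 h a0
    have u4 : ¬ (q.s x3 x2) := fun h => q.xispi x3 x2 h u3
    have u5 : ¬ (q.B x0 x2) := fun h => c100336 h u4
    have u6 : q.B x1 x3 := Classical.byContradiction fun h => c100345 h a0
    have u7 : q.be x1 x3 := Classical.byContradiction fun h => q.xiBbe x1 x3 u6 h
    have u8 : q.p x1 x3 := Classical.byContradiction fun h => q.xiBp x1 x3 u6 h
    have u9 : q.be x0 x2 := Classical.byContradiction fun h => c100346 h u8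
    have u10 : ¬ (q.s x0 x2) := fun h => c100347 h a0
    have u11 : q.pi x0 x2 := Classical.byContradiction fun h => q.xibepi x0 x2 u9 h
    have u12 : q.s x2 x3 := Classical.byContradiction fun h => q.xos x0 x2 x3 u10 h u0
    have u13 : q.s x2 x1 := Classical.byContradiction fun h => c100302 u10 h
    have u14 : ¬ (q.s x1 x2) := fun h => c100309 h u10
    have u15 : q.m x2 x3 := Classical.byContradiction fun h => q.xism x2 x3 u12 h
    have u16 : ¬ (q.be x2 x3) := fun h => c100314 u15 h
    have u17 : ¬ (q.be x2 x0) := fun h => q.xtbe x2 x0 x3 h u1 u16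
    have u18 : ¬ (q.be x2 x1) := fun h => q.xtbe x2 x1 x3 h u7 u16
    have u19 : q.C x0 x2 := Classical.byContradiction fun h => q.xnjbe x0 x2 u9 u5 h u17
    have u20 : q.p x2 x1 := Classical.byContradiction fun h => c100339 u18 h u14 u13
    have u21 : ¬ (q.p x2 x0) := fun h => c100338 h u10 u19 u11
    exact q.xop x2 x0 x1 u21 u2 u20
  have c100349 : ¬ (q.be x2 x3) → q.be x0 x2 → q.B x3 x1 → False := by
    intro a0 a1 a2
    have u0 : q.be x0 x3 := Classical.byContradiction fun h => c100306 h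
    have u1 : ¬ (q.B x0 x1) := fun h => c100304 h
    have u2 : ¬ (q.p x0 x1) := fun h => c288 h
    have u3 : q.pi x0 x2 := Classical.byContradiction fun h => q.xibepi x0 x2 a1 h
    have u4 : ¬ (q.be x2 x0) := fun h => q.xtbe x2 x0 x3 h u0 a0
    have u5 : ¬ (q.B x2 x0) := fun h => q.xiBbe x2 x0 h u4
    have u6 : ¬ (x2 = x0) := fun h => c100322 h u4 a1
    have u7 : ¬ (q.B x2 x1) := fun h => q.xoB x2 x0 x1 u5 u1 h
    have u8 : ¬ (q.B x0 x2) := fun h => c100297 u1 u6 h
    have u9 : (¬ q.be x0 x2 ∨ ¬ q.s x0 x2) := Classical.byContradiction fun h => c100300 u1 u6 h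
    have u10 : q.B x3 x2 := Classical.byContradiction fun h => q.xoB x3 x2 x1 h u7 a2
    have u11 : q.C x0 x2 := Classical.byContradiction fun h => q.xnjbe x0 x2 a1 u8 h u4
    have u12 : ¬ (q.s x0 x2) := fun h => c92 u9 a1 h
    have u13 : q.B x2 x3 := Classical.byContradiction fun h => c100334 u8 u10 h
    have u14 : ¬ (q.p x2 x0) := fun h => c100338 h u12 u11 u3
    have u15 : q.s x2 x1 := Classical.byContradiction fun h => c100302 u12 h
    have u16 : ¬ (q.s x1 x2) := fun h => c100309 h u12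
    have u17 : q.B x1 x3 := Classical.byContradiction fun h => q.xoB x2 x1 x3 u7 h u13
    have u18 : ¬ (q.p x2 x1) := fun h => q.xop x2 x0 x1 u14 u2 h
    have u19 : q.be x1 x3 := Classical.byContradiction fun h => q.xiBbe x1 x3 u17 h
    have u20 : q.be x2 x1 := Classical.byContradiction fun h => c100339 h u18 u16 u15
    exact q.xtbe x2 x1 x3 u20 u19 a0
  have c100350 : q.p x1 x3 → q.B x3 x1 → False := by
    intro a0 a1
    have u0 : ¬ (q.B x0 x1) := fun h => c100304 h
    have u1 : q.m x0 x3 := Classical.byContradiction fun h => c100308 h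
    have u2 : q.s x0 x3 := Classical.byContradiction fun h => c100307 h
    have u3 : q.be x0 x2 := Classical.byContradiction fun h => c100346 h a0
    have u4 : q.be x2 x3 := Classical.byContradiction fun h => c100349 h u3 a1
    have u5 : ¬ (q.m x2 x3) := fun h => c100314 h u4
    have u6 : ¬ (q.p x2 x3) := fun h => q.xipm x2 x3 h u5
    have u7 : ¬ (q.s x2 x3) := fun h => q.xism x2 x3 h u5
    have u8 : q.s x0 x2 := Classical.byContradiction fun h => q.xos x0 x2 x3 h u7 u2
    have u9 : ¬ ((¬ q.be x0 x2 ∨ ¬ q.s x0 x2)) := fun h => c92 h u3 u8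
    have u10 : x2 = x0 := Classical.byContradiction fun h => c100300 u0 h u9
    have u11 : q.C x2 x1 := Classical.byContradiction fun h => c100301 u10 h
    have u12 : q.s x0 x0 := Classical.byContradiction fun h => eqR q.s (i := x2) (j := x0) x0 u10
        u8 h
    have u13 : q.pi x2 x1 := Classical.byContradiction fun h => q.xiCpi x2 x1 u11 h
    have u14 : q.m x0 x0 := Classical.byContradiction fun h => q.xism x0 x0 u12 h
    have u15 : ¬ (q.m x2 x1) := fun h => c100317 a0 h u13 u7 u6
    have u16 : q.m x2 x0 := Classical.byContradiction fun h => c100316 h u14 u10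
    have u17 : ¬ (q.B x2 x1) := fun h => q.xiBm x2 x1 h u15
    have u18 : ¬ (q.m x0 x1) := fun h => q.xtm x2 x0 x1 u16 h u15
    have u19 : q.m x3 x0 := Classical.byContradiction fun h => q.xom x2 x3 x0 u5 h u16
    have u20 : q.B x3 x2 := Classical.byContradiction fun h => q.xoB x3 x2 x1 h u17 a1
    have u21 : ¬ (q.m x3 x1) := fun h => q.xtm x0 x3 x1 u1 h u18
    have u22 : ¬ (q.s x3 x1) := fun h => q.xism x3 x1 h u21
    have u23 : ¬ (q.s x3 x0) := fun h => c100292 h u22
    have u24 : ¬ (q.pi x3 x0) := fun h => q.xnfs x3 x0 u23 u19 h u2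
    have u25 : ¬ (q.pi x3 x2) := fun h => eqR q.pi (i := x2) (j := x0) x3 u10 h u24
    have u26 : ¬ (q.s x3 x2) := fun h => q.xispi x3 x2 h u25
    have u27 : ¬ (q.B x0 x2) := fun h => c100336 h u26
    have u28 : ¬ (q.B x2 x2) := fun h => eqL q.B (i := x2) (j := x0) x2 u10 h u27
    have u29 : q.B x2 x3 := Classical.byContradiction fun h => c100334 u27 u20 h
    exact q.xtB x2 x3 x2 u29 u20 u28
  have c100351 : q.B x2 x1 → x2 = x0 → False := by
    intro a0 a1
    have u0 : ¬ (q.B x0 x1) := fun h => c100304 h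
    have u1 : ¬ (q.B x0 x2) := fun h => q.xtB x0 x2 x1 h a0 u0
    have u2 : q.B x2 x0 := Classical.byContradiction fun h => q.xoB x2 x0 x1 h u0 a0
    have u3 : ¬ (q.B x2 x2) := fun h => eqL q.B (i := x2) (j := x0) x2 a1 h u1
    exact eqR' q.B (i := x2) (j := x0) x2 a1 u3 u2
  have c100352 : q.be x0 x2 → q.B x3 x1 → False := by
    intro a0 a1
    have u0 : ¬ (q.B x0 x1) := fun h => c100304 h
    have u1 : q.m x0 x3 := Classical.byContradiction fun h => c100308 h
    have u2 : q.s x0 x3 := Classical.byContradiction fun h => c100307 h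
    have u3 : ¬ (q.p x1 x3) := fun h => c100350 h a1
    have u4 : ¬ (q.B x1 x3) := fun h => q.xiBp x1 x3 h u3
    have u5 : q.be x2 x3 := Classical.byContradiction fun h => c100349 h a0 a1
    have u6 : ¬ (q.m x2 x3) := fun h => c100314 h u5
    have u7 : ¬ (q.s x2 x3) := fun h => q.xism x2 x3 h u6
    have u8 : q.s x0 x2 := Classical.byContradiction fun h => q.xos x0 x2 x3 h u7 u2
    have u9 : ¬ ((¬ q.be x0 x2 ∨ ¬ q.s x0 x2)) := fun h => c92 h a0 u8
    have u10 : x2 = x0 := Classical.byContradiction fun h => c100300 u0 h u9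
    have u11 : q.s x0 x0 := Classical.byContradiction fun h => eqR q.s (i := x2) (j := x0) x0 u10
        u8 h
    have u12 : q.m x0 x0 := Classical.byContradiction fun h => q.xism x0 x0 u11 h
    have u13 : q.m x2 x0 := Classical.byContradiction fun h => c100316 h u12 u10
    have u14 : q.m x3 x0 := Classical.byContradiction fun h => q.xom x2 x3 x0 u6 h u13
    have u15 : ¬ (q.B x2 x1) := fun h => c100351 h u10
    have u16 : q.B x3 x2 := Classical.byContradiction fun h => q.xoB x3 x2 x1 h u15 a1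
    have u17 : ¬ (q.B x2 x3) := fun h => q.xoB x2 x1 x3 u15 u4 h
    have u18 : q.B x0 x2 := Classical.byContradiction fun h => c100334 h u16 u17
    have u19 : q.s x3 x2 := Classical.byContradiction fun h => c100336 u18 h
    have u20 : q.B x1 x0 := Classical.byContradiction fun h => c100315 u18 h u10
    have u21 : q.pi x3 x2 := Classical.byContradiction fun h => q.xispi x3 x2 u19 h
    have u22 : ¬ (q.m x0 x1) := fun h => c100310 h u20
    have u23 : q.pi x3 x0 := Classical.byContradiction fun h => eqR q.pi (i := x2) (j := x0) x3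
        u10 u21 h
    have u24 : ¬ (q.m x3 x1) := fun h => q.xtm x0 x3 x1 u1 h u22
    have u25 : q.s x3 x0 := Classical.byContradiction fun h => q.xnfs x3 x0 h u14 u23 u2
    have u26 : ¬ (q.s x3 x1) := fun h => q.xism x3 x1 h u24
    exact c100292 u25 u26
  have c100353 : q.B x3 x1 → False := by
    intro a0
    have u0 : q.be x0 x3 := Classical.byContradiction fun h => c100306 h
    have u1 : q.s x0 x3 := Classical.byContradiction fun h => c100307 h
    have u2 : q.m x0 x3 := Classical.byContradiction fun h => c100308 h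
    have u3 : ¬ (q.B x0 x1) := fun h => c100304 h
    have u4 : ¬ (q.p x1 x3) := fun h => c100350 h a0
    have u5 : ¬ (q.B x1 x3) := fun h => q.xiBp x1 x3 h u4
    have u6 : ¬ (q.be x0 x2) := fun h => c100352 h a0
    have u7 : q.be x2 x3 := Classical.byContradiction fun h => q.xobe x0 x2 x3 u6 h u0
    have u8 : q.m x2 x1 := Classical.byContradiction fun h => c100330 h u6
    have u9 : q.pi x2 x1 := Classical.byContradiction fun h => c100331 h u6
    have u10 : ¬ (q.m x2 x3) := fun h => c100314 h u7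
    have u11 : ¬ (q.s x2 x3) := fun h => q.xism x2 x3 h u10
    have u12 : q.s x0 x2 := Classical.byContradiction fun h => q.xos x0 x2 x3 h u11 u1
    have u13 : q.pi x0 x2 := Classical.byContradiction fun h => q.xispi x0 x2 u12 h
    have u14 : q.p x0 x2 := Classical.byContradiction fun h => q.xPm x0 x3 x2 u2 u10 u13 u6 h
    have u15 : q.p x1 x2 := Classical.byContradiction fun h => c100294 h u14
    have u16 : q.s x1 x2 := Classical.byContradiction fun h => q.xips x1 x2 u15 h
    have u17 : q.s x2 x1 := Classical.byContradiction fun h => q.xnfs x2 x1 h u8 u9 u16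
    have u18 : q.s x2 x2 := Classical.byContradiction fun h => q.xts x2 x1 x2 u17 u16 h
    have u19 : ¬ (q.s x1 x3) := fun h => q.xts x2 x1 x3 u17 h u11
    have u20 : q.s x3 x2 := Classical.byContradiction fun h => q.xos x2 x3 x2 u11 h u18
    have u21 : ¬ (q.s x1 x0) := fun h => c100313 h u19
    have u22 : q.m x3 x2 := Classical.byContradiction fun h => q.xism x3 x2 u20 h
    have u23 : ¬ (q.s x2 x0) := fun h => q.xts x1 x2 x0 u16 h u21
    have u24 : q.m x3 x1 := Classical.byContradiction fun h => q.xtm x3 x2 x1 u22 u8 h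
    have u25 : ¬ (q.p x2 x0) := fun h => q.xips x2 x0 h u23
    have u26 : q.m x0 x1 := Classical.byContradiction fun h => q.xtm x0 x3 x1 u2 u24 h
    have u27 : ¬ (q.B x2 x0) := fun h => q.xiBp x2 x0 h u25
    have u28 : ¬ (q.B x1 x0) := fun h => c100310 u26 h
    have u29 : ¬ (q.B x2 x1) := fun h => q.xoB x2 x0 x1 u27 u3 h
    have u30 : q.B x3 x2 := Classical.byContradiction fun h => q.xoB x3 x2 x1 h u29 a0
    have u31 : ¬ (q.B x2 x3) := fun h => q.xoB x2 x1 x3 u29 u5 h
    have u32 : q.B x0 x2 := Classical.byContradiction fun h => c100334 h u30 u31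
    have u33 : x2 = x0 := Classical.byContradiction fun h => c100297 u3 h u32
    exact c100315 u32 u28 u33
  have c100354 : q.B x3 x5 → False := by
    intro a0
    have u0 : ¬ (q.B x3 x1) := fun h => c100353 h
    have u1 : ¬ ((¬ q.be x3 x1 ∨ ¬ q.m x3 x1)) := fun h => c100348 h
    exact k1_6 u0 u1 a0
  have c100355 : (¬ q.be x3 x5 ∨ ¬ q.m x3 x5) → False := by
    intro a0
    have u0 : ¬ (q.B x3 x1) := fun h => c100353 h
    have u1 : ¬ ((¬ q.be x3 x1 ∨ ¬ q.m x3 x1)) := fun h => c100348 h
    exact k1_2 u0 u1 a0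
  have c100356 : ¬ (q.be x3 x5) → False := by
    intro a0
    have u0 : ¬ ((¬ q.be x3 x5 ∨ ¬ q.m x3 x5)) := fun h => c100355 h
    exact c113 a0 u0
  have c100357 : ¬ (q.m x3 x5) → False := by
    intro a0
    have u0 : ¬ ((¬ q.be x3 x5 ∨ ¬ q.m x3 x5)) := fun h => c100355 h
    exact c32 a0 u0
  have c100358 : ¬ (q.pi x3 x5) → False := by
    intro a0
    have u0 : q.be x3 x5 := Classical.byContradiction fun h => c100356 h
    exact q.xibepi x3 x5 u0 a0
  have c100359 : ¬ (q.be x0 x5) → False := by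
    intro a0
    have u0 : q.be x3 x5 := Classical.byContradiction fun h => c100356 h
    have u1 : q.be x0 x3 := Classical.byContradiction fun h => c100306 h
    exact q.xtbe x0 x3 x5 u1 u0 a0
  have c100361 : q.m x4 x2 → x2 = x0 → x4 = x3 → False := by
    intro a0 a1 a2
    have u0 : q.be x3 x5 := Classical.byContradiction fun h => c100356 h
    have u1 : ¬ ((¬ q.be x3 x1 ∨ ¬ q.m x3 x1)) := fun h => c100348 h
    have u2 : ¬ (q.B x3 x1) := fun h => c100353 h
    have u3 : q.m x3 x5 := Classical.byContradiction fun h => c100357 h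
    have u4 : q.m x0 x3 := Classical.byContradiction fun h => c100308 h
    have u5 : q.s x0 x3 := Classical.byContradiction fun h => c100307 h
    have u6 : q.be x4 x5 := Classical.byContradiction fun h => eqL' q.be (i := x4) (j := x3) x5
        a2 h u0
    have u7 : ¬ (q.m x4 x5) := fun h => k1_3 u2 u1 h u6
    have u8 : q.m x3 x4 := Classical.byContradiction fun h => q.xom x3 x4 x5 h u7 u3
    have u9 : q.m x0 x4 := Classical.byContradiction fun h => q.xtm x0 x3 x4 u4 u8 h
    have u10 : ¬ (q.m x4 x3) := fun h => q.xtm x4 x3 x5 h u3 u7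
    have u11 : ¬ (q.m x4 x4) := fun h => eqR q.m (i := x4) (j := x3) x4 a2 h u10
    have u12 : ¬ (q.m x4 x0) := fun h => q.xtm x4 x0 x4 h u9 u11
    have u13 : ¬ (q.m x2 x3) := fun h => q.xtm x4 x2 x3 a0 h u10
    have u14 : ¬ (q.m x2 x0) := fun h => q.xtm x4 x2 x0 a0 h u12
    have u15 : ¬ (q.s x2 x3) := fun h => q.xism x2 x3 h u13
    have u16 : ¬ (q.m x0 x0) := fun h => c100316 u14 h a1
    have u17 : q.s x0 x2 := Classical.byContradiction fun h => q.xos x0 x2 x3 h u15 u5
    have u18 : ¬ (q.s x0 x0) := fun h => q.xism x0 x0 h u16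
    exact eqR q.s (i := x2) (j := x0) x0 a1 u17 u18
  have c100362 : ¬ (q.be x2 x3) → x2 = x0 → False := by
    intro a0 a1
    have u0 : q.be x0 x3 := Classical.byContradiction fun h => c100306 h
    have u1 : q.be x0 x2 := Classical.byContradiction fun h => q.xobe x0 x2 x3 h a0 u0
    have u2 : ¬ (q.be x2 x0) := fun h => q.xtbe x2 x0 x3 h u0 a0
    exact c100322 a1 u2 u1
  have c100363 : ¬ (q.m x3 x2) → x2 = x0 → False := by
    intro a0 a1
    have u0 : q.s x0 x3 := Classical.byContradiction fun h => c100307 h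
    have u1 : ¬ (q.m x3 x0) := fun h => eqR' q.m (i := x2) (j := x0) x3 a1 a0 h
    have u2 : q.be x2 x3 := Classical.byContradiction fun h => c100362 h a1
    have u3 : ¬ (q.m x2 x3) := fun h => c100314 h u2
    have u4 : ¬ (q.s x2 x3) := fun h => q.xism x2 x3 h u3
    have u5 : ¬ (q.m x2 x0) := fun h => q.xom x2 x3 x0 u3 u1 h
    have u6 : q.s x0 x2 := Classical.byContradiction fun h => q.xos x0 x2 x3 h u4 u0
    have u7 : ¬ (q.m x0 x0) := fun h => c100316 u5 h a1
    have u8 : q.s x0 x0 := Classical.byContradiction fun h => eqR q.s (i := x2) (j := x0) x0 a1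
        u6 h
    exact q.xism x0 x0 u8 u7
  have c100364 : x2 = x0 → x4 = x3 → False := by
    intro a0 a1
    have u0 : ¬ (q.m x4 x2) := fun h => c100361 h a0 a1
    have u1 : ¬ (q.m x3 x2) := fun h => eqL' q.m (i := x4) (j := x3) x2 a1 u0 h
    exact c100363 u1 a0
  have c100365 : ¬ (q.m x2 x3) → ¬ (q.m x3 x2) → False := by
    intro a0 a1
    have u0 : q.s x0 x3 := Classical.byContradiction fun h => c100307 h
    have u1 : q.m x0 x3 := Classical.byContradiction fun h => c100308 h
    have u2 : ¬ (q.s x3 x2) := fun h => q.xism x3 x2 h a1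
    have u3 : ¬ (q.s x2 x3) := fun h => q.xism x2 x3 h a0
    have u4 : q.s x0 x2 := Classical.byContradiction fun h => q.xos x0 x2 x3 h u3 u0
    have u5 : ¬ (q.s x2 x2) := fun h => q.xos x2 x3 x2 u3 u2 h
    have u6 : q.pi x0 x2 := Classical.byContradiction fun h => q.xispi x0 x2 u4 h
    have u7 : ¬ (q.be x0 x2) := fun h => c100321 u4 a1 h
    have u8 : q.p x0 x2 := Classical.byContradiction fun h => q.xPm x0 x3 x2 u1 a0 u6 u7 h
    have u9 : q.m x2 x1 := Classical.byContradiction fun h => c100330 h u7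
    have u10 : q.pi x2 x1 := Classical.byContradiction fun h => c100331 h u7
    have u11 : q.p x1 x2 := Classical.byContradiction fun h => c100294 h u8
    have u12 : q.s x1 x2 := Classical.byContradiction fun h => q.xips x1 x2 u11 h
    have u13 : q.s x2 x1 := Classical.byContradiction fun h => q.xnfs x2 x1 h u9 u10 u12
    exact q.xts x2 x1 x2 u13 u12 u5
  have c100366 : ¬ (q.m x3 x2) → ¬ (q.B x2 x3) → x4 = x3 → False := by
    intro a0 a1 a2
    have u0 : q.be x3 x5 := Classical.byContradiction fun h => c100356 h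
    have u1 : ¬ ((¬ q.be x3 x1 ∨ ¬ q.m x3 x1)) := fun h => c100348 h
    have u2 : ¬ (q.B x0 x1) := fun h => c100304 h
    have u3 : q.m x3 x5 := Classical.byContradiction fun h => c100357 h
    have u4 : q.be x0 x3 := Classical.byContradiction fun h => c100306 h
    have u5 : q.s x0 x3 := Classical.byContradiction fun h => c100307 h
    have u6 : ¬ (q.p x0 x1) := fun h => c288 h
    have u7 : ¬ (q.B x3 x1) := fun h => c100353 h
    have u8 : ¬ (x2 = x0) := fun h => c100364 h a2
    have u9 : ¬ (q.B x0 x2) := fun h => c100297 u2 u8 h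
    have u10 : ¬ (q.B x3 x2) := fun h => c100334 u9 h a1
    have u11 : ¬ (q.B x2 x4) := fun h => eqR q.B (i := x4) (j := x3) x2 a2 h a1
    have u12 : q.be x4 x5 := Classical.byContradiction fun h => eqL' q.be (i := x4) (j := x3) x5
        a2 h u0
    have u13 : ¬ (q.m x4 x5) := fun h => k1_3 u7 u1 h u12
    have u14 : ¬ (q.m x4 x3) := fun h => q.xtm x4 x3 x5 h u3 u13
    have u15 : ¬ (q.s x4 x3) := fun h => q.xism x4 x3 h u14
    have u16 : q.s x0 x4 := Classical.byContradiction fun h => q.xos x0 x4 x3 h u15 u5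
    have u17 : ¬ (q.p x4 x3) := fun h => q.xips x4 x3 h u15
    have u18 : q.m x2 x5 := Classical.byContradiction fun h => q.xom x3 x2 x5 a0 h u3
    have u19 : q.m x2 x3 := Classical.byContradiction fun h => c100365 h a0
    have u20 : ¬ (q.be x2 x3) := fun h => c100314 u19 h
    have u21 : q.be x0 x2 := Classical.byContradiction fun h => q.xobe x0 x2 x3 h u20 u4
    have u22 : ¬ (q.be x2 x0) := fun h => q.xtbe x2 x0 x3 h u4 u20
    have u23 : q.pi x0 x2 := Classical.byContradiction fun h => q.xibepi x0 x2 u21 h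
    have u24 : ¬ (q.s x0 x2) := fun h => c100321 h a0 u21
    have u25 : q.C x0 x2 := Classical.byContradiction fun h => q.xnjbe x0 x2 u21 u9 h u22
    have u26 : q.s x2 x3 := Classical.byContradiction fun h => q.xos x0 x2 x3 u24 h u5
    have u27 : q.s x2 x1 := Classical.byContradiction fun h => c100302 u24 h
    have u28 : ¬ (q.s x1 x2) := fun h => c100309 h u24
    have u29 : q.s x2 x4 := Classical.byContradiction fun h => q.xos x0 x2 x4 u24 h u16
    have u30 : ¬ (q.p x2 x0) := fun h => c100338 h u24 u25 u23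
    have u31 : q.pi x2 x3 := Classical.byContradiction fun h => q.xispi x2 x3 u26 h
    have u32 : q.pi x2 x4 := Classical.byContradiction fun h => q.xispi x2 x4 u29 h
    have u33 : ¬ (q.p x2 x1) := fun h => q.xop x2 x0 x1 u30 u6 h
    have u34 : q.p x2 x3 := Classical.byContradiction fun h => c100324 h u19 u31 a0
    have u35 : q.be x2 x1 := Classical.byContradiction fun h => c100339 h u33 u28 u27
    have u36 : q.p x0 x3 := Classical.byContradiction fun h => q.xop x2 x0 x3 u30 h u34
    have u37 : ¬ (q.be x1 x3) := fun h => q.xtbe x2 x1 x3 u35 h u20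
    have u38 : q.be x3 x1 := Classical.byContradiction fun h => q.xobe x2 x3 x1 u20 h u35
    have u39 : q.p x1 x3 := Classical.byContradiction fun h => c100312 h u36
    have u40 : ¬ (q.B x1 x3) := fun h => q.xiBbe x1 x3 h u37
    have u41 : ¬ (q.C x1 x3) := fun h => q.xiCbe x1 x3 h u37
    have u42 : q.C x3 x1 := Classical.byContradiction fun h => q.xnjbe x3 x1 u38 u7 h u37
    have u43 : q.pi x1 x3 := Classical.byContradiction fun h => q.xippi x1 x3 u39 h
    have u44 : q.m x1 x3 := Classical.byContradiction fun h => q.xipm x1 x3 u39 h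
    have u45 : ¬ (q.B x1 x2) := fun h => q.xoB x1 x3 x2 u40 u10 h
    have u46 : q.C x4 x1 := Classical.byContradiction fun h => eqL' q.C (i := x4) (j := x3) x1 a2
        h u42
    have u47 : ¬ (q.al x1 x3) := fun h => q.xnfC x1 x3 u41 h u43 u42
    have u48 : ¬ (q.m x4 x1) := fun h => q.xtm x4 x1 x3 h u44 u14
    have u49 : ¬ (q.B x1 x4) := fun h => q.xoB x1 x2 x4 u45 u11 h
    have u50 : q.pi x4 x1 := Classical.byContradiction fun h => q.xiCpi x4 x1 u46 h
    have u51 : ¬ (q.A x1 x3) := fun h => q.xiAal x1 x3 h u47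
    have u52 : q.pi x4 x3 := Classical.byContradiction fun h => q.xtpi x4 x1 x3 u50 u43 h
    have u53 : ¬ (q.A x1 x4) := fun h => eqR q.A (i := x4) (j := x3) x1 a2 h u51
    have u54 : ¬ (q.m x1 x4) := fun h => q.xnjm x1 x4 h u53 u49 u48
    have u55 : ¬ (q.p x1 x4) := fun h => q.xipm x1 x4 h u54
    have u56 : q.be x4 x3 := Classical.byContradiction fun h => q.xP x1 x3 x4 u44 u54 u52 h u17
    have u57 : ¬ (q.p x2 x4) := fun h => q.xop x2 x1 x4 u33 u55 h
    have u58 : ¬ (q.be x2 x4) := fun h => q.xtbe x2 x4 x3 h u56 u20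
    exact q.xPm x2 x5 x4 u18 u13 u32 u58 u57
  have c100367 : ¬ (q.B x2 x3) → x4 = x3 → False := by
    intro a0 a1
    have u0 : q.be x3 x5 := Classical.byContradiction fun h => c100356 h
    have u1 : ¬ ((¬ q.be x3 x1 ∨ ¬ q.m x3 x1)) := fun h => c100348 h
    have u2 : q.m x3 x5 := Classical.byContradiction fun h => c100357 h
    have u3 : ¬ (q.B x0 x1) := fun h => c100304 h
    have u4 : q.s x0 x3 := Classical.byContradiction fun h => c100307 h
    have u5 : q.be x0 x3 := Classical.byContradiction fun h => c100306 h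
    have u6 : ¬ (q.B x3 x1) := fun h => c100353 h
    have u7 : q.m x0 x3 := Classical.byContradiction fun h => c100308 h
    have u8 : ¬ (x2 = x0) := fun h => c100364 h a1
    have u9 : (¬ q.be x0 x2 ∨ ¬ q.s x0 x2) := Classical.byContradiction fun h => c100300 u3 u8 h
    have u10 : ¬ (q.B x0 x2) := fun h => c100297 u3 u8 h
    have u11 : q.be x4 x5 := Classical.byContradiction fun h => eqL' q.be (i := x4) (j := x3) x5
        a1 h u0
    have u12 : ¬ (q.m x4 x5) := fun h => k1_3 u6 u1 h u11
    have u13 : ¬ (q.m x4 x3) := fun h => q.xtm x4 x3 x5 h u2 u12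
    have u14 : ¬ (q.m x4 x4) := fun h => eqR q.m (i := x4) (j := x3) x4 a1 h u13
    have u15 : ¬ (q.p x4 x4) := fun h => q.xipm x4 x4 h u14
    have u16 : ¬ (q.p x3 x4) := fun h => eqL' q.p (i := x4) (j := x3) x4 a1 u15 h
    have u17 : ¬ (q.s x4 x3) := fun h => q.xism x4 x3 h u13
    have u18 : q.s x0 x4 := Classical.byContradiction fun h => q.xos x0 x4 x3 h u17 u4
    have u19 : q.pi x0 x4 := Classical.byContradiction fun h => q.xispi x0 x4 u18 h
    have u20 : q.m x3 x4 := Classical.byContradiction fun h => q.xom x3 x4 x5 h u12 u2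
    have u21 : q.m x0 x4 := Classical.byContradiction fun h => q.xtm x0 x3 x4 u7 u20 h
    have u22 : ¬ (q.m x4 x0) := fun h => q.xtm x4 x0 x4 h u21 u14
    have u23 : ¬ (q.B x2 x4) := fun h => eqR q.B (i := x4) (j := x3) x2 a1 h a0
    have u24 : ¬ (q.B x3 x2) := fun h => c100334 u10 h a0
    have u25 : ¬ (q.B x0 x3) := fun h => q.xoB x0 x2 x3 u10 a0 h
    have u26 : q.m x3 x2 := Classical.byContradiction fun h => c100366 h a0 a1
    have u27 : q.m x4 x2 := Classical.byContradiction fun h => eqL' q.m (i := x4) (j := x3) x2 a1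
        h u26
    have u28 : ¬ (q.m x2 x3) := fun h => q.xtm x4 x2 x3 u27 h u13
    have u29 : ¬ (q.m x2 x0) := fun h => q.xtm x4 x2 x0 u27 h u22
    have u30 : ¬ (q.s x2 x3) := fun h => q.xism x2 x3 h u28
    have u31 : q.A x3 x2 := Classical.byContradiction fun h => q.xnjm x3 x2 u26 h u24 u28
    have u32 : ¬ (q.p x2 x0) := fun h => q.xipm x2 x0 h u29
    have u33 : q.s x0 x2 := Classical.byContradiction fun h => q.xos x0 x2 x3 h u30 u4
    have u34 : q.al x3 x2 := Classical.byContradiction fun h => q.xiAal x3 x2 u31 h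
    have u35 : q.A x4 x2 := Classical.byContradiction fun h => eqL' q.A (i := x4) (j := x3) x2 a1
        h u31
    have u36 : ¬ (q.B x2 x0) := fun h => q.xiBp x2 x0 h u32
    have u37 : q.pi x0 x2 := Classical.byContradiction fun h => q.xispi x0 x2 u33 h
    have u38 : ¬ (q.be x0 x2) := fun h => c92 u9 h u33
    have u39 : q.al x4 x2 := Classical.byContradiction fun h => q.xiAal x4 x2 u35 h
    have u40 : q.p x0 x2 := Classical.byContradiction fun h => q.xPm x0 x3 x2 u7 u28 u37 u38 h
    have u41 : q.be x2 x3 := Classical.byContradiction fun h => q.xobe x0 x2 x3 u38 h u5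
    have u42 : ¬ (q.be x1 x2) := fun h => c100303 h u38
    have u43 : q.m x2 x1 := Classical.byContradiction fun h => c100330 h u38
    have u44 : q.pi x2 x1 := Classical.byContradiction fun h => c100331 h u38
    have u45 : ¬ (q.p x1 x3) := fun h => c100346 u38 h
    have u46 : q.p x1 x2 := Classical.byContradiction fun h => c100294 h u40
    have u47 : ¬ (q.B x1 x2) := fun h => q.xiBbe x1 x2 h u42
    have u48 : ¬ (q.p x0 x3) := fun h => c100312 u45 h
    have u49 : q.s x1 x2 := Classical.byContradiction fun h => q.xips x1 x2 u46 h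
    have u50 : ¬ (q.B x1 x4) := fun h => q.xoB x1 x2 x4 u47 u23 h
    have u51 : ¬ (q.p x0 x4) := fun h => q.xop x0 x3 x4 u48 u16 h
    have u52 : q.s x2 x1 := Classical.byContradiction fun h => q.xnfs x2 x1 h u43 u44 u49
    have u53 : ¬ (q.B x3 x4) := fun h => q.xoB x3 x1 x4 u6 u50 h
    have u54 : q.p x4 x2 := Classical.byContradiction fun h => q.xop x0 x4 x2 u51 h u40
    have u55 : q.be x0 x4 := Classical.byContradiction fun h => q.xPm x0 x3 x4 u7 u13 u19 h u51
    have u56 : q.s x2 x2 := Classical.byContradiction fun h => q.xts x2 x1 x2 u52 u49 h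
    have u57 : ¬ (q.B x0 x4) := fun h => q.xoB x0 x3 x4 u25 u53 h
    have u58 : q.pi x4 x2 := Classical.byContradiction fun h => q.xippi x4 x2 u54 h
    have u59 : ¬ (q.be x4 x2) := fun h => q.xtbe x0 x4 x2 u55 h u38
    have u60 : q.s x3 x2 := Classical.byContradiction fun h => q.xos x2 x3 x2 u30 h u56
    have u61 : q.A x0 x4 := Classical.byContradiction fun h => q.xnjm x0 x4 u21 h u57 u22
    have u62 : ¬ (q.C x4 x2) := fun h => q.xiCbe x4 x2 h u59
    have u63 : q.pi x3 x2 := Classical.byContradiction fun h => q.xispi x3 x2 u60 h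
    have u64 : q.al x0 x4 := Classical.byContradiction fun h => q.xiAal x0 x4 u61 h
    have u65 : ¬ (q.C x2 x4) := fun h => q.xnfC x4 x2 u62 u39 u58 h
    have u66 : q.be x3 x2 := Classical.byContradiction fun h => c100332 h u34 a0 u41 u63
    have u67 : ¬ (q.C x2 x2) := fun h => q.xoC x2 x4 x2 u65 u62 h
    have u68 : q.be x3 x0 := Classical.byContradiction fun h => q.xobe x3 x0 x2 h u38 u66
    have u69 : q.be x2 x0 := Classical.byContradiction fun h => q.xtbe x2 x3 x0 u41 u68 h
    have u70 : q.C x2 x0 := Classical.byContradiction fun h => q.xnjbe x2 x0 u69 u36 h u38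
    have u71 : q.C x4 x0 := Classical.byContradiction fun h => q.xoC x2 x4 x0 u65 h u70
    have u72 : q.C x0 x4 := Classical.byContradiction fun h => q.xnfC x0 x4 h u64 u19 u71
    have u73 : q.C x0 x3 := Classical.byContradiction fun h => eqR q.C (i := x4) (j := x3) x0 a1
        u72 h
    have u74 : q.C x2 x3 := Classical.byContradiction fun h => q.xtC x2 x0 x3 u70 u73 h
    have u75 : q.C x3 x2 := Classical.byContradiction fun h => q.xnfC x3 x2 h u34 u63 u74
    exact q.xtC x2 x3 x2 u74 u75 u67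
  have c100368 : q.m x4 x2 → x4 = x3 → False := by
    intro a0 a1
    have u0 : q.be x3 x5 := Classical.byContradiction fun h => c100356 h
    have u1 : ¬ ((¬ q.be x3 x1 ∨ ¬ q.m x3 x1)) := fun h => c100348 h
    have u2 : ¬ (q.B x3 x1) := fun h => c100353 h
    have u3 : q.m x3 x5 := Classical.byContradiction fun h => c100357 h
    have u4 : q.m x0 x3 := Classical.byContradiction fun h => c100308 h
    have u5 : q.s x0 x3 := Classical.byContradiction fun h => c100307 h
    have u6 : ¬ (q.B x0 x1) := fun h => c100304 h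
    have u7 : q.B x2 x3 := Classical.byContradiction fun h => c100367 h a1
    have u8 : ¬ (x2 = x0) := fun h => c100364 h a1
    have u9 : (¬ q.be x0 x2 ∨ ¬ q.s x0 x2) := Classical.byContradiction fun h => c100300 u6 u8 h
    have u10 : q.be x4 x5 := Classical.byContradiction fun h => eqL' q.be (i := x4) (j := x3) x5
        a1 h u0
    have u11 : ¬ (q.m x4 x5) := fun h => k1_3 u2 u1 h u10
    have u12 : q.m x3 x4 := Classical.byContradiction fun h => q.xom x3 x4 x5 h u11 u3
    have u13 : q.m x0 x4 := Classical.byContradiction fun h => q.xtm x0 x3 x4 u4 u12 h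
    have u14 : ¬ (q.m x4 x3) := fun h => q.xtm x4 x3 x5 h u3 u11
    have u15 : ¬ (q.m x4 x4) := fun h => eqR q.m (i := x4) (j := x3) x4 a1 h u14
    have u16 : ¬ (q.m x4 x0) := fun h => q.xtm x4 x0 x4 h u13 u15
    have u17 : ¬ (q.m x2 x3) := fun h => q.xtm x4 x2 x3 a0 h u14
    have u18 : ¬ (q.m x2 x0) := fun h => q.xtm x4 x2 x0 a0 h u16
    have u19 : ¬ (q.s x2 x3) := fun h => q.xism x2 x3 h u17
    have u20 : ¬ (q.p x2 x0) := fun h => q.xipm x2 x0 h u18
    have u21 : q.s x0 x2 := Classical.byContradiction fun h => q.xos x0 x2 x3 h u19 u5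
    have u22 : ¬ (q.B x2 x0) := fun h => q.xiBp x2 x0 h u20
    have u23 : ¬ (q.be x0 x2) := fun h => c92 u9 h u21
    have u24 : ¬ (q.B x2 x1) := fun h => q.xoB x2 x0 x1 u22 u6 h
    have u25 : ¬ (q.p x1 x3) := fun h => c100346 u23 h
    have u26 : q.B x1 x3 := Classical.byContradiction fun h => q.xoB x2 x1 x3 u24 h u7
    exact q.xiBp x1 x3 u26 u25
  have c100369 : x4 = x3 → False := by
    intro a0
    have u0 : ¬ (q.B x0 x1) := fun h => c100304 h
    have u1 : q.be x0 x3 := Classical.byContradiction fun h => c100306 h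
    have u2 : ¬ (q.p x0 x1) := fun h => c288 h
    have u3 : ¬ (x2 = x0) := fun h => c100364 h a0
    have u4 : ¬ (q.B x0 x2) := fun h => c100297 u0 u3 h
    have u5 : q.B x2 x3 := Classical.byContradiction fun h => c100367 h a0
    have u6 : ¬ (q.m x4 x2) := fun h => c100368 h a0
    have u7 : ¬ (q.m x3 x2) := fun h => eqL' q.m (i := x4) (j := x3) x2 a0 u6 h
    have u8 : ¬ (q.s x3 x2) := fun h => q.xism x3 x2 h u7
    have u9 : q.m x2 x3 := Classical.byContradiction fun h => c100365 h u7
    have u10 : ¬ (q.B x2 x1) := fun h => c100344 h u8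
    have u11 : ¬ (q.be x2 x3) := fun h => c100314 u9 h
    have u12 : q.B x1 x3 := Classical.byContradiction fun h => q.xoB x2 x1 x3 u10 h u5
    have u13 : q.be x0 x2 := Classical.byContradiction fun h => q.xobe x0 x2 x3 h u11 u1
    have u14 : ¬ (q.be x2 x0) := fun h => q.xtbe x2 x0 x3 h u1 u11
    have u15 : q.be x1 x3 := Classical.byContradiction fun h => q.xiBbe x1 x3 u12 h
    have u16 : q.pi x0 x2 := Classical.byContradiction fun h => q.xibepi x0 x2 u13 h
    have u17 : ¬ (q.s x0 x2) := fun h => c100321 h u7 u13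
    have u18 : q.C x0 x2 := Classical.byContradiction fun h => q.xnjbe x0 x2 u13 u4 h u14
    have u19 : ¬ (q.be x2 x1) := fun h => q.xtbe x2 x1 x3 h u15 u11
    have u20 : q.s x2 x1 := Classical.byContradiction fun h => c100302 u17 h
    have u21 : ¬ (q.s x1 x2) := fun h => c100309 h u17
    have u22 : ¬ (q.p x2 x0) := fun h => c100338 h u17 u18 u16
    have u23 : q.p x2 x1 := Classical.byContradiction fun h => c100339 u19 h u21 u20
    exact q.xop x2 x0 x1 u22 u2 u23
  have c100370 : ¬ ((¬ q.be x3 x4 ∨ ¬ q.m x3 x4)) → False := by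
    intro a0
    have u0 : ¬ (q.B x3 x1) := fun h => c100353 h
    have u1 : ¬ (x4 = x3) := fun h => c100369 h
    have u2 : ¬ ((¬ q.be x3 x1 ∨ ¬ q.m x3 x1)) := fun h => c100348 h
    exact k1_1 u0 u2 u1 a0
  have c100371 : ¬ (q.m x4 x3) → ¬ (q.m x3 x2) → False := by
    intro a0 a1
    have u0 : q.pi x3 x5 := Classical.byContradiction fun h => c100358 h
    have u1 : q.m x0 x3 := Classical.byContradiction fun h => c100308 h
    have u2 : ¬ (q.p x0 x1) := fun h => c288 h
    have u3 : q.be x0 x3 := Classical.byContradiction fun h => c100306 h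
    have u4 : q.m x3 x5 := Classical.byContradiction fun h => c100357 h
    have u5 : q.s x0 x3 := Classical.byContradiction fun h => c100307 h
    have u6 : (¬ q.be x3 x4 ∨ ¬ q.m x3 x4) := Classical.byContradiction fun h => c100370 h
    have u7 : ¬ (q.B x3 x1) := fun h => c100353 h
    have u8 : ¬ ((¬ q.be x3 x1 ∨ ¬ q.m x3 x1)) := fun h => c100348 h
    have u9 : q.be x3 x5 := Classical.byContradiction fun h => c100356 h
    have u10 : ¬ (q.B x3 x5) := fun h => c100354 h
    have u11 : ¬ (q.m x5 x2) := fun h => q.xtm x3 x5 x2 u4 h a1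
    have u12 : q.m x2 x5 := Classical.byContradiction fun h => q.xom x3 x2 x5 a1 h u4
    have u13 : ¬ (q.s x3 x2) := fun h => q.xism x3 x2 h a1
    have u14 : ¬ (q.B x2 x1) := fun h => c100344 h u13
    have u15 : q.m x2 x3 := Classical.byContradiction fun h => c100365 h a1
    have u16 : ¬ (q.be x2 x3) := fun h => c100314 u15 h
    have u17 : q.be x0 x2 := Classical.byContradiction fun h => q.xobe x0 x2 x3 h u16 u3
    have u18 : ¬ (q.s x0 x2) := fun h => c100321 h a1 u17
    have u19 : q.s x2 x1 := Classical.byContradiction fun h => c100302 u18 h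
    have u20 : ¬ (q.s x1 x2) := fun h => c100309 h u18
    have u21 : q.pi x0 x2 := Classical.byContradiction fun h => q.xibepi x0 x2 u17 h
    have u22 : ¬ (q.B x0 x2) := fun h => c100336 h u13
    have u23 : ¬ (q.be x2 x0) := fun h => q.xtbe x2 x0 x3 h u3 u16
    have u24 : q.C x0 x2 := Classical.byContradiction fun h => q.xnjbe x0 x2 u17 u22 h u23
    have u25 : ¬ (q.p x2 x0) := fun h => c100338 h u18 u24 u21
    have u26 : ¬ (q.p x2 x1) := fun h => q.xop x2 x0 x1 u25 u2 h
    have u27 : q.be x2 x1 := Classical.byContradiction fun h => c100339 h u26 u20 u19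
    have u28 : ¬ (q.be x1 x3) := fun h => q.xtbe x2 x1 x3 u27 h u16
    have u29 : ¬ (q.B x1 x3) := fun h => q.xiBbe x1 x3 h u28
    have u30 : ¬ (q.B x2 x3) := fun h => q.xoB x2 x1 x3 u14 u29 h
    have u31 : ¬ (q.B x2 x5) := fun h => q.xoB x2 x3 x5 u30 u10 h
    have u32 : q.A x2 x5 := Classical.byContradiction fun h => q.xnjm x2 x5 u12 h u31 u11
    have u33 : q.al x2 x5 := Classical.byContradiction fun h => q.xiAal x2 x5 u32 h
    have u34 : q.s x2 x3 := Classical.byContradiction fun h => q.xos x0 x2 x3 u18 h u5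
    have u35 : q.pi x2 x3 := Classical.byContradiction fun h => q.xispi x2 x3 u34 h
    have u36 : q.p x2 x3 := Classical.byContradiction fun h => c100324 h u15 u35 a1
    have u37 : q.p x0 x3 := Classical.byContradiction fun h => q.xop x2 x0 x3 u25 h u36
    have u38 : q.p x1 x3 := Classical.byContradiction fun h => c100312 h u37
    have u39 : q.be x3 x1 := Classical.byContradiction fun h => q.xobe x2 x3 x1 u16 h u27
    have u40 : q.m x3 x1 := Classical.byContradiction fun h => c100326 u28 u7 u29 h u39 u38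
    have u41 : q.m x0 x1 := Classical.byContradiction fun h => q.xtm x0 x3 x1 u1 u40 h
    have u42 : ¬ (q.B x1 x0) := fun h => c100310 u41 h
    have u43 : ¬ (q.B x0 x3) := fun h => q.xoB x0 x2 x3 u22 u30 h
    have u44 : q.m x1 x3 := Classical.byContradiction fun h => q.xipm x1 x3 u38 h
    have u45 : q.s x1 x3 := Classical.byContradiction fun h => q.xips x1 x3 u38 h
    have u46 : q.C x3 x1 := Classical.byContradiction fun h => q.xnjbe x3 x1 u39 u7 h u28
    have u47 : q.pi x2 x5 := Classical.byContradiction fun h => q.xtpi x2 x3 x5 u35 u0 h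
    have u48 : ¬ (q.s x5 x2) := fun h => q.xism x5 x2 h u11
    have u49 : ¬ (q.p x5 x2) := fun h => q.xips x5 x2 h u48
    have u50 : ¬ (q.B x5 x2) := fun h => q.xiBp x5 x2 h u49
    have u51 : ¬ (q.s x4 x3) := fun h => q.xism x4 x3 h a0
    have u52 : ¬ (q.m x4 x1) := fun h => q.xtm x4 x1 x3 h u44 a0
    have u53 : q.s x0 x4 := Classical.byContradiction fun h => q.xos x0 x4 x3 h u51 u5
    have u54 : q.s x1 x4 := Classical.byContradiction fun h => q.xos x1 x4 x3 h u51 u45
    have u55 : q.m x3 x4 := Classical.byContradiction fun h => q.xom x3 x4 x1 h u52 u40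
    have u56 : q.s x2 x4 := Classical.byContradiction fun h => q.xos x0 x2 x4 u18 h u53
    have u57 : q.pi x1 x4 := Classical.byContradiction fun h => q.xispi x1 x4 u54 h
    have u58 : ¬ (q.be x3 x4) := fun h => c120 u6 h u55
    have u59 : q.pi x2 x4 := Classical.byContradiction fun h => q.xispi x2 x4 u56 h
    have u60 : ¬ (q.C x3 x4) := fun h => q.xiCbe x3 x4 h u58
    have u61 : ¬ (q.B x3 x4) := fun h => q.xiBbe x3 x4 h u58
    have u62 : ¬ (q.be x2 x4) := fun h => q.xobe x2 x3 x4 u16 u58 h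
    have u63 : ¬ (q.be x1 x4) := fun h => q.xobe x1 x3 x4 u28 u58 h
    have u64 : q.C x4 x1 := Classical.byContradiction fun h => q.xoC x3 x4 x1 u60 h u46
    have u65 : ¬ (q.B x0 x4) := fun h => q.xoB x0 x3 x4 u43 u61 h
    have u66 : ¬ (q.C x2 x4) := fun h => q.xiCbe x2 x4 h u62
    have u67 : ¬ (q.C x1 x4) := fun h => q.xiCbe x1 x4 h u63
    have u68 : ¬ (q.B x1 x4) := fun h => q.xoB x1 x0 x4 u42 u65 h
    have u69 : ¬ (q.al x1 x4) := fun h => q.xnfC x1 x4 u67 h u57 u64
    have u70 : ¬ (q.A x1 x4) := fun h => q.xiAal x1 x4 h u69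
    have u71 : ¬ (q.m x1 x4) := fun h => q.xnjm x1 x4 h u70 u68 u52
    have u72 : ¬ (q.p x1 x4) := fun h => q.xipm x1 x4 h u71
    have u73 : ¬ (q.p x2 x4) := fun h => q.xop x2 x1 x4 u26 u72 h
    have u74 : q.m x4 x5 := Classical.byContradiction fun h => q.xPm x2 x5 x4 u12 h u59 u62 u73
    have u75 : ¬ (q.be x4 x5) := fun h => k1_3 u7 u8 u74 h
    have u76 : ¬ (q.C x4 x5) := fun h => q.xiCbe x4 x5 h u75
    have u77 : ¬ (q.be x2 x5) := fun h => q.xobe x2 x4 x5 u62 u75 h
    have u78 : ¬ (q.C x2 x5) := fun h => q.xoC x2 x4 x5 u66 u76 h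
    have u79 : ¬ (q.C x3 x5) := fun h => q.xoC x3 x4 x5 u60 u76 h
    have u80 : ¬ (q.C x5 x2) := fun h => q.xnfC x2 x5 u78 u33 u47 h
    have u81 : q.be x5 x3 := Classical.byContradiction fun h => q.xnjbe x3 x5 u9 u10 u79 h
    have u82 : ¬ (q.be x5 x2) := fun h => q.xnjbe x5 x2 h u50 u80 u77
    exact q.xobe x5 x2 x3 u82 u16 u81
  have c100372 : q.C x3 x5 → ¬ (q.m x3 x2) → False := by
    intro a0 a1
    have u0 : q.s x0 x3 := Classical.byContradiction fun h => c100307 h
    have u1 : ¬ ((¬ q.be x3 x1 ∨ ¬ q.m x3 x1)) := fun h => c100348 h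
    have u2 : ¬ (q.B x3 x1) := fun h => c100353 h
    have u3 : ¬ (q.p x0 x1) := fun h => c288 h
    have u4 : q.be x0 x3 := Classical.byContradiction fun h => c100306 h
    have u5 : q.m x3 x5 := Classical.byContradiction fun h => c100357 h
    have u6 : (¬ q.be x3 x4 ∨ ¬ q.m x3 x4) := Classical.byContradiction fun h => c100370 h
    have u7 : ¬ (q.s x3 x2) := fun h => q.xism x3 x2 h a1
    have u8 : ¬ (q.B x2 x1) := fun h => c100344 h u7
    have u9 : ¬ (q.m x5 x2) := fun h => q.xtm x3 x5 x2 u5 h a1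
    have u10 : ¬ (q.s x5 x2) := fun h => q.xism x5 x2 h u9
    have u11 : ¬ (q.p x5 x2) := fun h => q.xips x5 x2 h u10
    have u12 : ¬ (q.B x5 x2) := fun h => q.xiBp x5 x2 h u11
    have u13 : ¬ (q.B x5 x1) := fun h => q.xoB x5 x2 x1 u12 u8 h
    have u14 : q.m x2 x3 := Classical.byContradiction fun h => c100365 h a1
    have u15 : ¬ (q.be x2 x3) := fun h => c100314 u14 h
    have u16 : q.be x0 x2 := Classical.byContradiction fun h => q.xobe x0 x2 x3 h u15 u4
    have u17 : ¬ (q.s x0 x2) := fun h => c100321 h a1 u16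
    have u18 : q.s x2 x1 := Classical.byContradiction fun h => c100302 u17 h
    have u19 : ¬ (q.s x1 x2) := fun h => c100309 h u17
    have u20 : q.pi x0 x2 := Classical.byContradiction fun h => q.xibepi x0 x2 u16 h
    have u21 : ¬ (q.B x0 x2) := fun h => c100336 h u7
    have u22 : ¬ (q.be x2 x0) := fun h => q.xtbe x2 x0 x3 h u4 u15
    have u23 : q.C x0 x2 := Classical.byContradiction fun h => q.xnjbe x0 x2 u16 u21 h u22
    have u24 : ¬ (q.p x2 x0) := fun h => c100338 h u17 u23 u20
    have u25 : ¬ (q.p x2 x1) := fun h => q.xop x2 x0 x1 u24 u3 h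
    have u26 : q.be x2 x1 := Classical.byContradiction fun h => c100339 h u25 u19 u18
    have u27 : ¬ (q.be x1 x3) := fun h => q.xtbe x2 x1 x3 u26 h u15
    have u28 : ¬ (q.B x1 x3) := fun h => q.xiBbe x1 x3 h u27
    have u29 : ¬ (q.B x5 x3) := fun h => q.xoB x5 x1 x3 u13 u28 h
    have u30 : q.m x4 x3 := Classical.byContradiction fun h => c100371 h a1
    have u31 : q.m x4 x5 := Classical.byContradiction fun h => q.xtm x4 x3 x5 u30 u5 h
    have u32 : ¬ (q.be x4 x5) := fun h => k1_3 u2 u1 u31 h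
    have u33 : ¬ (q.B x4 x5) := fun h => q.xiBbe x4 x5 h u32
    have u34 : ¬ (q.B x4 x3) := fun h => q.xoB x4 x5 x3 u33 u29 h
    have u35 : ¬ (q.C x4 x5) := fun h => q.xiCbe x4 x5 h u32
    have u36 : ¬ (q.C x1 x3) := fun h => q.xiCbe x1 x3 h u27
    have u37 : q.s x2 x3 := Classical.byContradiction fun h => q.xos x0 x2 x3 u17 h u0
    have u38 : q.pi x2 x3 := Classical.byContradiction fun h => q.xispi x2 x3 u37 h
    have u39 : q.p x2 x3 := Classical.byContradiction fun h => c100324 h u14 u38 a1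
    have u40 : q.p x0 x3 := Classical.byContradiction fun h => q.xop x2 x0 x3 u24 h u39
    have u41 : q.p x1 x3 := Classical.byContradiction fun h => c100312 h u40
    have u42 : q.pi x1 x3 := Classical.byContradiction fun h => q.xippi x1 x3 u41 h
    have u43 : q.be x3 x1 := Classical.byContradiction fun h => q.xobe x2 x3 x1 u15 h u26
    have u44 : q.C x3 x1 := Classical.byContradiction fun h => q.xnjbe x3 x1 u43 u2 h u27
    have u45 : ¬ (q.al x1 x3) := fun h => q.xnfC x1 x3 u36 h u42 u44
    have u46 : q.s x1 x3 := Classical.byContradiction fun h => q.xips x1 x3 u41 h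
    have u47 : q.m x3 x1 := Classical.byContradiction fun h => c100326 u27 u2 u28 h u43 u41
    have u48 : ¬ (q.C x4 x3) := fun h => q.xtC x4 x3 x5 h a0 u35
    have u49 : q.C x3 x4 := Classical.byContradiction fun h => q.xoC x3 x4 x5 h u35 a0
    have u50 : q.be x3 x4 := Classical.byContradiction fun h => q.xiCbe x3 x4 u49 h
    have u51 : ¬ (q.m x3 x4) := fun h => c120 u6 u50 h
    have u52 : ¬ (q.m x1 x4) := fun h => q.xtm x3 x1 x4 u47 h u51
    have u53 : q.A x4 x3 := Classical.byContradiction fun h => q.xnjm x4 x3 u30 h u34 u51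
    have u54 : ¬ (q.p x1 x4) := fun h => q.xipm x1 x4 h u52
    have u55 : q.al x4 x3 := Classical.byContradiction fun h => q.xiAal x4 x3 u53 h
    have u56 : ¬ (q.pi x4 x3) := fun h => q.xnfC x4 x3 u48 u55 h u49
    have u57 : ¬ (q.al x1 x4) := fun h => q.xtal x1 x4 x3 h u55 u45
    have u58 : ¬ (q.s x4 x3) := fun h => q.xispi x4 x3 h u56
    have u59 : ¬ (q.pi x4 x1) := fun h => q.xtpi x4 x1 x3 h u42 u56
    have u60 : ¬ (q.C x1 x4) := fun h => q.xiCal x1 x4 h u57
    have u61 : q.s x1 x4 := Classical.byContradiction fun h => q.xos x1 x4 x3 h u58 u46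
    have u62 : ¬ (q.pi x1 x4) := fun h => q.xnjpi x1 x4 h u54 u60 u59
    exact q.xispi x1 x4 u61 u62
  have c100373 : q.be x2 x4 → ¬ (q.B x3 x4) → ¬ (q.m x3 x2) → False := by
    intro a0 a1 a2
    have u0 : q.s x0 x3 := Classical.byContradiction fun h => c100307 h
    have u1 : ¬ ((¬ q.be x3 x1 ∨ ¬ q.m x3 x1)) := fun h => c100348 h
    have u2 : ¬ (q.B x3 x1) := fun h => c100353 h
    have u3 : ¬ (q.p x0 x1) := fun h => c288 h
    have u4 : q.be x0 x3 := Classical.byContradiction fun h => c100306 h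
    have u5 : q.m x3 x5 := Classical.byContradiction fun h => c100357 h
    have u6 : (¬ q.be x3 x4 ∨ ¬ q.m x3 x4) := Classical.byContradiction fun h => c100370 h
    have u7 : ¬ (q.s x3 x2) := fun h => q.xism x3 x2 h a2
    have u8 : ¬ (q.B x2 x1) := fun h => c100344 h u7
    have u9 : ¬ (q.m x5 x2) := fun h => q.xtm x3 x5 x2 u5 h a2
    have u10 : ¬ (q.s x5 x2) := fun h => q.xism x5 x2 h u9
    have u11 : ¬ (q.p x5 x2) := fun h => q.xips x5 x2 h u10
    have u12 : ¬ (q.B x5 x2) := fun h => q.xiBp x5 x2 h u11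
    have u13 : ¬ (q.B x5 x1) := fun h => q.xoB x5 x2 x1 u12 u8 h
    have u14 : q.m x2 x3 := Classical.byContradiction fun h => c100365 h a2
    have u15 : ¬ (q.be x2 x3) := fun h => c100314 u14 h
    have u16 : q.be x0 x2 := Classical.byContradiction fun h => q.xobe x0 x2 x3 h u15 u4
    have u17 : ¬ (q.s x0 x2) := fun h => c100321 h a2 u16
    have u18 : q.s x2 x1 := Classical.byContradiction fun h => c100302 u17 h
    have u19 : ¬ (q.s x1 x2) := fun h => c100309 h u17
    have u20 : q.pi x0 x2 := Classical.byContradiction fun h => q.xibepi x0 x2 u16 h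
    have u21 : ¬ (q.B x0 x2) := fun h => c100336 h u7
    have u22 : ¬ (q.be x2 x0) := fun h => q.xtbe x2 x0 x3 h u4 u15
    have u23 : q.C x0 x2 := Classical.byContradiction fun h => q.xnjbe x0 x2 u16 u21 h u22
    have u24 : ¬ (q.p x2 x0) := fun h => c100338 h u17 u23 u20
    have u25 : ¬ (q.p x2 x1) := fun h => q.xop x2 x0 x1 u24 u3 h
    have u26 : q.be x2 x1 := Classical.byContradiction fun h => c100339 h u25 u19 u18
    have u27 : ¬ (q.be x1 x3) := fun h => q.xtbe x2 x1 x3 u26 h u15
    have u28 : ¬ (q.B x1 x3) := fun h => q.xiBbe x1 x3 h u27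
    have u29 : ¬ (q.B x5 x3) := fun h => q.xoB x5 x1 x3 u13 u28 h
    have u30 : q.m x4 x3 := Classical.byContradiction fun h => c100371 h a2
    have u31 : q.m x4 x5 := Classical.byContradiction fun h => q.xtm x4 x3 x5 u30 u5 h
    have u32 : ¬ (q.be x4 x5) := fun h => k1_3 u2 u1 u31 h
    have u33 : ¬ (q.B x4 x5) := fun h => q.xiBbe x4 x5 h u32
    have u34 : ¬ (q.B x4 x3) := fun h => q.xoB x4 x5 x3 u33 u29 h
    have u35 : ¬ (q.C x1 x3) := fun h => q.xiCbe x1 x3 h u27
    have u36 : q.s x2 x3 := Classical.byContradiction fun h => q.xos x0 x2 x3 u17 h u0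
    have u37 : q.pi x2 x3 := Classical.byContradiction fun h => q.xispi x2 x3 u36 h
    have u38 : q.p x2 x3 := Classical.byContradiction fun h => c100324 h u14 u37 a2
    have u39 : q.p x0 x3 := Classical.byContradiction fun h => q.xop x2 x0 x3 u24 h u38
    have u40 : q.p x1 x3 := Classical.byContradiction fun h => c100312 h u39
    have u41 : q.pi x1 x3 := Classical.byContradiction fun h => q.xippi x1 x3 u40 h
    have u42 : q.be x3 x1 := Classical.byContradiction fun h => q.xobe x2 x3 x1 u15 h u26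
    have u43 : q.C x3 x1 := Classical.byContradiction fun h => q.xnjbe x3 x1 u42 u2 h u27
    have u44 : ¬ (q.al x1 x3) := fun h => q.xnfC x1 x3 u35 h u41 u43
    have u45 : q.s x1 x3 := Classical.byContradiction fun h => q.xips x1 x3 u40 h
    have u46 : q.m x3 x1 := Classical.byContradiction fun h => c100326 u27 u2 u28 h u42 u40
    have u47 : ¬ (q.be x4 x3) := fun h => q.xtbe x2 x4 x3 a0 h u15
    have u48 : q.be x3 x4 := Classical.byContradiction fun h => q.xobe x2 x3 x4 u15 h a0
    have u49 : ¬ (q.C x4 x3) := fun h => q.xiCbe x4 x3 h u47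
    have u50 : q.C x3 x4 := Classical.byContradiction fun h => q.xnjbe x3 x4 u48 a1 h u47
    have u51 : ¬ (q.m x3 x4) := fun h => c120 u6 u48 h
    have u52 : ¬ (q.m x1 x4) := fun h => q.xtm x3 x1 x4 u46 h u51
    have u53 : q.A x4 x3 := Classical.byContradiction fun h => q.xnjm x4 x3 u30 h u34 u51
    have u54 : ¬ (q.p x1 x4) := fun h => q.xipm x1 x4 h u52
    have u55 : q.al x4 x3 := Classical.byContradiction fun h => q.xiAal x4 x3 u53 h
    have u56 : ¬ (q.pi x4 x3) := fun h => q.xnfC x4 x3 u49 u55 h u50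
    have u57 : ¬ (q.al x1 x4) := fun h => q.xtal x1 x4 x3 h u55 u44
    have u58 : ¬ (q.s x4 x3) := fun h => q.xispi x4 x3 h u56
    have u59 : ¬ (q.pi x4 x1) := fun h => q.xtpi x4 x1 x3 h u41 u56
    have u60 : ¬ (q.C x1 x4) := fun h => q.xiCal x1 x4 h u57
    have u61 : q.s x1 x4 := Classical.byContradiction fun h => q.xos x1 x4 x3 h u58 u45
    have u62 : ¬ (q.pi x1 x4) := fun h => q.xnjpi x1 x4 h u54 u60 u59
    exact q.xispi x1 x4 u61 u62
  have c100374 : ¬ (q.be x2 x4) → ¬ (q.m x3 x2) → False := by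
    intro a0 a1
    have u0 : q.s x0 x3 := Classical.byContradiction fun h => c100307 h
    have u1 : q.pi x3 x5 := Classical.byContradiction fun h => c100358 h
    have u2 : ¬ (q.p x0 x1) := fun h => c288 h
    have u3 : q.be x0 x3 := Classical.byContradiction fun h => c100306 h
    have u4 : q.m x3 x5 := Classical.byContradiction fun h => c100357 h
    have u5 : ¬ ((¬ q.be x3 x1 ∨ ¬ q.m x3 x1)) := fun h => c100348 h
    have u6 : ¬ (q.B x3 x1) := fun h => c100353 h
    have u7 : ¬ (q.B x3 x5) := fun h => c100354 h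
    have u8 : q.be x3 x5 := Classical.byContradiction fun h => c100356 h
    have u9 : q.m x2 x3 := Classical.byContradiction fun h => c100365 h a1
    have u10 : ¬ (q.be x2 x3) := fun h => c100314 u9 h
    have u11 : ¬ (q.C x3 x5) := fun h => c100372 h a1
    have u12 : q.be x5 x3 := Classical.byContradiction fun h => q.xnjbe x3 x5 u8 u7 u11 h
    have u13 : q.be x5 x2 := Classical.byContradiction fun h => q.xobe x5 x2 x3 h u10 u12
    have u14 : q.m x4 x3 := Classical.byContradiction fun h => c100371 h a1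
    have u15 : q.m x4 x5 := Classical.byContradiction fun h => q.xtm x4 x3 x5 u14 u4 h
    have u16 : ¬ (q.be x4 x5) := fun h => k1_3 u6 u5 u15 h
    have u17 : ¬ (q.C x4 x5) := fun h => q.xiCbe x4 x5 h u16
    have u18 : ¬ (q.m x5 x2) := fun h => q.xtm x3 x5 x2 u4 h a1
    have u19 : q.m x2 x5 := Classical.byContradiction fun h => q.xom x3 x2 x5 a1 h u4
    have u20 : ¬ (q.s x3 x2) := fun h => q.xism x3 x2 h a1
    have u21 : ¬ (q.B x2 x1) := fun h => c100344 h u20
    have u22 : q.be x0 x2 := Classical.byContradiction fun h => q.xobe x0 x2 x3 h u10 u3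
    have u23 : ¬ (q.s x0 x2) := fun h => c100321 h a1 u22
    have u24 : q.s x2 x1 := Classical.byContradiction fun h => c100302 u23 h
    have u25 : ¬ (q.s x1 x2) := fun h => c100309 h u23
    have u26 : q.pi x0 x2 := Classical.byContradiction fun h => q.xibepi x0 x2 u22 h
    have u27 : ¬ (q.B x0 x2) := fun h => c100336 h u20
    have u28 : ¬ (q.be x2 x0) := fun h => q.xtbe x2 x0 x3 h u3 u10
    have u29 : q.C x0 x2 := Classical.byContradiction fun h => q.xnjbe x0 x2 u22 u27 h u28
    have u30 : ¬ (q.p x2 x0) := fun h => c100338 h u23 u29 u26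
    have u31 : ¬ (q.p x2 x1) := fun h => q.xop x2 x0 x1 u30 u2 h
    have u32 : q.be x2 x1 := Classical.byContradiction fun h => c100339 h u31 u25 u24
    have u33 : ¬ (q.be x1 x3) := fun h => q.xtbe x2 x1 x3 u32 h u10
    have u34 : ¬ (q.B x1 x3) := fun h => q.xiBbe x1 x3 h u33
    have u35 : ¬ (q.B x2 x3) := fun h => q.xoB x2 x1 x3 u21 u34 h
    have u36 : ¬ (q.B x2 x5) := fun h => q.xoB x2 x3 x5 u35 u7 h
    have u37 : q.A x2 x5 := Classical.byContradiction fun h => q.xnjm x2 x5 u19 h u36 u18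
    have u38 : q.al x2 x5 := Classical.byContradiction fun h => q.xiAal x2 x5 u37 h
    have u39 : q.s x2 x3 := Classical.byContradiction fun h => q.xos x0 x2 x3 u23 h u0
    have u40 : q.pi x2 x3 := Classical.byContradiction fun h => q.xispi x2 x3 u39 h
    have u41 : q.pi x2 x5 := Classical.byContradiction fun h => q.xtpi x2 x3 x5 u40 u1 h
    have u42 : ¬ (q.s x5 x2) := fun h => q.xism x5 x2 h u18
    have u43 : ¬ (q.p x5 x2) := fun h => q.xips x5 x2 h u42
    have u44 : ¬ (q.B x5 x2) := fun h => q.xiBp x5 x2 h u43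
    have u45 : ¬ (q.C x2 x4) := fun h => q.xiCbe x2 x4 h a0
    have u46 : ¬ (q.be x2 x5) := fun h => q.xobe x2 x4 x5 a0 u16 h
    have u47 : ¬ (q.C x2 x5) := fun h => q.xoC x2 x4 x5 u45 u17 h
    have u48 : q.C x5 x2 := Classical.byContradiction fun h => q.xnjbe x5 x2 u13 u44 h u46
    exact q.xnfC x2 x5 u47 u38 u41 u48
  have c100375 : ¬ (q.m x3 x2) → False := by
    intro a0
    have u0 : q.m x3 x5 := Classical.byContradiction fun h => c100357 h
    have u1 : q.be x0 x3 := Classical.byContradiction fun h => c100306 h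
    have u2 : q.s x0 x3 := Classical.byContradiction fun h => c100307 h
    have u3 : ¬ (q.p x0 x1) := fun h => c288 h
    have u4 : ¬ (q.B x3 x5) := fun h => c100354 h
    have u5 : (¬ q.be x3 x4 ∨ ¬ q.m x3 x4) := Classical.byContradiction fun h => c100370 h
    have u6 : ¬ (q.B x3 x1) := fun h => c100353 h
    have u7 : ¬ (q.s x3 x2) := fun h => q.xism x3 x2 h a0
    have u8 : ¬ (q.m x5 x2) := fun h => q.xtm x3 x5 x2 u0 h a0
    have u9 : q.m x2 x3 := Classical.byContradiction fun h => c100365 h a0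
    have u10 : ¬ (q.B x0 x2) := fun h => c100336 h u7
    have u11 : ¬ (q.B x2 x1) := fun h => c100344 h u7
    have u12 : ¬ (q.s x5 x2) := fun h => q.xism x5 x2 h u8
    have u13 : ¬ (q.be x2 x3) := fun h => c100314 u9 h
    have u14 : ¬ (q.p x5 x2) := fun h => q.xips x5 x2 h u12
    have u15 : q.be x0 x2 := Classical.byContradiction fun h => q.xobe x0 x2 x3 h u13 u1
    have u16 : ¬ (q.be x2 x0) := fun h => q.xtbe x2 x0 x3 h u1 u13
    have u17 : q.pi x0 x2 := Classical.byContradiction fun h => q.xibepi x0 x2 u15 h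
    have u18 : ¬ (q.s x0 x2) := fun h => c100321 h a0 u15
    have u19 : q.C x0 x2 := Classical.byContradiction fun h => q.xnjbe x0 x2 u15 u10 h u16
    have u20 : q.s x2 x3 := Classical.byContradiction fun h => q.xos x0 x2 x3 u18 h u2
    have u21 : q.s x2 x1 := Classical.byContradiction fun h => c100302 u18 h
    have u22 : ¬ (q.s x1 x2) := fun h => c100309 h u18
    have u23 : ¬ (q.p x2 x0) := fun h => c100338 h u18 u19 u17
    have u24 : q.pi x2 x3 := Classical.byContradiction fun h => q.xispi x2 x3 u20 h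
    have u25 : ¬ (q.p x2 x1) := fun h => q.xop x2 x0 x1 u23 u3 h
    have u26 : q.p x2 x3 := Classical.byContradiction fun h => c100324 h u9 u24 a0
    have u27 : q.be x2 x1 := Classical.byContradiction fun h => c100339 h u25 u22 u21
    have u28 : q.p x0 x3 := Classical.byContradiction fun h => q.xop x2 x0 x3 u23 h u26
    have u29 : ¬ (q.be x1 x3) := fun h => q.xtbe x2 x1 x3 u27 h u13
    have u30 : q.be x3 x1 := Classical.byContradiction fun h => q.xobe x2 x3 x1 u13 h u27
    have u31 : q.p x1 x3 := Classical.byContradiction fun h => c100312 h u28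
    have u32 : ¬ (q.B x1 x3) := fun h => q.xiBbe x1 x3 h u29
    have u33 : q.m x3 x1 := Classical.byContradiction fun h => c100326 u29 u6 u32 h u30 u31
    have u34 : ¬ (q.B x2 x3) := fun h => q.xoB x2 x1 x3 u11 u32 h
    have u35 : ¬ (q.B x2 x5) := fun h => q.xoB x2 x3 x5 u34 u4 h
    have u36 : ¬ (q.B x3 x2) := fun h => c100334 u10 h u34
    have u37 : ¬ (q.B x1 x2) := fun h => q.xoB x1 x3 x2 u32 u36 h
    have u38 : ¬ (q.B x1 x5) := fun h => q.xoB x1 x2 x5 u37 u35 h
    have u39 : q.be x2 x4 := Classical.byContradiction fun h => c100374 h a0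
    have u40 : q.be x3 x4 := Classical.byContradiction fun h => q.xobe x2 x3 x4 u13 h u39
    have u41 : q.B x3 x4 := Classical.byContradiction fun h => c100373 u39 h a0
    have u42 : ¬ (q.m x3 x4) := fun h => c120 u5 u40 h
    have u43 : q.B x1 x4 := Classical.byContradiction fun h => q.xoB x3 x1 x4 u6 h u41
    have u44 : ¬ (q.m x1 x4) := fun h => q.xtm x3 x1 x4 u33 h u42
    have u45 : q.B x5 x4 := Classical.byContradiction fun h => q.xoB x1 x5 x4 u38 h u43
    have u46 : ¬ (q.p x1 x4) := fun h => q.xipm x1 x4 h u44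
    have u47 : q.p x5 x4 := Classical.byContradiction fun h => q.xiBp x5 x4 u45 h
    have u48 : ¬ (q.p x2 x4) := fun h => q.xop x2 x1 x4 u25 u46 h
    exact q.xop x5 x2 x4 u14 u48 u47
  have c100376 : ¬ (q.be x2 x3) → q.B x3 x4 → False := by
    intro a0 a1
    have u0 : ¬ (q.B x3 x1) := fun h => c100353 h
    have u1 : (¬ q.be x3 x4 ∨ ¬ q.m x3 x4) := Classical.byContradiction fun h => c100370 h
    have u2 : q.be x0 x3 := Classical.byContradiction fun h => c100306 h
    have u3 : ¬ (q.B x0 x1) := fun h => c100304 h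
    have u4 : q.s x0 x3 := Classical.byContradiction fun h => c100307 h
    have u5 : ¬ (q.p x0 x1) := fun h => c288 h
    have u6 : ¬ (q.B x3 x5) := fun h => c100354 h
    have u7 : q.pi x3 x5 := Classical.byContradiction fun h => c100358 h
    have u8 : q.m x3 x2 := Classical.byContradiction fun h => c100375 h
    have u9 : q.be x3 x4 := Classical.byContradiction fun h => q.xiBbe x3 x4 a1 h
    have u10 : ¬ (q.m x3 x4) := fun h => c120 u1 u9 h
    have u11 : q.B x1 x4 := Classical.byContradiction fun h => q.xoB x3 x1 x4 u0 h a1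
    have u12 : q.be x0 x2 := Classical.byContradiction fun h => q.xobe x0 x2 x3 h a0 u2
    have u13 : ¬ (q.be x2 x0) := fun h => q.xtbe x2 x0 x3 h u2 a0
    have u14 : ¬ (x2 = x0) := fun h => c100362 a0 h
    have u15 : q.pi x0 x2 := Classical.byContradiction fun h => q.xibepi x0 x2 u12 h
    have u16 : ¬ (q.B x2 x0) := fun h => q.xiBbe x2 x0 h u13
    have u17 : ¬ (q.B x0 x2) := fun h => c100297 u3 u14 h
    have u18 : (¬ q.be x0 x2 ∨ ¬ q.s x0 x2) := Classical.byContradiction fun h => c100300 u3 u14 h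
    have u19 : ¬ (q.B x2 x1) := fun h => q.xoB x2 x0 x1 u16 u3 h
    have u20 : q.C x0 x2 := Classical.byContradiction fun h => q.xnjbe x0 x2 u12 u17 h u13
    have u21 : ¬ (q.s x0 x2) := fun h => c92 u18 u12 h
    have u22 : ¬ (q.p x2 x0) := fun h => c100338 h u21 u20 u15
    have u23 : q.s x2 x3 := Classical.byContradiction fun h => q.xos x0 x2 x3 u21 h u4
    have u24 : q.s x2 x1 := Classical.byContradiction fun h => c100302 u21 h
    have u25 : ¬ (q.s x1 x2) := fun h => c100309 h u21
    have u26 : ¬ (q.p x2 x1) := fun h => q.xop x2 x0 x1 u22 u5 h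
    have u27 : q.pi x2 x3 := Classical.byContradiction fun h => q.xispi x2 x3 u23 h
    have u28 : q.m x2 x3 := Classical.byContradiction fun h => q.xism x2 x3 u23 h
    have u29 : q.m x2 x1 := Classical.byContradiction fun h => q.xism x2 x1 u24 h
    have u30 : q.be x2 x1 := Classical.byContradiction fun h => c100339 h u26 u25 u24
    have u31 : q.m x3 x1 := Classical.byContradiction fun h => q.xtm x3 x2 x1 u8 u29 h
    have u32 : ¬ (q.be x1 x3) := fun h => q.xtbe x2 x1 x3 u30 h a0
    have u33 : ¬ (q.m x1 x4) := fun h => q.xtm x3 x1 x4 u31 h u10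
    have u34 : ¬ (q.B x1 x3) := fun h => q.xiBbe x1 x3 h u32
    have u35 : ¬ (q.p x1 x4) := fun h => q.xipm x1 x4 h u33
    have u36 : ¬ (q.B x2 x3) := fun h => q.xoB x2 x1 x3 u19 u34 h
    have u37 : ¬ (q.p x2 x4) := fun h => q.xop x2 x1 x4 u26 u35 h
    have u38 : ¬ (q.B x2 x5) := fun h => q.xoB x2 x3 x5 u36 u6 h
    have u39 : ¬ (q.B x3 x2) := fun h => c100334 u17 h u36
    have u40 : ¬ (q.B x1 x2) := fun h => q.xoB x1 x3 x2 u34 u39 h
    have u41 : ¬ (q.B x1 x5) := fun h => q.xoB x1 x2 x5 u40 u38 h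
    have u42 : q.B x5 x4 := Classical.byContradiction fun h => q.xoB x1 x5 x4 u41 h u11
    have u43 : q.p x5 x4 := Classical.byContradiction fun h => q.xiBp x5 x4 u42 h
    have u44 : q.p x5 x2 := Classical.byContradiction fun h => q.xop x5 x2 x4 h u37 u43
    have u45 : q.s x5 x2 := Classical.byContradiction fun h => q.xips x5 x2 u44 h
    have u46 : q.pi x5 x2 := Classical.byContradiction fun h => q.xispi x5 x2 u45 h
    have u47 : q.pi x3 x2 := Classical.byContradiction fun h => q.xtpi x3 x5 x2 u7 u46 h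
    have u48 : q.s x3 x2 := Classical.byContradiction fun h => q.xnfs x3 x2 h u8 u47 u23
    have u49 : q.s x2 x2 := Classical.byContradiction fun h => q.xts x2 x3 x2 u23 u48 h
    have u50 : q.s x2 x0 := Classical.byContradiction fun h => q.xos x2 x0 x2 h u21 u49
    have u51 : ¬ (q.m x2 x0) := fun h => c100325 u50 h u20 u21 u15
    have u52 : ¬ (q.m x0 x2) := fun h => q.xnfs x0 x2 u21 h u15 u50
    have u53 : ¬ (q.m x2 x2) := fun h => q.xom x2 x0 x2 u51 u52 h
    have u54 : q.p x2 x3 := Classical.byContradiction fun h => q.xP x2 x3 x2 u28 u53 u27 a0 h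
    have u55 : q.p x0 x3 := Classical.byContradiction fun h => q.xop x2 x0 x3 u22 h u54
    have u56 : q.p x1 x3 := Classical.byContradiction fun h => c100312 h u55
    have u57 : q.pi x1 x3 := Classical.byContradiction fun h => q.xippi x1 x3 u56 h
    have u58 : q.m x1 x3 := Classical.byContradiction fun h => q.xipm x1 x3 u56 h
    have u59 : q.pi x1 x2 := Classical.byContradiction fun h => q.xtpi x1 x3 x2 u57 u47 h
    have u60 : q.m x1 x2 := Classical.byContradiction fun h => q.xtm x1 x3 x2 u58 u8 h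
    exact q.xnfs x1 x2 u25 u60 u59 u24
  have c100377 : q.be x0 x2 → q.m x4 x2 → ¬ (q.B x1 x3) → ¬ (q.B x1 x0) → q.B x3 x4 → False := by
    intro a0 a1 a2 a3 a4
    have u0 : q.m x3 x2 := Classical.byContradiction fun h => c100375 h
    have u1 : q.m x3 x5 := Classical.byContradiction fun h => c100357 h
    have u2 : ¬ ((¬ q.be x3 x1 ∨ ¬ q.m x3 x1)) := fun h => c100348 h
    have u3 : ¬ (q.B x3 x1) := fun h => c100353 h
    have u4 : q.be x0 x5 := Classical.byContradiction fun h => c100359 h
    have u5 : (¬ q.be x3 x4 ∨ ¬ q.m x3 x4) := Classical.byContradiction fun h => c100370 h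
    have u6 : ¬ (q.B x0 x1) := fun h => c100304 h
    have u7 : ¬ (q.B x3 x5) := fun h => c100354 h
    have u8 : q.pi x3 x5 := Classical.byContradiction fun h => c100358 h
    have u9 : q.s x0 x3 := Classical.byContradiction fun h => c100307 h
    have u10 : q.be x2 x3 := Classical.byContradiction fun h => c100376 h a4
    have u11 : ¬ (q.m x2 x3) := fun h => c100314 h u10
    have u12 : ¬ (q.s x2 x3) := fun h => q.xism x2 x3 h u11
    have u13 : q.s x0 x2 := Classical.byContradiction fun h => q.xos x0 x2 x3 h u12 u9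
    have u14 : q.be x3 x4 := Classical.byContradiction fun h => q.xiBbe x3 x4 a4 h
    have u15 : ¬ (q.m x3 x4) := fun h => c120 u5 u14 h
    have u16 : ¬ (q.s x3 x4) := fun h => q.xism x3 x4 h u15
    have u17 : ¬ (q.p x3 x4) := fun h => q.xips x3 x4 h u16
    have u18 : ¬ (q.p x2 x3) := fun h => q.xipm x2 x3 h u11
    have u19 : ¬ (q.p x2 x4) := fun h => q.xop x2 x3 x4 u18 u17 h
    have u20 : q.m x4 x5 := Classical.byContradiction fun h => q.xom x3 x4 x5 u15 h u1
    have u21 : ¬ (q.be x4 x5) := fun h => k1_3 u3 u2 u20 h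
    have u22 : ¬ (q.be x4 x0) := fun h => q.xtbe x4 x0 x5 h u4 u21
    have u23 : ¬ (q.m x2 x4) := fun h => q.xtm x3 x2 x4 u0 h u15
    have u24 : q.B x1 x4 := Classical.byContradiction fun h => q.xoB x3 x1 x4 u3 h a4
    have u25 : ¬ ((¬ q.be x0 x2 ∨ ¬ q.s x0 x2)) := fun h => c92 h a0 u13
    have u26 : x2 = x0 := Classical.byContradiction fun h => c100300 u6 h u25
    have u27 : ¬ (q.B x2 x1) := fun h => c100351 h u26
    have u28 : q.s x0 x0 := Classical.byContradiction fun h => eqR q.s (i := x2) (j := x0) x0 u26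
        u13 h
    have u29 : ¬ (q.B x0 x2) := fun h => c100315 h a3 u26
    have u30 : q.be x2 x0 := Classical.byContradiction fun h => c100322 u26 h a0
    have u31 : ¬ (q.B x2 x0) := fun h => q.xoB x2 x1 x0 u27 a3 h
    have u32 : ¬ (q.B x2 x3) := fun h => q.xoB x2 x1 x3 u27 a2 h
    have u33 : q.m x0 x0 := Classical.byContradiction fun h => q.xism x0 x0 u28 h
    have u34 : q.be x0 x0 := Classical.byContradiction fun h => eqL q.be (i := x2) (j := x0) x0
        u26 u30 h
    have u35 : ¬ (q.be x4 x2) := fun h => q.xtbe x4 x2 x0 h u30 u22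
    have u36 : ¬ (q.B x0 x0) := fun h => eqL' q.B (i := x2) (j := x0) x0 u26 u31 h
    have u37 : ¬ (q.B x2 x5) := fun h => q.xoB x2 x3 x5 u32 u7 h
    have u38 : ¬ (q.B x3 x2) := fun h => c100334 u29 h u32
    have u39 : q.m x2 x0 := Classical.byContradiction fun h => c100316 h u33 u26
    have u40 : q.C x0 x0 := Classical.byContradiction fun h => q.xL1b x0 x0 u28 u34 u36 h
    have u41 : ¬ (q.B x4 x2) := fun h => q.xiBbe x4 x2 h u35
    have u42 : ¬ (q.C x4 x2) := fun h => q.xiCbe x4 x2 h u35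
    have u43 : ¬ (q.B x1 x2) := fun h => q.xoB x1 x3 x2 a2 u38 h
    have u44 : q.m x3 x0 := Classical.byContradiction fun h => q.xom x2 x3 x0 u11 h u39
    have u45 : q.C x0 x2 := Classical.byContradiction fun h => eqR' q.C (i := x2) (j := x0) x0
        u26 h u40
    have u46 : q.A x4 x2 := Classical.byContradiction fun h => q.xnjm x4 x2 a1 h u41 u23
    have u47 : ¬ (q.B x1 x5) := fun h => q.xoB x1 x2 x5 u43 u37 h
    have u48 : q.C x2 x2 := Classical.byContradiction fun h => eqL' q.C (i := x2) (j := x0) x2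
        u26 h u45
    have u49 : q.al x4 x2 := Classical.byContradiction fun h => q.xiAal x4 x2 u46 h
    have u50 : q.B x5 x4 := Classical.byContradiction fun h => q.xoB x1 x5 x4 u47 h u24
    have u51 : q.C x2 x4 := Classical.byContradiction fun h => q.xoC x2 x4 x2 h u42 u48
    have u52 : q.p x5 x4 := Classical.byContradiction fun h => q.xiBp x5 x4 u50 h
    have u53 : ¬ (q.pi x4 x2) := fun h => q.xnfC x4 x2 u42 u49 h u51
    have u54 : q.p x5 x2 := Classical.byContradiction fun h => q.xop x5 x2 x4 h u19 u52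
    have u55 : ¬ (q.s x4 x2) := fun h => q.xispi x4 x2 h u53
    have u56 : q.s x5 x2 := Classical.byContradiction fun h => q.xips x5 x2 u54 h
    have u57 : q.s x0 x4 := Classical.byContradiction fun h => q.xos x0 x4 x2 h u55 u13
    have u58 : q.pi x5 x2 := Classical.byContradiction fun h => q.xispi x5 x2 u56 h
    have u59 : ¬ (q.s x3 x0) := fun h => q.xts x3 x0 x4 h u57 u16
    have u60 : q.pi x3 x2 := Classical.byContradiction fun h => q.xtpi x3 x5 x2 u8 u58 h
    have u61 : ¬ (q.pi x3 x0) := fun h => q.xnfs x3 x0 u59 u44 h u9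
    exact eqR q.pi (i := x2) (j := x0) x3 u26 u60 u61
  have c100378 : ¬ (q.be x4 x2) → q.C x2 x4 → q.pi x4 x2 → q.m x4 x2 → ¬ (q.m x2 x4) → False := by
    intro a0 a1 a2 a3 a4
    have u0 : ¬ (q.B x4 x2) := fun h => q.xiBbe x4 x2 h a0
    have u1 : ¬ (q.C x4 x2) := fun h => q.xiCbe x4 x2 h a0
    have u2 : q.A x4 x2 := Classical.byContradiction fun h => q.xnjm x4 x2 a3 h u0 a4
    have u3 : ¬ (q.al x4 x2) := fun h => q.xnfC x4 x2 u1 h a2 a1
    exact q.xiAal x4 x2 u2 u3
  have c100379 : q.B x0 x2 → ¬ (q.B x1 x0) → False := by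
    intro a0 a1
    have u0 : ¬ (q.B x0 x1) := fun h => c100304 h
    have u1 : x2 = x0 := Classical.byContradiction fun h => c100297 u0 h a0
    exact c100315 a0 a1 u1
  have c100380 : ¬ (q.B x2 x3) → ¬ (q.B x1 x3) → ¬ (q.B x1 x0) → q.B x3 x4 → False := by
    intro a0 a1 a2 a3
    have u0 : q.m x3 x5 := Classical.byContradiction fun h => c100357 h
    have u1 : ¬ ((¬ q.be x3 x1 ∨ ¬ q.m x3 x1)) := fun h => c100348 h
    have u2 : ¬ (q.B x3 x1) := fun h => c100353 h
    have u3 : q.be x3 x5 := Classical.byContradiction fun h => c100356 h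
    have u4 : (¬ q.be x3 x4 ∨ ¬ q.m x3 x4) := Classical.byContradiction fun h => c100370 h
    have u5 : q.s x0 x3 := Classical.byContradiction fun h => c100307 h
    have u6 : ¬ (q.B x3 x5) := fun h => c100354 h
    have u7 : q.m x3 x2 := Classical.byContradiction fun h => c100375 h
    have u8 : q.pi x3 x5 := Classical.byContradiction fun h => c100358 h
    have u9 : q.be x0 x5 := Classical.byContradiction fun h => c100359 h
    have u10 : q.m x0 x3 := Classical.byContradiction fun h => c100308 h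
    have u11 : ¬ (q.B x0 x2) := fun h => c100379 h a2
    have u12 : q.be x2 x3 := Classical.byContradiction fun h => c100376 h a3
    have u13 : ¬ (q.m x2 x3) := fun h => c100314 h u12
    have u14 : ¬ (q.s x2 x3) := fun h => q.xism x2 x3 h u13
    have u15 : q.s x0 x2 := Classical.byContradiction fun h => q.xos x0 x2 x3 h u14 u5
    have u16 : q.pi x0 x2 := Classical.byContradiction fun h => q.xispi x0 x2 u15 h
    have u17 : q.be x3 x4 := Classical.byContradiction fun h => q.xiBbe x3 x4 a3 h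
    have u18 : ¬ (q.m x3 x4) := fun h => c120 u4 u17 h
    have u19 : ¬ (q.s x3 x4) := fun h => q.xism x3 x4 h u18
    have u20 : ¬ (q.p x3 x4) := fun h => q.xips x3 x4 h u19
    have u21 : ¬ (q.p x2 x3) := fun h => q.xipm x2 x3 h u13
    have u22 : ¬ (q.p x2 x4) := fun h => q.xop x2 x3 x4 u21 u20 h
    have u23 : q.be x2 x5 := Classical.byContradiction fun h => q.xtbe x2 x3 x5 u12 u3 h
    have u24 : q.m x4 x5 := Classical.byContradiction fun h => q.xom x3 x4 x5 u18 h u0
    have u25 : ¬ (q.be x4 x5) := fun h => k1_3 u2 u1 u24 h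
    have u26 : ¬ (q.be x4 x0) := fun h => q.xtbe x4 x0 x5 h u9 u25
    have u27 : ¬ (q.C x4 x5) := fun h => q.xiCbe x4 x5 h u25
    have u28 : ¬ (q.m x2 x4) := fun h => q.xtm x3 x2 x4 u7 h u18
    have u29 : q.B x1 x4 := Classical.byContradiction fun h => q.xoB x3 x1 x4 u2 h a3
    have u30 : ¬ (q.B x2 x5) := fun h => q.xoB x2 x3 x5 a0 u6 h
    have u31 : ¬ (q.B x3 x2) := fun h => c100334 u11 h a0
    have u32 : q.A x3 x2 := Classical.byContradiction fun h => q.xnjm x3 x2 u7 h u31 u13
    have u33 : ¬ (q.B x1 x2) := fun h => q.xoB x1 x3 x2 a1 u31 h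
    have u34 : q.al x3 x2 := Classical.byContradiction fun h => q.xiAal x3 x2 u32 h
    have u35 : ¬ (q.B x1 x5) := fun h => q.xoB x1 x2 x5 u33 u30 h
    have u36 : q.B x5 x4 := Classical.byContradiction fun h => q.xoB x1 x5 x4 u35 h u29
    have u37 : q.p x5 x4 := Classical.byContradiction fun h => q.xiBp x5 x4 u36 h
    have u38 : q.p x5 x2 := Classical.byContradiction fun h => q.xop x5 x2 x4 h u22 u37
    have u39 : q.s x5 x2 := Classical.byContradiction fun h => q.xips x5 x2 u38 h
    have u40 : q.pi x5 x2 := Classical.byContradiction fun h => q.xispi x5 x2 u39 h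
    have u41 : q.m x5 x2 := Classical.byContradiction fun h => q.xism x5 x2 u39 h
    have u42 : q.pi x3 x2 := Classical.byContradiction fun h => q.xtpi x3 x5 x2 u8 u40 h
    have u43 : q.m x4 x2 := Classical.byContradiction fun h => q.xtm x4 x5 x2 u24 u41 h
    have u44 : q.be x3 x2 := Classical.byContradiction fun h => c100332 h u34 a0 u12 u42
    have u45 : ¬ (q.be x0 x2) := fun h => c100377 h u43 a1 a2 a3
    have u46 : q.be x3 x0 := Classical.byContradiction fun h => q.xobe x3 x0 x2 h u45 u44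
    have u47 : ¬ (q.p x1 x3) := fun h => c100346 u45 h
    have u48 : ¬ (q.be x5 x2) := fun h => q.xtbe x0 x5 x2 u9 h u45
    have u49 : q.p x0 x2 := Classical.byContradiction fun h => q.xPm x0 x3 x2 u10 u13 u16 u45 h
    have u50 : q.be x2 x0 := Classical.byContradiction fun h => q.xtbe x2 x3 x0 u12 u46 h
    have u51 : ¬ (q.p x0 x3) := fun h => c100312 u47 h
    have u52 : q.C x2 x5 := Classical.byContradiction fun h => q.xnjbe x2 x5 u23 u30 h u48
    have u53 : ¬ (q.be x4 x2) := fun h => q.xtbe x4 x2 x0 h u50 u26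
    have u54 : ¬ (q.p x0 x4) := fun h => q.xop x0 x3 x4 u51 u20 h
    have u55 : q.C x2 x4 := Classical.byContradiction fun h => q.xoC x2 x4 x5 h u27 u52
    have u56 : q.p x4 x2 := Classical.byContradiction fun h => q.xop x0 x4 x2 u54 h u49
    have u57 : ¬ (q.pi x4 x2) := fun h => c100378 u53 u55 h u43 u28
    exact q.xippi x4 x2 u56 u57
  have c100381 : q.B x2 x1 → ¬ (q.m x2 x3) → False := by
    intro a0 a1
    have u0 : q.s x0 x3 := Classical.byContradiction fun h => c100307 h
    have u1 : ¬ (q.B x0 x1) := fun h => c100304 h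
    have u2 : q.m x0 x3 := Classical.byContradiction fun h => c100308 h
    have u3 : ¬ (q.s x2 x3) := fun h => q.xism x2 x3 h a1
    have u4 : q.s x0 x2 := Classical.byContradiction fun h => q.xos x0 x2 x3 h u3 u0
    have u5 : q.pi x0 x2 := Classical.byContradiction fun h => q.xispi x0 x2 u4 h
    have u6 : q.m x2 x1 := Classical.byContradiction fun h => q.xiBm x2 x1 a0 h
    have u7 : q.B x2 x0 := Classical.byContradiction fun h => q.xoB x2 x0 x1 h u1 a0
    have u8 : ¬ (x2 = x0) := fun h => c100351 a0 h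
    have u9 : q.p x2 x0 := Classical.byContradiction fun h => q.xiBp x2 x0 u7 h
    have u10 : (¬ q.be x0 x2 ∨ ¬ q.s x0 x2) := Classical.byContradiction fun h => c100300 u1 u8 h
    have u11 : q.s x2 x0 := Classical.byContradiction fun h => q.xips x2 x0 u9 h
    have u12 : ¬ (q.be x0 x2) := fun h => c92 u10 h u4
    have u13 : q.pi x2 x1 := Classical.byContradiction fun h => c100331 h u12
    have u14 : q.p x0 x2 := Classical.byContradiction fun h => q.xPm x0 x3 x2 u2 a1 u5 u12 h
    have u15 : q.p x1 x2 := Classical.byContradiction fun h => c100294 h u14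
    have u16 : q.s x1 x2 := Classical.byContradiction fun h => q.xips x1 x2 u15 h
    have u17 : q.s x2 x1 := Classical.byContradiction fun h => q.xnfs x2 x1 h u6 u13 u16
    have u18 : q.s x1 x0 := Classical.byContradiction fun h => q.xts x1 x2 x0 u16 u11 h
    have u19 : ¬ (q.s x1 x3) := fun h => q.xts x2 x1 x3 u17 h u3
    exact c100313 u18 u19
  have c100382 : q.p x1 x3 → q.m x0 x1 → ¬ (q.m x2 x3) → False := by
    intro a0 a1 a2
    have u0 : q.s x0 x3 := Classical.byContradiction fun h => c100307 h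
    have u1 : ¬ (q.B x0 x1) := fun h => c100304 h
    have u2 : ¬ (q.s x2 x3) := fun h => q.xism x2 x3 h a2
    have u3 : q.s x0 x2 := Classical.byContradiction fun h => q.xos x0 x2 x3 h u2 u0
    have u4 : ¬ (q.p x2 x3) := fun h => q.xipm x2 x3 h a2
    have u5 : q.be x0 x2 := Classical.byContradiction fun h => c100346 h a0
    have u6 : ¬ ((¬ q.be x0 x2 ∨ ¬ q.s x0 x2)) := fun h => c92 h u5 u3
    have u7 : x2 = x0 := Classical.byContradiction fun h => c100300 u1 h u6
    have u8 : q.C x2 x1 := Classical.byContradiction fun h => c100301 u7 h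
    have u9 : q.s x0 x0 := Classical.byContradiction fun h => eqR q.s (i := x2) (j := x0) x0 u7
        u3 h
    have u10 : q.pi x2 x1 := Classical.byContradiction fun h => q.xiCpi x2 x1 u8 h
    have u11 : q.m x0 x0 := Classical.byContradiction fun h => q.xism x0 x0 u9 h
    have u12 : ¬ (q.m x2 x1) := fun h => c100317 a0 h u10 u2 u4
    have u13 : q.m x2 x0 := Classical.byContradiction fun h => c100316 h u11 u7
    exact q.xtm x2 x0 x1 u13 a1 u12
  have c100383 : q.m x0 x1 → q.B x3 x4 → False := by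
    intro a0 a1
    have u0 : q.be x2 x3 := Classical.byContradiction fun h => c100376 h a1
    have u1 : ¬ (q.m x2 x3) := fun h => c100314 h u0
    have u2 : ¬ (q.B x2 x1) := fun h => c100381 h u1
    have u3 : ¬ (q.B x1 x0) := fun h => c100310 a0 h
    have u4 : ¬ (q.p x1 x3) := fun h => c100382 h a0 u1
    have u5 : ¬ (q.B x1 x3) := fun h => q.xiBp x1 x3 h u4
    have u6 : q.B x2 x3 := Classical.byContradiction fun h => c100380 h u5 u3 a1
    exact q.xoB x2 x1 x3 u2 u5 u6
  have c100384 : q.B x3 x4 → False := by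
    intro a0
    have u0 : q.m x3 x2 := Classical.byContradiction fun h => c100375 h
    have u1 : ¬ (q.B x0 x1) := fun h => c100304 h
    have u2 : q.s x0 x3 := Classical.byContradiction fun h => c100307 h
    have u3 : q.m x0 x3 := Classical.byContradiction fun h => c100308 h
    have u4 : q.be x2 x3 := Classical.byContradiction fun h => c100376 h a0
    have u5 : ¬ (q.m x2 x3) := fun h => c100314 h u4
    have u6 : ¬ (q.p x2 x3) := fun h => q.xipm x2 x3 h u5
    have u7 : ¬ (q.A x2 x3) := fun h => q.xiAm x2 x3 h u5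
    have u8 : ¬ (q.s x2 x3) := fun h => q.xism x2 x3 h u5
    have u9 : q.s x0 x2 := Classical.byContradiction fun h => q.xos x0 x2 x3 h u8 u2
    have u10 : ¬ (q.m x0 x1) := fun h => c100383 h a0
    have u11 : ¬ (q.m x3 x1) := fun h => q.xtm x0 x3 x1 u3 h u10
    have u12 : ¬ (q.s x3 x1) := fun h => q.xism x3 x1 h u11
    have u13 : ¬ (q.m x2 x1) := fun h => q.xtm x3 x2 x1 u0 h u11
    have u14 : ¬ (q.s x3 x0) := fun h => c100292 h u12
    have u15 : q.be x0 x2 := Classical.byContradiction fun h => c100330 u13 h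
    have u16 : ¬ ((¬ q.be x0 x2 ∨ ¬ q.s x0 x2)) := fun h => c92 h u15 u9
    have u17 : x2 = x0 := Classical.byContradiction fun h => c100300 u1 h u16
    have u18 : ¬ (q.A x0 x3) := fun h => eqL' q.A (i := x2) (j := x0) x3 u17 u7 h
    have u19 : q.s x0 x0 := Classical.byContradiction fun h => eqR q.s (i := x2) (j := x0) x0 u17
        u9 h
    have u20 : q.pi x0 x0 := Classical.byContradiction fun h => q.xispi x0 x0 u19 h
    have u21 : q.m x0 x0 := Classical.byContradiction fun h => q.xism x0 x0 u19 h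
    have u22 : q.pi x2 x0 := Classical.byContradiction fun h => eqL' q.pi (i := x2) (j := x0) x0
        u17 h u20
    have u23 : q.m x2 x0 := Classical.byContradiction fun h => c100316 h u21 u17
    have u24 : q.m x3 x0 := Classical.byContradiction fun h => q.xom x2 x3 x0 u5 h u23
    have u25 : ¬ (q.pi x3 x0) := fun h => q.xnfs x3 x0 u14 u24 h u2
    have u26 : q.pi x2 x3 := Classical.byContradiction fun h => q.xopi x2 x3 x0 h u25 u22
    have u27 : ¬ (q.pi x3 x2) := fun h => eqR q.pi (i := x2) (j := x0) x3 u17 h u25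
    have u28 : ¬ (q.s x3 x2) := fun h => q.xispi x3 x2 h u27
    have u29 : q.C x2 x3 := Classical.byContradiction fun h => q.xnjpi x2 x3 u26 u6 h u27
    have u30 : ¬ (q.B x0 x2) := fun h => c100336 h u28
    have u31 : q.al x2 x3 := Classical.byContradiction fun h => q.xiCal x2 x3 u29 h
    have u32 : ¬ (q.B x2 x2) := fun h => eqL q.B (i := x2) (j := x0) x2 u17 h u30
    have u33 : q.al x0 x3 := Classical.byContradiction fun h => eqL q.al (i := x2) (j := x0) x3
        u17 u31 h
    have u34 : ¬ (q.A x3 x0) := fun h => q.xnfA x0 x3 u18 u33 u3 h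
    have u35 : ¬ (q.A x3 x2) := fun h => eqR q.A (i := x2) (j := x0) x3 u17 h u34
    have u36 : q.B x3 x2 := Classical.byContradiction fun h => c100337 u5 u35 h u28
    have u37 : ¬ (q.B x2 x3) := fun h => q.xtB x2 x3 x2 h u36 u32
    exact c100334 u30 u36 u37
  have c100385 : ¬ (q.m x3 x1) → ¬ (q.B x2 x3) → ¬ (q.m x2 x3) → False := by
    intro a0 a1 a2
    have u0 : ¬ (q.B x0 x1) := fun h => c100304 h
    have u1 : q.s x0 x3 := Classical.byContradiction fun h => c100307 h
    have u2 : q.m x3 x2 := Classical.byContradiction fun h => c100375 h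
    have u3 : q.m x0 x3 := Classical.byContradiction fun h => c100308 h
    have u4 : ¬ (q.s x2 x3) := fun h => q.xism x2 x3 h a2
    have u5 : q.s x0 x2 := Classical.byContradiction fun h => q.xos x0 x2 x3 h u4 u1
    have u6 : ¬ (q.A x2 x3) := fun h => q.xiAm x2 x3 h a2
    have u7 : ¬ (q.p x2 x3) := fun h => q.xipm x2 x3 h a2
    have u8 : ¬ (q.s x3 x1) := fun h => q.xism x3 x1 h a0
    have u9 : ¬ (q.m x2 x1) := fun h => q.xtm x3 x2 x1 u2 h a0
    have u10 : ¬ (q.s x3 x0) := fun h => c100292 h u8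
    have u11 : q.be x0 x2 := Classical.byContradiction fun h => c100330 u9 h
    have u12 : ¬ ((¬ q.be x0 x2 ∨ ¬ q.s x0 x2)) := fun h => c92 h u11 u5
    have u13 : x2 = x0 := Classical.byContradiction fun h => c100300 u0 h u12
    have u14 : ¬ (q.A x0 x3) := fun h => eqL' q.A (i := x2) (j := x0) x3 u13 u6 h
    have u15 : q.s x0 x0 := Classical.byContradiction fun h => eqR q.s (i := x2) (j := x0) x0 u13
        u5 h
    have u16 : q.pi x0 x0 := Classical.byContradiction fun h => q.xispi x0 x0 u15 h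
    have u17 : q.m x0 x0 := Classical.byContradiction fun h => q.xism x0 x0 u15 h
    have u18 : q.pi x2 x0 := Classical.byContradiction fun h => eqL' q.pi (i := x2) (j := x0) x0
        u13 h u16
    have u19 : q.m x2 x0 := Classical.byContradiction fun h => c100316 h u17 u13
    have u20 : q.m x3 x0 := Classical.byContradiction fun h => q.xom x2 x3 x0 a2 h u19
    have u21 : ¬ (q.pi x3 x0) := fun h => q.xnfs x3 x0 u10 u20 h u1
    have u22 : q.pi x2 x3 := Classical.byContradiction fun h => q.xopi x2 x3 x0 h u21 u18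
    have u23 : ¬ (q.pi x3 x2) := fun h => eqR q.pi (i := x2) (j := x0) x3 u13 h u21
    have u24 : ¬ (q.s x3 x2) := fun h => q.xispi x3 x2 h u23
    have u25 : q.C x2 x3 := Classical.byContradiction fun h => q.xnjpi x2 x3 u22 u7 h u23
    have u26 : ¬ (q.B x0 x2) := fun h => c100336 h u24
    have u27 : q.al x2 x3 := Classical.byContradiction fun h => q.xiCal x2 x3 u25 h
    have u28 : ¬ (q.B x3 x2) := fun h => c100334 u26 h a1
    have u29 : q.al x0 x3 := Classical.byContradiction fun h => eqL q.al (i := x2) (j := x0) x3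
        u13 u27 h
    have u30 : q.A x3 x2 := Classical.byContradiction fun h => q.xnjm x3 x2 u2 h u28 a2
    have u31 : ¬ (q.A x3 x0) := fun h => q.xnfA x0 x3 u14 u29 u3 h
    exact eqR q.A (i := x2) (j := x0) x3 u13 u30 u31
  have c100386 : q.s x1 x2 → ¬ (q.s x2 x2) → q.m x2 x1 → q.pi x2 x1 → False := by
    intro a0 a1 a2 a3
    have u0 : q.s x2 x1 := Classical.byContradiction fun h => q.xnfs x2 x1 h a2 a3 a0
    exact q.xts x2 x1 x2 u0 a0 a1
  have c100387 : ¬ (q.be x4 x2) → q.m x4 x2 → q.C x2 x4 → q.s x3 x0 → q.be x3 x2 → q.s x0 x2 →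
      False := by
    intro a0 a1 a2 a3 a4 a5
    have u0 : (¬ q.be x3 x4 ∨ ¬ q.m x3 x4) := Classical.byContradiction fun h => c100370 h
    have u1 : q.m x3 x2 := Classical.byContradiction fun h => c100375 h
    have u2 : q.be x3 x4 := Classical.byContradiction fun h => q.xobe x3 x4 x2 h a0 a4
    have u3 : ¬ (q.m x3 x4) := fun h => c120 u0 u2 h
    have u4 : ¬ (q.s x3 x4) := fun h => q.xism x3 x4 h u3
    have u5 : ¬ (q.m x2 x4) := fun h => q.xtm x3 x2 x4 u1 h u3
    have u6 : ¬ (q.s x0 x4) := fun h => q.xts x3 x0 x4 a3 h u4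
    have u7 : ¬ (q.pi x4 x2) := fun h => c100378 a0 a2 h a1 u5
    have u8 : q.s x4 x2 := Classical.byContradiction fun h => q.xos x0 x4 x2 u6 h a5
    exact q.xispi x4 x2 u8 u7
  have c100388 : q.be x4 x0 → q.s x3 x0 → False := by
    intro a0 a1
    have u0 : q.be x0 x3 := Classical.byContradiction fun h => c100306 h
    have u1 : q.be x0 x5 := Classical.byContradiction fun h => c100359 h
    have u2 : ¬ (q.B x3 x1) := fun h => c100353 h
    have u3 : ¬ ((¬ q.be x3 x1 ∨ ¬ q.m x3 x1)) := fun h => c100348 h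
    have u4 : q.m x3 x5 := Classical.byContradiction fun h => c100357 h
    have u5 : (¬ q.be x3 x4 ∨ ¬ q.m x3 x4) := Classical.byContradiction fun h => c100370 h
    have u6 : ¬ (q.B x3 x4) := fun h => c100384 h
    have u7 : q.s x0 x3 := Classical.byContradiction fun h => c100307 h
    have u8 : q.be x4 x3 := Classical.byContradiction fun h => q.xtbe x4 x0 x3 a0 u0 h
    have u9 : q.be x4 x5 := Classical.byContradiction fun h => q.xtbe x4 x0 x5 a0 u1 h
    have u10 : ¬ (q.m x4 x5) := fun h => k1_3 u2 u3 h u9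
    have u11 : q.m x3 x4 := Classical.byContradiction fun h => q.xom x3 x4 x5 h u10 u4
    have u12 : ¬ (q.m x4 x3) := fun h => q.xtm x4 x3 x5 h u4 u10
    have u13 : ¬ (q.be x3 x4) := fun h => c120 u5 h u11
    have u14 : ¬ (q.s x4 x3) := fun h => q.xism x4 x3 h u12
    have u15 : ¬ (q.B x4 x3) := fun h => q.xiBm x4 x3 h u12
    have u16 : q.A x3 x4 := Classical.byContradiction fun h => q.xnjm x3 x4 u11 h u6 u12
    have u17 : ¬ (q.C x3 x4) := fun h => q.xiCbe x3 x4 h u13
    have u18 : q.C x4 x3 := Classical.byContradiction fun h => q.xnjbe x4 x3 u8 u15 h u13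
    have u19 : q.s x0 x4 := Classical.byContradiction fun h => q.xos x0 x4 x3 h u14 u7
    have u20 : q.al x3 x4 := Classical.byContradiction fun h => q.xiAal x3 x4 u16 h
    have u21 : ¬ (q.pi x3 x4) := fun h => q.xnfC x3 x4 u17 u20 h u18
    have u22 : q.s x3 x4 := Classical.byContradiction fun h => q.xts x3 x0 x4 a1 u19 h
    exact q.xispi x3 x4 u22 u21
  have c100389 : ¬ (q.pi x3 x2) → q.be x0 x2 → ¬ (q.B x1 x3) → ¬ (q.m x2 x3) → False := by
    intro a0 a1 a2 a3
    have u0 : q.m x3 x2 := Classical.byContradiction fun h => c100375 h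
    have u1 : q.m x0 x3 := Classical.byContradiction fun h => c100308 h
    have u2 : ¬ (q.B x0 x1) := fun h => c100304 h
    have u3 : q.pi x3 x5 := Classical.byContradiction fun h => c100358 h
    have u4 : (¬ q.be x3 x4 ∨ ¬ q.m x3 x4) := Classical.byContradiction fun h => c100370 h
    have u5 : q.m x3 x5 := Classical.byContradiction fun h => c100357 h
    have u6 : ¬ (q.B x3 x1) := fun h => c100353 h
    have u7 : ¬ ((¬ q.be x3 x1 ∨ ¬ q.m x3 x1)) := fun h => c100348 h
    have u8 : q.s x0 x3 := Classical.byContradiction fun h => c100307 h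
    have u9 : ¬ (q.B x2 x1) := fun h => c100381 h a3
    have u10 : ¬ (q.B x2 x3) := fun h => q.xoB x2 x1 x3 u9 a2 h
    have u11 : ¬ (q.s x2 x3) := fun h => q.xism x2 x3 h a3
    have u12 : q.s x0 x2 := Classical.byContradiction fun h => q.xos x0 x2 x3 h u11 u8
    have u13 : ¬ ((¬ q.be x0 x2 ∨ ¬ q.s x0 x2)) := fun h => c92 h a1 u12
    have u14 : x2 = x0 := Classical.byContradiction fun h => c100300 u2 h u13
    have u15 : q.be x2 x3 := Classical.byContradiction fun h => c100362 h u14
    have u16 : ¬ (q.A x2 x3) := fun h => q.xiAm x2 x3 h a3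
    have u17 : ¬ (q.A x0 x3) := fun h => eqL' q.A (i := x2) (j := x0) x3 u14 u16 h
    have u18 : q.m x3 x1 := Classical.byContradiction fun h => c100385 h u10 a3
    have u19 : q.m x0 x1 := Classical.byContradiction fun h => q.xtm x0 x3 x1 u1 u18 h
    have u20 : ¬ (q.B x1 x0) := fun h => c100310 u19 h
    have u21 : ¬ (q.B x0 x2) := fun h => c100379 h u20
    have u22 : ¬ (q.B x3 x2) := fun h => c100334 u21 h u10
    have u23 : q.A x3 x2 := Classical.byContradiction fun h => q.xnjm x3 x2 u0 h u22 a3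
    have u24 : q.A x3 x0 := Classical.byContradiction fun h => eqR q.A (i := x2) (j := x0) x3 u14
        u23 h
    have u25 : ¬ (q.al x0 x3) := fun h => q.xnfA x0 x3 u17 h u1 u24
    have u26 : ¬ (q.al x2 x3) := fun h => eqL q.al (i := x2) (j := x0) x3 u14 h u25
    have u27 : ¬ (q.C x2 x3) := fun h => q.xiCal x2 x3 h u26
    have u28 : q.be x3 x2 := Classical.byContradiction fun h => q.xnjbe x2 x3 u15 u10 u27 h
    have u29 : q.s x0 x0 := Classical.byContradiction fun h => eqR q.s (i := x2) (j := x0) x0 u14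
        u12 h
    have u30 : q.be x2 x0 := Classical.byContradiction fun h => c100322 u14 h a1
    have u31 : q.be x0 x0 := Classical.byContradiction fun h => eqL q.be (i := x2) (j := x0) x0
        u14 u30 h
    have u32 : ¬ (q.B x2 x0) := fun h => q.xoB x2 x1 x0 u9 u20 h
    have u33 : ¬ (q.B x0 x0) := fun h => eqL' q.B (i := x2) (j := x0) x0 u14 u32 h
    have u34 : q.C x0 x0 := Classical.byContradiction fun h => q.xL1b x0 x0 u29 u31 u33 h
    have u35 : q.C x0 x2 := Classical.byContradiction fun h => eqR' q.C (i := x2) (j := x0) x0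
        u14 h u34
    have u36 : q.C x2 x2 := Classical.byContradiction fun h => eqL' q.C (i := x2) (j := x0) x2
        u14 h u35
    have u37 : q.m x0 x0 := Classical.byContradiction fun h => q.xism x0 x0 u29 h
    have u38 : q.m x2 x0 := Classical.byContradiction fun h => c100316 h u37 u14
    have u39 : q.m x3 x0 := Classical.byContradiction fun h => q.xom x2 x3 x0 a3 h u38
    have u40 : q.pi x0 x0 := Classical.byContradiction fun h => q.xispi x0 x0 u29 h
    have u41 : q.pi x2 x0 := Classical.byContradiction fun h => eqL' q.pi (i := x2) (j := x0) x0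
        u14 h u40
    have u42 : ¬ (q.p x2 x3) := fun h => q.xipm x2 x3 h a3
    have u43 : ¬ (q.pi x5 x2) := fun h => q.xtpi x3 x5 x2 u3 h a0
    have u44 : ¬ (q.pi x2 x3) := fun h => q.xnjpi x2 x3 h u42 u27 a0
    have u45 : ¬ (q.s x5 x2) := fun h => q.xispi x5 x2 h u43
    have u46 : q.pi x3 x0 := Classical.byContradiction fun h => q.xopi x2 x3 x0 u44 h u41
    have u47 : ¬ (q.p x5 x2) := fun h => q.xips x5 x2 h u45
    have u48 : q.s x3 x0 := Classical.byContradiction fun h => q.xnfs x3 x0 h u39 u46 u8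
    have u49 : ¬ (q.B x5 x2) := fun h => q.xiBp x5 x2 h u47
    have u50 : ¬ (q.B x5 x1) := fun h => q.xoB x5 x2 x1 u49 u9 h
    have u51 : ¬ (q.B x5 x3) := fun h => q.xoB x5 x1 x3 u50 a2 h
    have u52 : ¬ (q.be x4 x0) := fun h => c100388 h u48
    have u53 : ¬ (q.be x4 x2) := fun h => q.xtbe x4 x2 x0 h u30 u52
    have u54 : ¬ (q.C x4 x2) := fun h => q.xiCbe x4 x2 h u53
    have u55 : q.be x3 x4 := Classical.byContradiction fun h => q.xobe x3 x4 x2 h u53 u28
    have u56 : ¬ (q.m x3 x4) := fun h => c120 u4 u55 h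
    have u57 : q.m x4 x5 := Classical.byContradiction fun h => q.xom x3 x4 x5 u56 h u5
    have u58 : ¬ (q.s x3 x4) := fun h => q.xism x3 x4 h u56
    have u59 : ¬ (q.be x4 x5) := fun h => k1_3 u6 u7 u57 h
    have u60 : ¬ (q.s x0 x4) := fun h => q.xts x3 x0 x4 u48 h u58
    have u61 : ¬ (q.B x4 x5) := fun h => q.xiBbe x4 x5 h u59
    have u62 : q.s x4 x2 := Classical.byContradiction fun h => q.xos x0 x4 x2 u60 h u12
    have u63 : q.s x4 x3 := Classical.byContradiction fun h => q.xos x0 x4 x3 u60 h u8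
    have u64 : ¬ (q.B x4 x3) := fun h => q.xoB x4 x5 x3 u61 u51 h
    have u65 : q.pi x4 x2 := Classical.byContradiction fun h => q.xispi x4 x2 u62 h
    have u66 : q.m x4 x3 := Classical.byContradiction fun h => q.xism x4 x3 u63 h
    have u67 : q.A x4 x3 := Classical.byContradiction fun h => q.xnjm x4 x3 u66 h u64 u56
    have u68 : q.A x4 x2 := Classical.byContradiction fun h => q.xtA x4 x3 x2 u67 u23 h
    have u69 : q.al x4 x2 := Classical.byContradiction fun h => q.xiAal x4 x2 u68 h
    have u70 : q.C x2 x4 := Classical.byContradiction fun h => q.xoC x2 x4 x2 h u54 u36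
    exact q.xnfC x4 x2 u54 u69 u65 u70
  have c100390 : q.be x0 x2 → ¬ (q.B x1 x3) → ¬ (q.m x2 x3) → False := by
    intro a0 a1 a2
    have u0 : q.m x3 x2 := Classical.byContradiction fun h => c100375 h
    have u1 : ¬ (q.B x0 x1) := fun h => c100304 h
    have u2 : q.m x0 x3 := Classical.byContradiction fun h => c100308 h
    have u3 : (¬ q.be x3 x4 ∨ ¬ q.m x3 x4) := Classical.byContradiction fun h => c100370 h
    have u4 : q.m x3 x5 := Classical.byContradiction fun h => c100357 h
    have u5 : ¬ (q.B x3 x1) := fun h => c100353 h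
    have u6 : ¬ ((¬ q.be x3 x1 ∨ ¬ q.m x3 x1)) := fun h => c100348 h
    have u7 : q.s x0 x3 := Classical.byContradiction fun h => c100307 h
    have u8 : ¬ (q.B x2 x1) := fun h => c100381 h a2
    have u9 : ¬ (q.B x2 x3) := fun h => q.xoB x2 x1 x3 u8 a1 h
    have u10 : q.m x3 x1 := Classical.byContradiction fun h => c100385 h u9 a2
    have u11 : q.m x0 x1 := Classical.byContradiction fun h => q.xtm x0 x3 x1 u2 u10 h
    have u12 : ¬ (q.B x1 x0) := fun h => c100310 u11 h
    have u13 : ¬ (q.B x0 x2) := fun h => c100379 h u12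
    have u14 : ¬ (q.B x3 x2) := fun h => c100334 u13 h u9
    have u15 : q.A x3 x2 := Classical.byContradiction fun h => q.xnjm x3 x2 u0 h u14 a2
    have u16 : ¬ (q.B x2 x0) := fun h => q.xoB x2 x1 x0 u8 u12 h
    have u17 : ¬ (q.s x2 x3) := fun h => q.xism x2 x3 h a2
    have u18 : q.s x0 x2 := Classical.byContradiction fun h => q.xos x0 x2 x3 h u17 u7
    have u19 : ¬ (q.A x2 x3) := fun h => q.xiAm x2 x3 h a2
    have u20 : ¬ ((¬ q.be x0 x2 ∨ ¬ q.s x0 x2)) := fun h => c92 h a0 u18
    have u21 : x2 = x0 := Classical.byContradiction fun h => c100300 u1 h u20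
    have u22 : q.be x2 x3 := Classical.byContradiction fun h => c100362 h u21
    have u23 : ¬ (q.A x0 x3) := fun h => eqL' q.A (i := x2) (j := x0) x3 u21 u19 h
    have u24 : q.s x0 x0 := Classical.byContradiction fun h => eqR q.s (i := x2) (j := x0) x0 u21
        u18 h
    have u25 : q.be x2 x0 := Classical.byContradiction fun h => c100322 u21 h a0
    have u26 : q.be x0 x0 := Classical.byContradiction fun h => eqL q.be (i := x2) (j := x0) x0
        u21 u25 h
    have u27 : ¬ (q.B x0 x0) := fun h => eqL' q.B (i := x2) (j := x0) x0 u21 u16 h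
    have u28 : q.A x3 x0 := Classical.byContradiction fun h => eqR q.A (i := x2) (j := x0) x3 u21
        u15 h
    have u29 : q.m x0 x0 := Classical.byContradiction fun h => q.xism x0 x0 u24 h
    have u30 : q.C x0 x0 := Classical.byContradiction fun h => q.xL1b x0 x0 u24 u26 u27 h
    have u31 : ¬ (q.al x0 x3) := fun h => q.xnfA x0 x3 u23 h u2 u28
    have u32 : q.m x2 x0 := Classical.byContradiction fun h => c100316 h u29 u21
    have u33 : q.C x0 x2 := Classical.byContradiction fun h => eqR' q.C (i := x2) (j := x0) x0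
        u21 h u30
    have u34 : ¬ (q.al x2 x3) := fun h => eqL q.al (i := x2) (j := x0) x3 u21 h u31
    have u35 : q.m x3 x0 := Classical.byContradiction fun h => q.xom x2 x3 x0 a2 h u32
    have u36 : q.C x2 x2 := Classical.byContradiction fun h => eqL' q.C (i := x2) (j := x0) x2
        u21 h u33
    have u37 : ¬ (q.C x2 x3) := fun h => q.xiCal x2 x3 h u34
    have u38 : q.be x3 x2 := Classical.byContradiction fun h => q.xnjbe x2 x3 u22 u9 u37 h
    have u39 : q.pi x3 x2 := Classical.byContradiction fun h => c100389 h a0 a1 a2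
    have u40 : q.pi x3 x0 := Classical.byContradiction fun h => eqR q.pi (i := x2) (j := x0) x3
        u21 u39 h
    have u41 : q.s x3 x0 := Classical.byContradiction fun h => q.xnfs x3 x0 h u35 u40 u7
    have u42 : ¬ (q.be x4 x0) := fun h => c100388 h u41
    have u43 : ¬ (q.be x4 x2) := fun h => q.xtbe x4 x2 x0 h u25 u42
    have u44 : ¬ (q.C x4 x2) := fun h => q.xiCbe x4 x2 h u43
    have u45 : q.be x3 x4 := Classical.byContradiction fun h => q.xobe x3 x4 x2 h u43 u38
    have u46 : q.C x2 x4 := Classical.byContradiction fun h => q.xoC x2 x4 x2 h u44 u36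
    have u47 : ¬ (q.m x3 x4) := fun h => c120 u3 u45 h
    have u48 : ¬ (q.m x4 x2) := fun h => c100387 u43 h u46 u41 u38 u18
    have u49 : q.m x4 x5 := Classical.byContradiction fun h => q.xom x3 x4 x5 u47 h u4
    have u50 : ¬ (q.s x3 x4) := fun h => q.xism x3 x4 h u47
    have u51 : ¬ (q.m x5 x2) := fun h => q.xtm x4 x5 x2 u49 h u48
    have u52 : ¬ (q.be x4 x5) := fun h => k1_3 u5 u6 u49 h
    have u53 : ¬ (q.s x0 x4) := fun h => q.xts x3 x0 x4 u41 h u50
    have u54 : ¬ (q.s x5 x2) := fun h => q.xism x5 x2 h u51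
    have u55 : ¬ (q.B x4 x5) := fun h => q.xiBbe x4 x5 h u52
    have u56 : q.s x4 x2 := Classical.byContradiction fun h => q.xos x0 x4 x2 u53 h u18
    have u57 : q.s x4 x3 := Classical.byContradiction fun h => q.xos x0 x4 x3 u53 h u7
    have u58 : ¬ (q.p x5 x2) := fun h => q.xips x5 x2 h u54
    have u59 : q.pi x4 x2 := Classical.byContradiction fun h => q.xispi x4 x2 u56 h
    have u60 : q.m x4 x3 := Classical.byContradiction fun h => q.xism x4 x3 u57 h
    have u61 : ¬ (q.B x5 x2) := fun h => q.xiBp x5 x2 h u58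
    have u62 : ¬ (q.al x4 x2) := fun h => q.xnfC x4 x2 u44 h u59 u46
    have u63 : ¬ (q.B x5 x1) := fun h => q.xoB x5 x2 x1 u61 u8 h
    have u64 : ¬ (q.A x4 x2) := fun h => q.xiAal x4 x2 h u62
    have u65 : ¬ (q.B x5 x3) := fun h => q.xoB x5 x1 x3 u63 a1 h
    have u66 : ¬ (q.A x4 x3) := fun h => q.xtA x4 x3 x2 h u15 u64
    have u67 : ¬ (q.B x4 x3) := fun h => q.xoB x4 x5 x3 u55 u65 h
    exact q.xnjm x4 x3 u60 u66 u67 u47
  have c100392 : ¬ (q.be x4 x2) → q.be x3 x2 → q.C x2 x5 → q.p x0 x2 → ¬ (q.p x0 x3) → q.m x3 x1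
      → False := by
    intro a0 a1 a2 a3 a4 a5
    have u0 : (¬ q.be x3 x4 ∨ ¬ q.m x3 x4) := Classical.byContradiction fun h => c100370 h
    have u1 : q.m x3 x5 := Classical.byContradiction fun h => c100357 h
    have u2 : q.m x3 x2 := Classical.byContradiction fun h => c100375 h
    have u3 : ¬ (q.B x3 x1) := fun h => c100353 h
    have u4 : ¬ ((¬ q.be x3 x1 ∨ ¬ q.m x3 x1)) := fun h => c100348 h
    have u5 : q.p x1 x2 := Classical.byContradiction fun h => c100294 h a3
    have u6 : q.s x1 x2 := Classical.byContradiction fun h => q.xips x1 x2 u5 h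
    have u7 : q.m x1 x2 := Classical.byContradiction fun h => q.xism x1 x2 u6 h
    have u8 : q.be x3 x4 := Classical.byContradiction fun h => q.xobe x3 x4 x2 h a0 a1
    have u9 : ¬ (q.m x3 x4) := fun h => c120 u0 u8 h
    have u10 : q.m x4 x5 := Classical.byContradiction fun h => q.xom x3 x4 x5 u9 h u1
    have u11 : ¬ (q.s x3 x4) := fun h => q.xism x3 x4 h u9
    have u12 : ¬ (q.m x2 x4) := fun h => q.xtm x3 x2 x4 u2 h u9
    have u13 : ¬ (q.m x1 x4) := fun h => q.xtm x3 x1 x4 a5 h u9
    have u14 : ¬ (q.be x4 x5) := fun h => k1_3 u3 u4 u10 h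
    have u15 : ¬ (q.p x3 x4) := fun h => q.xips x3 x4 h u11
    have u16 : q.m x4 x2 := Classical.byContradiction fun h => q.xom x1 x4 x2 u13 h u7
    have u17 : ¬ (q.C x4 x5) := fun h => q.xiCbe x4 x5 h u14
    have u18 : ¬ (q.p x0 x4) := fun h => q.xop x0 x3 x4 a4 u15 h
    have u19 : q.C x2 x4 := Classical.byContradiction fun h => q.xoC x2 x4 x5 h u17 a2
    have u20 : q.p x4 x2 := Classical.byContradiction fun h => q.xop x0 x4 x2 u18 h a3
    have u21 : ¬ (q.pi x4 x2) := fun h => c100378 a0 u19 h u16 u12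
    exact q.xippi x4 x2 u20 u21
  have c100393 : ¬ (q.B x1 x3) → ¬ (q.m x2 x3) → False := by
    intro a0 a1
    have u0 : ¬ (q.B x3 x5) := fun h => c100354 h
    have u1 : q.m x3 x2 := Classical.byContradiction fun h => c100375 h
    have u2 : q.be x3 x5 := Classical.byContradiction fun h => c100356 h
    have u3 : q.be x0 x3 := Classical.byContradiction fun h => c100306 h
    have u4 : q.be x0 x5 := Classical.byContradiction fun h => c100359 h
    have u5 : ¬ (q.B x3 x1) := fun h => c100353 h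
    have u6 : ¬ ((¬ q.be x3 x1 ∨ ¬ q.m x3 x1)) := fun h => c100348 h
    have u7 : q.m x3 x5 := Classical.byContradiction fun h => c100357 h
    have u8 : (¬ q.be x3 x4 ∨ ¬ q.m x3 x4) := Classical.byContradiction fun h => c100370 h
    have u9 : ¬ (q.B x3 x4) := fun h => c100384 h
    have u10 : q.s x0 x3 := Classical.byContradiction fun h => c100307 h
    have u11 : q.m x0 x3 := Classical.byContradiction fun h => c100308 h
    have u12 : ¬ (q.s x2 x3) := fun h => q.xism x2 x3 h a1
    have u13 : q.s x0 x2 := Classical.byContradiction fun h => q.xos x0 x2 x3 h u12 u10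
    have u14 : q.pi x0 x2 := Classical.byContradiction fun h => q.xispi x0 x2 u13 h
    have u15 : ¬ (q.B x2 x1) := fun h => c100381 h a1
    have u16 : ¬ (q.B x2 x3) := fun h => q.xoB x2 x1 x3 u15 a0 h
    have u17 : ¬ (q.B x2 x5) := fun h => q.xoB x2 x3 x5 u16 u0 h
    have u18 : q.m x3 x1 := Classical.byContradiction fun h => c100385 h u16 a1
    have u19 : q.m x0 x1 := Classical.byContradiction fun h => q.xtm x0 x3 x1 u11 u18 h
    have u20 : ¬ (q.B x1 x0) := fun h => c100310 u19 h
    have u21 : ¬ (q.p x1 x3) := fun h => c100382 h u19 a1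
    have u22 : ¬ (q.B x0 x2) := fun h => c100379 h u20
    have u23 : ¬ (q.p x0 x3) := fun h => c100312 u21 h
    have u24 : ¬ (q.B x3 x2) := fun h => c100334 u22 h u16
    have u25 : q.A x3 x2 := Classical.byContradiction fun h => q.xnjm x3 x2 u1 h u24 a1
    have u26 : q.al x3 x2 := Classical.byContradiction fun h => q.xiAal x3 x2 u25 h
    have u27 : ¬ (q.be x0 x2) := fun h => c100390 h a0 a1
    have u28 : q.be x2 x3 := Classical.byContradiction fun h => q.xobe x0 x2 x3 u27 h u3
    have u29 : q.m x2 x1 := Classical.byContradiction fun h => c100330 h u27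
    have u30 : q.pi x2 x1 := Classical.byContradiction fun h => c100331 h u27
    have u31 : ¬ (q.be x5 x2) := fun h => q.xtbe x0 x5 x2 u4 h u27
    have u32 : q.p x0 x2 := Classical.byContradiction fun h => q.xPm x0 x3 x2 u11 a1 u14 u27 h
    have u33 : q.be x2 x5 := Classical.byContradiction fun h => q.xtbe x2 x3 x5 u28 u2 h
    have u34 : q.C x2 x5 := Classical.byContradiction fun h => q.xnjbe x2 x5 u33 u17 h u31
    have u35 : q.p x1 x2 := Classical.byContradiction fun h => c100294 h u32
    have u36 : q.s x1 x2 := Classical.byContradiction fun h => q.xips x1 x2 u35 h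
    have u37 : q.s x2 x2 := Classical.byContradiction fun h => c100386 u36 h u29 u30
    have u38 : q.s x3 x2 := Classical.byContradiction fun h => q.xos x2 x3 x2 u12 h u37
    have u39 : q.pi x3 x2 := Classical.byContradiction fun h => q.xispi x3 x2 u38 h
    have u40 : q.be x3 x2 := Classical.byContradiction fun h => c100332 h u26 u16 u28 u39
    have u41 : q.be x3 x0 := Classical.byContradiction fun h => q.xobe x3 x0 x2 h u27 u40
    have u42 : q.be x2 x0 := Classical.byContradiction fun h => q.xtbe x2 x3 x0 u28 u41 h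
    have u43 : q.be x4 x2 := Classical.byContradiction fun h => c100392 h u40 u34 u32 u23 u18
    have u44 : ¬ (q.be x0 x4) := fun h => q.xtbe x0 x4 x2 h u43 u27
    have u45 : q.be x4 x0 := Classical.byContradiction fun h => q.xtbe x4 x2 x0 u43 u42 h
    have u46 : q.be x4 x3 := Classical.byContradiction fun h => q.xtbe x4 x0 x3 u45 u3 h
    have u47 : q.be x4 x5 := Classical.byContradiction fun h => q.xtbe x4 x0 x5 u45 u4 h
    have u48 : ¬ (q.m x4 x5) := fun h => k1_3 u5 u6 h u47
    have u49 : q.m x3 x4 := Classical.byContradiction fun h => q.xom x3 x4 x5 h u48 u7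
    have u50 : ¬ (q.m x4 x3) := fun h => q.xtm x4 x3 x5 h u7 u48
    have u51 : ¬ (q.be x3 x4) := fun h => c120 u8 h u49
    have u52 : ¬ (q.s x4 x3) := fun h => q.xism x4 x3 h u50
    have u53 : ¬ (q.B x4 x3) := fun h => q.xiBm x4 x3 h u50
    have u54 : q.A x3 x4 := Classical.byContradiction fun h => q.xnjm x3 x4 u49 h u9 u50
    have u55 : ¬ (q.C x3 x4) := fun h => q.xiCbe x3 x4 h u51
    have u56 : q.C x4 x3 := Classical.byContradiction fun h => q.xnjbe x4 x3 u46 u53 h u51
    have u57 : q.s x0 x4 := Classical.byContradiction fun h => q.xos x0 x4 x3 h u52 u10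
    have u58 : q.al x3 x4 := Classical.byContradiction fun h => q.xiAal x3 x4 u54 h
    have u59 : ¬ (q.pi x3 x4) := fun h => q.xnfC x3 x4 u55 u58 h u56
    have u60 : q.pi x0 x4 := Classical.byContradiction fun h => q.xispi x0 x4 u57 h
    have u61 : ¬ (q.s x3 x4) := fun h => q.xispi x3 x4 h u59
    have u62 : q.p x0 x4 := Classical.byContradiction fun h => q.xPm x0 x3 x4 u11 u50 u60 u44 h
    have u63 : ¬ (q.p x3 x4) := fun h => q.xips x3 x4 h u61
    exact q.xop x0 x3 x4 u23 u63 u62
  have c100394 : ¬ (q.m x2 x3) → False := by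
    intro a0
    have u0 : ¬ (q.B x0 x1) := fun h => c100304 h
    have u1 : q.s x0 x3 := Classical.byContradiction fun h => c100307 h
    have u2 : q.m x0 x3 := Classical.byContradiction fun h => c100308 h
    have u3 : q.m x3 x2 := Classical.byContradiction fun h => c100375 h
    have u4 : ¬ (q.p x2 x3) := fun h => q.xipm x2 x3 h a0
    have u5 : ¬ (q.A x2 x3) := fun h => q.xiAm x2 x3 h a0
    have u6 : ¬ (q.s x2 x3) := fun h => q.xism x2 x3 h a0
    have u7 : q.s x0 x2 := Classical.byContradiction fun h => q.xos x0 x2 x3 h u6 u1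
    have u8 : q.B x1 x3 := Classical.byContradiction fun h => c100393 h a0
    have u9 : q.p x1 x3 := Classical.byContradiction fun h => q.xiBp x1 x3 u8 h
    have u10 : q.be x0 x2 := Classical.byContradiction fun h => c100346 h u9
    have u11 : ¬ (q.m x0 x1) := fun h => c100382 u9 h a0
    have u12 : ¬ ((¬ q.be x0 x2 ∨ ¬ q.s x0 x2)) := fun h => c92 h u10 u7
    have u13 : ¬ (q.m x3 x1) := fun h => q.xtm x0 x3 x1 u2 h u11
    have u14 : x2 = x0 := Classical.byContradiction fun h => c100300 u0 h u12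
    have u15 : ¬ (q.s x3 x1) := fun h => q.xism x3 x1 h u13
    have u16 : q.B x2 x3 := Classical.byContradiction fun h => c100385 u13 h a0
    have u17 : ¬ (q.A x0 x3) := fun h => eqL' q.A (i := x2) (j := x0) x3 u14 u5 h
    have u18 : q.s x0 x0 := Classical.byContradiction fun h => eqR q.s (i := x2) (j := x0) x0 u14
        u7 h
    have u19 : ¬ (q.s x3 x0) := fun h => c100292 h u15
    have u20 : q.pi x0 x0 := Classical.byContradiction fun h => q.xispi x0 x0 u18 h
    have u21 : q.m x0 x0 := Classical.byContradiction fun h => q.xism x0 x0 u18 h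
    have u22 : q.pi x2 x0 := Classical.byContradiction fun h => eqL' q.pi (i := x2) (j := x0) x0
        u14 h u20
    have u23 : q.m x2 x0 := Classical.byContradiction fun h => c100316 h u21 u14
    have u24 : q.m x3 x0 := Classical.byContradiction fun h => q.xom x2 x3 x0 a0 h u23
    have u25 : ¬ (q.pi x3 x0) := fun h => q.xnfs x3 x0 u19 u24 h u1
    have u26 : ¬ (q.pi x3 x2) := fun h => eqR q.pi (i := x2) (j := x0) x3 u14 h u25
    have u27 : q.pi x2 x3 := Classical.byContradiction fun h => q.xopi x2 x3 x0 h u25 u22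
    have u28 : ¬ (q.s x3 x2) := fun h => q.xispi x3 x2 h u26
    have u29 : q.C x2 x3 := Classical.byContradiction fun h => q.xnjpi x2 x3 u27 u4 h u26
    have u30 : ¬ (q.B x0 x2) := fun h => c100336 h u28
    have u31 : q.al x2 x3 := Classical.byContradiction fun h => q.xiCal x2 x3 u29 h
    have u32 : ¬ (q.B x2 x2) := fun h => eqL q.B (i := x2) (j := x0) x2 u14 h u30
    have u33 : q.al x0 x3 := Classical.byContradiction fun h => eqL q.al (i := x2) (j := x0) x3
        u14 u31 h
    have u34 : ¬ (q.B x3 x2) := fun h => q.xtB x2 x3 x2 u16 h u32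
    have u35 : ¬ (q.A x3 x0) := fun h => q.xnfA x0 x3 u17 u33 u2 h
    have u36 : q.A x3 x2 := Classical.byContradiction fun h => q.xnjm x3 x2 u3 h u34 a0
    exact eqR q.A (i := x2) (j := x0) x3 u14 u36 u35
  have c100395 : q.be x2 x3 → False := by
    intro a0
    have u0 : q.m x2 x3 := Classical.byContradiction fun h => c100394 h
    exact c100314 u0 a0
  have c100396 : ¬ (q.be x0 x2) → False := by
    intro a0
    have u0 : ¬ (q.be x2 x3) := fun h => c100395 h
    have u1 : q.be x0 x3 := Classical.byContradiction fun h => c100306 h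
    exact q.xobe x0 x2 x3 a0 u0 u1
  have c100397 : q.be x2 x0 → False := by
    intro a0
    have u0 : ¬ (q.be x2 x3) := fun h => c100395 h
    have u1 : q.be x0 x3 := Classical.byContradiction fun h => c100306 h
    exact q.xtbe x2 x0 x3 a0 u1 u0
  have c100398 : x2 = x0 → False := by
    intro a0
    have u0 : ¬ (q.be x2 x3) := fun h => c100395 h
    exact c100362 u0 a0
  have c100399 : ¬ (q.pi x0 x2) → False := by
    intro a0
    have u0 : q.be x0 x2 := Classical.byContradiction fun h => c100396 h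
    exact q.xibepi x0 x2 u0 a0
  have c100400 : q.B x2 x0 → False := by
    intro a0
    have u0 : ¬ (q.be x2 x0) := fun h => c100397 h
    exact q.xiBbe x2 x0 a0 u0
  have c100402 : q.B x0 x2 → False := by
    intro a0
    have u0 : ¬ (x2 = x0) := fun h => c100398 h
    have u1 : ¬ (q.B x0 x1) := fun h => c100304 h
    exact c100297 u1 u0 a0
  have c100403 : ¬ ((¬ q.be x0 x2 ∨ ¬ q.s x0 x2)) → False := by
    intro a0
    have u0 : ¬ (x2 = x0) := fun h => c100398 h
    have u1 : ¬ (q.B x0 x1) := fun h => c100304 h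
    exact c100300 u1 u0 a0
  have c100404 : q.B x2 x1 → False := by
    intro a0
    have u0 : ¬ (q.B x2 x0) := fun h => c100400 h
    have u1 : ¬ (q.B x0 x1) := fun h => c100304 h
    exact q.xoB x2 x0 x1 u0 u1 a0
  have c100405 : ¬ (q.C x0 x2) → False := by
    intro a0
    have u0 : ¬ (q.B x0 x2) := fun h => c100402 h
    have u1 : ¬ (q.be x2 x0) := fun h => c100397 h
    have u2 : q.be x0 x2 := Classical.byContradiction fun h => c100396 h
    exact q.xnjbe x0 x2 u2 u0 a0 u1
  have c100406 : q.s x0 x2 → False := by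
    intro a0
    have u0 : (¬ q.be x0 x2 ∨ ¬ q.s x0 x2) := Classical.byContradiction fun h => c100403 h
    have u1 : q.be x0 x2 := Classical.byContradiction fun h => c100396 h
    exact c92 u0 u1 a0
  have c100407 : q.p x2 x0 → False := by
    intro a0
    have u0 : q.C x0 x2 := Classical.byContradiction fun h => c100405 h
    have u1 : ¬ (q.s x0 x2) := fun h => c100406 h
    have u2 : q.pi x0 x2 := Classical.byContradiction fun h => c100399 h
    exact c100338 a0 u1 u0 u2
  have c100408 : ¬ (q.s x2 x3) → False := by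
    intro a0
    have u0 : ¬ (q.s x0 x2) := fun h => c100406 h
    have u1 : q.s x0 x3 := Classical.byContradiction fun h => c100307 h
    exact q.xos x0 x2 x3 u0 a0 u1
  have c100409 : ¬ (q.s x2 x1) → False := by
    intro a0
    have u0 : ¬ (q.s x0 x2) := fun h => c100406 h
    exact c100302 u0 a0
  have c100410 : q.s x1 x2 → False := by
    intro a0
    have u0 : ¬ (q.s x0 x2) := fun h => c100406 h
    exact c100309 a0 u0
  have c100411 : q.p x2 x1 → False := by
    intro a0
    have u0 : ¬ (q.p x2 x0) := fun h => c100407 h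
    have u1 : ¬ (q.p x0 x1) := fun h => c288 h
    exact q.xop x2 x0 x1 u0 u1 a0
  have c100412 : ¬ (q.pi x2 x3) → False := by
    intro a0
    have u0 : q.s x2 x3 := Classical.byContradiction fun h => c100408 h
    exact q.xispi x2 x3 u0 a0
  have c100414 : ¬ (q.m x2 x1) → False := by
    intro a0
    have u0 : q.s x2 x1 := Classical.byContradiction fun h => c100409 h
    exact q.xism x2 x1 u0 a0
  have c100416 : ¬ (q.be x2 x1) → False := by
    intro a0
    have u0 : ¬ (q.s x1 x2) := fun h => c100410 h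
    have u1 : ¬ (q.p x2 x1) := fun h => c100411 h
    have u2 : q.s x2 x1 := Classical.byContradiction fun h => c100409 h
    exact c100339 a0 u1 u0 u2
  have c100418 : ¬ (q.m x3 x1) → False := by
    intro a0
    have u0 : q.m x2 x1 := Classical.byContradiction fun h => c100414 h
    have u1 : q.m x3 x2 := Classical.byContradiction fun h => c100375 h
    exact q.xtm x3 x2 x1 u1 u0 a0
  have c100420 : q.be x1 x3 → False := by
    intro a0
    have u0 : q.be x2 x1 := Classical.byContradiction fun h => c100416 h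
    have u1 : ¬ (q.be x2 x3) := fun h => c100395 h
    exact q.xtbe x2 x1 x3 u0 a0 u1
  have c100421 : ¬ (q.be x3 x1) → False := by
    intro a0
    have u0 : q.be x2 x1 := Classical.byContradiction fun h => c100416 h
    have u1 : ¬ (q.be x2 x3) := fun h => c100395 h
    exact q.xobe x2 x3 x1 u1 a0 u0
  have c100422 : ¬ (q.m x0 x1) → False := by
    intro a0
    have u0 : q.m x3 x1 := Classical.byContradiction fun h => c100418 h
    have u1 : q.m x0 x3 := Classical.byContradiction fun h => c100308 h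
    exact q.xtm x0 x3 x1 u1 u0 a0
  have c100423 : q.B x1 x3 → False := by
    intro a0
    have u0 : ¬ (q.be x1 x3) := fun h => c100420 h
    exact q.xiBbe x1 x3 a0 u0
  have c100426 : ¬ (q.C x3 x1) → False := by
    intro a0
    have u0 : ¬ (q.be x1 x3) := fun h => c100420 h
    have u1 : q.be x3 x1 := Classical.byContradiction fun h => c100421 h
    have u2 : ¬ (q.B x3 x1) := fun h => c100353 h
    exact q.xnjbe x3 x1 u1 u2 a0 u0
  have c100427 : q.B x1 x0 → False := by
    intro a0
    have u0 : q.m x0 x1 := Classical.byContradiction fun h => c100422 h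
    exact c100310 u0 a0
  have c100428 : q.B x2 x3 → False := by
    intro a0
    have u0 : ¬ (q.B x1 x3) := fun h => c100423 h
    have u1 : ¬ (q.B x2 x1) := fun h => c100404 h
    exact q.xoB x2 x1 x3 u1 u0 a0
  have c100431 : q.B x0 x3 → False := by
    intro a0
    have u0 : ¬ (q.B x2 x3) := fun h => c100428 h
    have u1 : ¬ (q.B x0 x2) := fun h => c100402 h
    exact q.xoB x0 x2 x3 u1 u0 a0
  have c100434 : q.B x0 x4 → False := by
    intro a0
    have u0 : ¬ (q.B x0 x3) := fun h => c100431 h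
    have u1 : ¬ (q.B x3 x4) := fun h => c100384 h
    exact q.xoB x0 x3 x4 u0 u1 a0
  have c100436 : q.B x1 x4 → False := by
    intro a0
    have u0 : ¬ (q.B x0 x4) := fun h => c100434 h
    have u1 : ¬ (q.B x1 x0) := fun h => c100427 h
    exact q.xoB x1 x0 x4 u1 u0 a0
  have c100437 : q.p x1 x3 → ¬ (q.m x4 x3) → ¬ (q.be x3 x4) → False := by
    intro a0 a1 a2
    have u0 : q.C x3 x1 := Classical.byContradiction fun h => c100426 h
    have u1 : ¬ (q.be x1 x3) := fun h => c100420 h
    have u2 : q.m x2 x3 := Classical.byContradiction fun h => c100394 h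
    have u3 : q.m x3 x2 := Classical.byContradiction fun h => c100375 h
    have u4 : ¬ (q.B x1 x4) := fun h => c100436 h
    have u5 : ¬ (q.m x4 x2) := fun h => q.xtm x4 x2 x3 h u2 a1
    have u6 : ¬ (q.s x4 x3) := fun h => q.xism x4 x3 h a1
    have u7 : ¬ (q.be x1 x4) := fun h => q.xobe x1 x3 x4 u1 a2 h
    have u8 : ¬ (q.C x1 x4) := fun h => q.xiCbe x1 x4 h u7
    have u9 : ¬ (q.C x3 x4) := fun h => q.xiCbe x3 x4 h a2
    have u10 : q.C x4 x1 := Classical.byContradiction fun h => q.xoC x3 x4 x1 u9 h u0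
    have u11 : q.s x1 x3 := Classical.byContradiction fun h => q.xips x1 x3 a0 h
    have u12 : q.m x1 x3 := Classical.byContradiction fun h => q.xipm x1 x3 a0 h
    have u13 : q.s x1 x4 := Classical.byContradiction fun h => q.xos x1 x4 x3 h u6 u11
    have u14 : q.m x1 x2 := Classical.byContradiction fun h => q.xtm x1 x3 x2 u12 u3 h
    have u15 : ¬ (q.m x4 x1) := fun h => q.xtm x4 x1 x3 h u12 a1
    have u16 : q.pi x1 x4 := Classical.byContradiction fun h => q.xispi x1 x4 u13 h
    have u17 : q.m x1 x4 := Classical.byContradiction fun h => q.xom x1 x4 x2 h u5 u14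
    have u18 : ¬ (q.al x1 x4) := fun h => q.xnfC x1 x4 u8 h u16 u10
    have u19 : q.A x1 x4 := Classical.byContradiction fun h => q.xnjm x1 x4 u17 h u4 u15
    exact q.xiAal x1 x4 u19 u18
  have c100438 : ¬ (q.m x4 x3) → q.m x3 x4 → False := by
    intro a0 a1
    have u0 : (¬ q.be x3 x4 ∨ ¬ q.m x3 x4) := Classical.byContradiction fun h => c100370 h
    have u1 : ¬ (q.B x3 x4) := fun h => c100384 h
    have u2 : q.s x0 x3 := Classical.byContradiction fun h => c100307 h
    have u3 : ¬ (q.p x2 x0) := fun h => c100407 h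
    have u4 : q.m x2 x3 := Classical.byContradiction fun h => c100394 h
    have u5 : ¬ (q.be x2 x3) := fun h => c100395 h
    have u6 : q.pi x2 x3 := Classical.byContradiction fun h => c100412 h
    have u7 : q.m x3 x2 := Classical.byContradiction fun h => c100375 h
    have u8 : q.s x2 x3 := Classical.byContradiction fun h => c100408 h
    have u9 : q.C x0 x2 := Classical.byContradiction fun h => c100405 h
    have u10 : ¬ (q.s x0 x2) := fun h => c100406 h
    have u11 : q.pi x0 x2 := Classical.byContradiction fun h => c100399 h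
    have u12 : ¬ (q.be x3 x4) := fun h => c120 u0 h a1
    have u13 : ¬ (q.be x2 x4) := fun h => q.xobe x2 x3 x4 u5 u12 h
    have u14 : ¬ (q.C x2 x4) := fun h => q.xiCbe x2 x4 h u13
    have u15 : ¬ (q.C x3 x4) := fun h => q.xiCbe x3 x4 h u12
    have u16 : ¬ (q.s x4 x3) := fun h => q.xism x4 x3 h a0
    have u17 : ¬ (q.m x4 x2) := fun h => q.xtm x4 x2 x3 h u4 a0
    have u18 : q.A x3 x4 := Classical.byContradiction fun h => q.xnjm x3 x4 a1 h u1 a0
    have u19 : q.s x0 x4 := Classical.byContradiction fun h => q.xos x0 x4 x3 h u16 u2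
    have u20 : q.al x3 x4 := Classical.byContradiction fun h => q.xiAal x3 x4 u18 h
    have u21 : q.s x2 x4 := Classical.byContradiction fun h => q.xos x0 x2 x4 u10 h u19
    have u22 : q.pi x2 x4 := Classical.byContradiction fun h => q.xispi x2 x4 u21 h
    have u23 : ¬ (q.p x1 x3) := fun h => c100437 h a0 u12
    have u24 : ¬ (q.p x0 x3) := fun h => c100312 u23 h
    have u25 : ¬ (q.p x2 x3) := fun h => q.xop x2 x0 x3 u3 u24 h
    have u26 : q.m x2 x2 := Classical.byContradiction fun h => q.xP x2 x3 x2 u4 h u6 u5 u25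
    have u27 : q.p x2 x4 := Classical.byContradiction fun h => q.xPm x2 x2 x4 u26 u17 u22 u13 h
    have u28 : q.p x3 x4 := Classical.byContradiction fun h => q.xop x2 x3 x4 u25 h u27
    have u29 : q.s x3 x4 := Classical.byContradiction fun h => q.xips x3 x4 u28 h
    have u30 : q.pi x3 x4 := Classical.byContradiction fun h => q.xispi x3 x4 u29 h
    have u31 : ¬ (q.C x4 x3) := fun h => q.xnfC x3 x4 u15 u20 u30 h
    have u32 : ¬ (q.C x2 x3) := fun h => q.xoC x2 x4 x3 u14 u31 h
    have u33 : q.pi x3 x2 := Classical.byContradiction fun h => q.xnjpi x2 x3 u6 u25 u32 h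
    have u34 : q.s x3 x2 := Classical.byContradiction fun h => q.xnfs x3 x2 h u7 u33 u8
    have u35 : q.s x2 x2 := Classical.byContradiction fun h => q.xts x2 x3 x2 u8 u34 h
    have u36 : q.s x2 x0 := Classical.byContradiction fun h => q.xos x2 x0 x2 h u10 u35
    have u37 : ¬ (q.m x2 x0) := fun h => c100325 u36 h u9 u10 u11
    have u38 : ¬ (q.m x0 x2) := fun h => q.xnfs x0 x2 u10 h u11 u36
    exact q.xom x2 x0 x2 u37 u38 u26
  have c100439 : q.pi x3 x2 → False := by
    intro a0
    have u0 : q.s x2 x3 := Classical.byContradiction fun h => c100408 h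
    have u1 : q.C x0 x2 := Classical.byContradiction fun h => c100405 h
    have u2 : ¬ (q.s x0 x2) := fun h => c100406 h
    have u3 : q.pi x0 x2 := Classical.byContradiction fun h => c100399 h
    have u4 : q.m x2 x3 := Classical.byContradiction fun h => c100394 h
    have u5 : ¬ (q.be x2 x3) := fun h => c100395 h
    have u6 : q.pi x2 x3 := Classical.byContradiction fun h => c100412 h
    have u7 : ¬ (q.p x2 x0) := fun h => c100407 h
    have u8 : q.m x3 x2 := Classical.byContradiction fun h => c100375 h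
    have u9 : q.s x2 x1 := Classical.byContradiction fun h => c100409 h
    have u10 : ¬ (q.s x1 x2) := fun h => c100410 h
    have u11 : q.s x3 x2 := Classical.byContradiction fun h => q.xnfs x3 x2 h u8 a0 u0
    have u12 : q.s x2 x2 := Classical.byContradiction fun h => q.xts x2 x3 x2 u0 u11 h
    have u13 : q.s x2 x0 := Classical.byContradiction fun h => q.xos x2 x0 x2 h u2 u12
    have u14 : ¬ (q.m x2 x0) := fun h => c100325 u13 h u1 u2 u3
    have u15 : ¬ (q.m x0 x2) := fun h => q.xnfs x0 x2 u2 h u3 u13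
    have u16 : ¬ (q.m x2 x2) := fun h => q.xom x2 x0 x2 u14 u15 h
    have u17 : q.p x2 x3 := Classical.byContradiction fun h => q.xP x2 x3 x2 u4 u16 u6 u5 h
    have u18 : q.p x0 x3 := Classical.byContradiction fun h => q.xop x2 x0 x3 u7 h u17
    have u19 : q.p x1 x3 := Classical.byContradiction fun h => c100312 h u18
    have u20 : q.pi x1 x3 := Classical.byContradiction fun h => q.xippi x1 x3 u19 h
    have u21 : q.m x1 x3 := Classical.byContradiction fun h => q.xipm x1 x3 u19 h
    have u22 : q.pi x1 x2 := Classical.byContradiction fun h => q.xtpi x1 x3 x2 u20 a0 h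
    have u23 : q.m x1 x2 := Classical.byContradiction fun h => q.xtm x1 x3 x2 u21 u8 h
    exact q.xnfs x1 x2 u10 u23 u22 u9
  have c100441 : q.pi x5 x2 → False := by
    intro a0
    have u0 : ¬ (q.pi x3 x2) := fun h => c100439 h
    have u1 : q.pi x3 x5 := Classical.byContradiction fun h => c100358 h
    exact q.xtpi x3 x5 x2 u1 a0 u0
  have c100442 : q.s x5 x2 → False := by
    intro a0
    have u0 : ¬ (q.pi x5 x2) := fun h => c100441 h
    exact q.xispi x5 x2 a0 u0
  have c100443 : q.be x5 x2 → False := by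
    intro a0
    have u0 : ¬ (q.pi x5 x2) := fun h => c100441 h
    exact q.xibepi x5 x2 a0 u0
  have c100444 : q.p x5 x2 → False := by
    intro a0
    have u0 : ¬ (q.s x5 x2) := fun h => c100442 h
    exact q.xips x5 x2 a0 u0
  have c100445 : q.be x5 x3 → False := by
    intro a0
    have u0 : ¬ (q.be x5 x2) := fun h => c100443 h
    have u1 : ¬ (q.be x2 x3) := fun h => c100395 h
    exact q.xobe x5 x2 x3 u0 u1 a0
  have c100446 : q.B x5 x2 → False := by
    intro a0
    have u0 : ¬ (q.p x5 x2) := fun h => c100444 h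
    exact q.xiBp x5 x2 a0 u0
  have c100447 : ¬ (q.C x3 x5) → False := by
    intro a0
    have u0 : ¬ (q.be x5 x3) := fun h => c100445 h
    have u1 : ¬ (q.B x3 x5) := fun h => c100354 h
    have u2 : q.be x3 x5 := Classical.byContradiction fun h => c100356 h
    exact q.xnjbe x3 x5 u2 u1 a0 u0
  have c100448 : q.B x5 x1 → False := by
    intro a0
    have u0 : ¬ (q.B x5 x2) := fun h => c100446 h
    have u1 : ¬ (q.B x2 x1) := fun h => c100404 h
    exact q.xoB x5 x2 x1 u0 u1 a0
  have c100449 : q.B x5 x3 → False := by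
    intro a0
    have u0 : ¬ (q.B x5 x1) := fun h => c100448 h
    have u1 : ¬ (q.B x1 x3) := fun h => c100423 h
    exact q.xoB x5 x1 x3 u0 u1 a0
  have c100450 : q.m x3 x4 → False := by
    intro a0
    have u0 : (¬ q.be x3 x4 ∨ ¬ q.m x3 x4) := Classical.byContradiction fun h => c100370 h
    have u1 : q.m x3 x5 := Classical.byContradiction fun h => c100357 h
    have u2 : q.C x3 x5 := Classical.byContradiction fun h => c100447 h
    have u3 : ¬ (q.B x3 x1) := fun h => c100353 h
    have u4 : ¬ ((¬ q.be x3 x1 ∨ ¬ q.m x3 x1)) := fun h => c100348 h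
    have u5 : ¬ (q.be x3 x4) := fun h => c120 u0 h a0
    have u6 : q.m x4 x3 := Classical.byContradiction fun h => c100438 h a0
    have u7 : ¬ (q.C x3 x4) := fun h => q.xiCbe x3 x4 h u5
    have u8 : q.m x4 x5 := Classical.byContradiction fun h => q.xtm x4 x3 x5 u6 u1 h
    have u9 : q.C x4 x5 := Classical.byContradiction fun h => q.xoC x3 x4 x5 u7 h u2
    have u10 : ¬ (q.be x4 x5) := fun h => k1_3 u3 u4 u8 h
    exact q.xiCbe x4 x5 u9 u10
  have c100451 : ¬ (q.m x4 x5) → False := by
    intro a0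
    have u0 : ¬ (q.m x3 x4) := fun h => c100450 h
    have u1 : q.m x3 x5 := Classical.byContradiction fun h => c100357 h
    exact q.xom x3 x4 x5 u0 a0 u1
  have c100453 : q.m x2 x4 → False := by
    intro a0
    have u0 : ¬ (q.m x3 x4) := fun h => c100450 h
    have u1 : q.m x3 x2 := Classical.byContradiction fun h => c100375 h
    exact q.xtm x3 x2 x4 u1 a0 u0
  have c100456 : q.be x4 x5 → False := by
    intro a0
    have u0 : q.m x4 x5 := Classical.byContradiction fun h => c100451 h
    have u1 : ¬ ((¬ q.be x3 x1 ∨ ¬ q.m x3 x1)) := fun h => c100348 h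
    have u2 : ¬ (q.B x3 x1) := fun h => c100353 h
    exact k1_3 u2 u1 u0 a0
  have c100458 : q.s x2 x4 → False := by
    intro a0
    have u0 : ¬ (q.m x2 x4) := fun h => c100453 h
    exact q.xism x2 x4 a0 u0
  have c100460 : q.B x4 x5 → False := by
    intro a0
    have u0 : ¬ (q.be x4 x5) := fun h => c100456 h
    exact q.xiBbe x4 x5 a0 u0
  have c100461 : q.C x4 x5 → False := by
    intro a0
    have u0 : ¬ (q.be x4 x5) := fun h => c100456 h
    exact q.xiCbe x4 x5 a0 u0
  have c100463 : q.s x0 x4 → False := by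
    intro a0
    have u0 : ¬ (q.s x2 x4) := fun h => c100458 h
    have u1 : ¬ (q.s x0 x2) := fun h => c100406 h
    exact q.xos x0 x2 x4 u1 u0 a0
  have c100465 : q.B x4 x3 → False := by
    intro a0
    have u0 : ¬ (q.B x4 x5) := fun h => c100460 h
    have u1 : ¬ (q.B x5 x3) := fun h => c100449 h
    exact q.xoB x4 x5 x3 u0 u1 a0
  have c100466 : ¬ (q.C x3 x4) → False := by
    intro a0
    have u0 : ¬ (q.C x4 x5) := fun h => c100461 h
    have u1 : q.C x3 x5 := Classical.byContradiction fun h => c100447 h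
    exact q.xoC x3 x4 x5 a0 u0 u1
  have c100467 : q.C x4 x3 → False := by
    intro a0
    have u0 : ¬ (q.C x4 x5) := fun h => c100461 h
    have u1 : q.C x3 x5 := Classical.byContradiction fun h => c100447 h
    exact q.xtC x4 x3 x5 a0 u1 u0
  have c100468 : ¬ (q.s x4 x3) → False := by
    intro a0
    have u0 : ¬ (q.s x0 x4) := fun h => c100463 h
    have u1 : q.s x0 x3 := Classical.byContradiction fun h => c100307 h
    exact q.xos x0 x4 x3 u0 a0 u1
  have c100471 : ¬ (q.m x4 x3) → False := by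
    intro a0
    have u0 : q.s x4 x3 := Classical.byContradiction fun h => c100468 h
    exact q.xism x4 x3 u0 a0
  have c100472 : ¬ (q.pi x4 x3) → False := by
    intro a0
    have u0 : q.s x4 x3 := Classical.byContradiction fun h => c100468 h
    exact q.xispi x4 x3 u0 a0
  have c100474 : ¬ (q.A x4 x3) → False := by
    intro a0
    have u0 : q.m x4 x3 := Classical.byContradiction fun h => c100471 h
    have u1 : ¬ (q.B x4 x3) := fun h => c100465 h
    have u2 : ¬ (q.m x3 x4) := fun h => c100450 h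
    exact q.xnjm x4 x3 u0 a0 u1 u2
  have c100475 : q.al x4 x3 → False := by
    intro a0
    have u0 : q.pi x4 x3 := Classical.byContradiction fun h => c100472 h
    have u1 : ¬ (q.C x4 x3) := fun h => c100467 h
    have u2 : q.C x3 x4 := Classical.byContradiction fun h => c100466 h
    exact q.xnfC x4 x3 u1 a0 u0 u2
  have u0 : q.A x4 x3 := Classical.byContradiction fun h => c100474 h
  have u1 : ¬ (q.al x4 x3) := fun h => c100475 h
  exact q.xiAal x4 x3 u0 u1

end Q
end R761.BipLat
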