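import Mathlib
import Pool.Agent.R761.BipLat.LemA

/-! Lemma L2 and the conclusion for configurations (proof terms produced by a propositional
    refutation of the rules). -/

namespace R761.BipLat
namespace Q

variable {X : Type*}

theorem xL2 (q : Q X) (x0 x1 : X) : q.s x0 x1 → ¬ (q.be x0 x1) → ¬ (q.p x0 x1) → False := by
  intro h0 h1 h2
  obtain ⟨x2, x3, k0_1, k0_2, k0_3, k0_4, k0_5, k0_6, k0_7⟩ := q.jcutpi x0 x1 (fun z => q.p x0 z
      ∨ q.C x0 z)
  have c46 : q.p x0 x3 → ¬ ((q.p x0 x3 ∨ q.C x0 x3)) → False := fun h1 h2 => h2 (Or.inl h1)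
  have c63 : (q.p x0 x1 ∨ q.C x0 x1) → ¬ (q.p x0 x1) → ¬ (q.C x0 x1) → False := fun h a0 a1 =>
      h.elim (fun g => a0 g) (fun g => a1 g)
  have c12 : q.C x0 x3 → ¬ ((q.p x0 x3 ∨ q.C x0 x3)) → False := fun h1 h2 => h2 (Or.inr h1)
  have c85 : (q.p x0 x2 ∨ q.C x0 x2) → ¬ (q.p x0 x2) → ¬ (q.C x0 x2) → False := fun h a0 a1 =>
      h.elim (fun g => a0 g) (fun g => a1 g)
  have c72 : ¬ (q.s x0 x1) → False := fun h => h h0
  have c21 : q.p x0 x1 → False := fun h => h2 h
  have c100094 : q.C x0 x1 → False := by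
    intro a0
    have u0 : ¬ (q.p x0 x1) := fun h => c21 h
    have u1 : q.s x0 x1 := Classical.byContradiction fun h => c72 h
    exact q.xL1a x0 x1 u1 a0 u0
  have c100095 : (q.p x0 x1 ∨ q.C x0 x1) → False := by
    intro a0
    have u0 : ¬ (q.C x0 x1) := fun h => c100094 h
    have u1 : ¬ (q.p x0 x1) := fun h => c21 h
    exact c63 a0 u1 u0
  have c100096 : q.B x0 x1 → False := by
    intro a0
    have u0 : ¬ (q.p x0 x1) := fun h => c21 h
    exact q.xiBp x0 x1 a0 u0
  have c100097 : q.be x0 x1 → False := by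
    intro a0
    have u0 : ¬ (q.B x0 x1) := fun h => c100096 h
    have u1 : q.s x0 x1 := Classical.byContradiction fun h => c72 h
    have u2 : ¬ (q.C x0 x1) := fun h => c100094 h
    exact q.xL1b x0 x1 u1 a0 u0 u2
  have c100098 : ¬ (q.s x1 x0) → q.m x1 x0 → q.pi x1 x0 → False := by
    intro a0 a1 a2
    have u0 : q.s x0 x1 := Classical.byContradiction fun h => c72 h
    exact q.xnfs x1 x0 a0 a1 a2 u0
  have c100099 : ¬ (q.pi x0 x1) → False := by
    intro a0
    have u0 : q.s x0 x1 := Classical.byContradiction fun h => c72 h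
    exact q.xispi x0 x1 u0 a0
  have c100100 : (q.p x0 x3 ∨ q.C x0 x3) → False := by
    intro a0
    have u0 : q.pi x0 x1 := Classical.byContradiction fun h => c100099 h
    have u1 : ¬ ((q.p x0 x1 ∨ q.C x0 x1)) := fun h => c100095 h
    exact k0_2 u0 u1 a0
  have c100101 : q.p x0 x3 → False := by
    intro a0
    have u0 : ¬ ((q.p x0 x3 ∨ q.C x0 x3)) := fun h => c100100 h
    exact c46 a0 u0
  have c100102 : q.C x0 x3 → False := by
    intro a0
    have u0 : ¬ ((q.p x0 x3 ∨ q.C x0 x3)) := fun h => c100100 h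
    exact c12 a0 u0
  have c100103 : q.B x0 x3 → False := by
    intro a0
    have u0 : ¬ (q.p x0 x3) := fun h => c100101 h
    exact q.xiBp x0 x3 a0 u0
  have c100104 : ¬ (q.m x0 x1) → False := by
    intro a0
    have u0 : q.s x0 x1 := Classical.byContradiction fun h => c72 h
    exact q.xism x0 x1 u0 a0
  have c100105 : ¬ (q.p x2 x3) → ¬ (q.C x2 x3) → False := by
    intro a0 a1
    have u0 : q.pi x0 x1 := Classical.byContradiction fun h => c100099 h
    have u1 : ¬ ((q.p x0 x1 ∨ q.C x0 x1)) := fun h => c100095 h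
    exact k0_3 u0 u1 a0 a1
  have c100107 : ¬ (q.be x2 x1) → ¬ (q.s x1 x3) → q.be x2 x3 → False := by
    intro a0 a1 a2
    have u0 : ¬ (q.C x0 x3) := fun h => c100102 h
    have u1 : q.pi x0 x1 := Classical.byContradiction fun h => c100099 h
    have u2 : ¬ (q.C x0 x1) := fun h => c100094 h
    have u3 : q.m x0 x1 := Classical.byContradiction fun h => c100104 h
    have u4 : ¬ (q.B x0 x1) := fun h => c100096 h
    have u5 : q.s x0 x1 := Classical.byContradiction fun h => c72 h
    have u6 : ¬ (q.p x1 x3) := fun h => q.xips x1 x3 h a1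
    have u7 : ¬ (q.B x1 x3) := fun h => q.xiBp x1 x3 h u6
    have u8 : ¬ (q.be x3 x1) := fun h => q.xtbe x2 x3 x1 a2 h a0
    have u9 : q.be x1 x3 := Classical.byContradiction fun h => q.xobe x2 x1 x3 a0 h a2
    have u10 : ¬ (q.C x3 x1) := fun h => q.xiCbe x3 x1 h u8
    have u11 : ¬ (q.B x3 x1) := fun h => q.xiBbe x3 x1 h u8
    have u12 : q.C x1 x3 := Classical.byContradiction fun h => q.xnjbe x1 x3 u9 u7 h u8
    have u13 : q.pi x1 x3 := Classical.byContradiction fun h => q.xibepi x1 x3 u9 h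
    have u14 : q.C x1 x0 := Classical.byContradiction fun h => q.xoC x1 x0 x3 h u0 u12
    have u15 : q.pi x1 x0 := Classical.byContradiction fun h => q.xiCpi x1 x0 u14 h
    have u16 : ¬ (q.al x0 x1) := fun h => q.xnfC x0 x1 u2 h u1 u14
    have u17 : ¬ (q.A x0 x1) := fun h => q.xiAal x0 x1 h u16
    have u18 : q.m x1 x0 := Classical.byContradiction fun h => q.xnjm x0 x1 u3 u17 u4 h
    have u19 : q.s x1 x0 := Classical.byContradiction fun h => c100098 h u18 u15
    have u20 : q.s x1 x1 := Classical.byContradiction fun h => q.xts x1 x0 x1 u19 u5 h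
    have u21 : q.s x3 x1 := Classical.byContradiction fun h => q.xos x1 x3 x1 a1 h u20
    have u22 : q.pi x3 x1 := Classical.byContradiction fun h => q.xispi x3 x1 u21 h
    have u23 : q.m x3 x1 := Classical.byContradiction fun h => q.xism x3 x1 u21 h
    have u24 : ¬ (q.m x1 x3) := fun h => q.xnfs x1 x3 a1 h u13 u21
    have u25 : ¬ (q.al x3 x1) := fun h => q.xnfC x3 x1 u10 h u22 u12
    have u26 : q.A x3 x1 := Classical.byContradiction fun h => q.xnjm x3 x1 u23 h u11 u24
    exact q.xiAal x3 x1 u26 u25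
  have c100109 : q.be x2 x1 → x2 = x0 → False := by
    intro a0 a1
    have u0 : ¬ (q.be x0 x1) := fun h => c100097 h
    have u1 : ¬ (q.B x0 x1) := fun h => c100096 h
    have u2 : q.s x0 x1 := Classical.byContradiction fun h => c72 h
    have u3 : ¬ (q.B x2 x1) := fun h => eqL q.B (i := x2) (j := x0) x1 a1 h u1
    have u4 : ¬ (q.be x0 x2) := fun h => q.xtbe x0 x2 x1 h a0 u0
    have u5 : q.be x2 x0 := Classical.byContradiction fun h => q.xobe x2 x0 x1 h u0 a0
    have u6 : ¬ (q.C x0 x2) := fun h => q.xiCbe x0 x2 h u4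
    have u7 : q.pi x2 x0 := Classical.byContradiction fun h => q.xibepi x2 x0 u5 h
    have u8 : ¬ (q.C x2 x2) := fun h => eqL q.C (i := x2) (j := x0) x2 a1 h u6
    have u9 : ¬ (q.C x2 x0) := fun h => eqR' q.C (i := x2) (j := x0) x2 a1 u8 h
    have u10 : q.B x2 x0 := Classical.byContradiction fun h => q.xnjbe x2 x0 u5 h u9 u4
    have u11 : q.B x0 x0 := Classical.byContradiction fun h => eqL q.B (i := x2) (j := x0) x0 a1
        u10 h
    have u12 : q.m x2 x0 := Classical.byContradiction fun h => q.xiBm x2 x0 u10 h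
    have u13 : q.B x1 x0 := Classical.byContradiction fun h => q.xoB x0 x1 x0 u1 h u11
    have u14 : q.B x1 x2 := Classical.byContradiction fun h => eqR' q.B (i := x2) (j := x0) x1 a1
        h u13
    have u15 : q.p x1 x2 := Classical.byContradiction fun h => q.xiBp x1 x2 u14 h
    have u16 : ¬ (q.m x2 x1) := fun h => q.xnfB x2 x1 u3 h a0 u14
    have u17 : q.s x1 x2 := Classical.byContradiction fun h => q.xips x1 x2 u15 h
    have u18 : ¬ (q.s x2 x1) := fun h => q.xism x2 x1 h u16
    have u19 : q.s x0 x2 := Classical.byContradiction fun h => q.xts x0 x1 x2 u2 u17 h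
    have u20 : ¬ (q.s x2 x0) := fun h => q.xts x2 x0 x1 h u2 u18
    exact q.xnfs x2 x0 u20 u12 u7 u19
  have c100110 : x2 = x0 → False := by
    intro a0
    have u0 : ¬ (q.p x0 x3) := fun h => c100101 h
    have u1 : ¬ (q.C x0 x3) := fun h => c100102 h
    have u2 : ¬ (q.B x0 x3) := fun h => c100103 h
    have u3 : ¬ (q.B x0 x1) := fun h => c100096 h
    have u4 : q.s x0 x1 := Classical.byContradiction fun h => c72 h
    have u5 : ¬ (q.p x2 x3) := fun h => eqL q.p (i := x2) (j := x0) x3 a0 h u0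
    have u6 : q.C x2 x3 := Classical.byContradiction fun h => c100105 u5 h
    have u7 : ¬ (q.s x2 x3) := fun h => q.xL1a x2 x3 h u6 u5
    have u8 : q.be x2 x3 := Classical.byContradiction fun h => q.xiCbe x2 x3 u6 h
    have u9 : ¬ (q.be x2 x1) := fun h => c100109 h a0
    have u10 : q.s x1 x3 := Classical.byContradiction fun h => c100107 u9 h u8
    have u11 : q.s x0 x3 := Classical.byContradiction fun h => q.xts x0 x1 x3 u4 u10 h
    have u12 : ¬ (q.be x0 x3) := fun h => q.xL1b x0 x3 u11 h u2 u1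
    have u13 : ¬ (q.s x2 x0) := fun h => q.xts x2 x0 x3 h u11 u7
    have u14 : q.be x2 x0 := Classical.byContradiction fun h => q.xobe x2 x0 x3 h u12 u8
    have u15 : ¬ (q.be x0 x2) := fun h => q.xtbe x0 x2 x3 h u8 u12
    have u16 : q.pi x2 x0 := Classical.byContradiction fun h => q.xibepi x2 x0 u14 h
    have u17 : ¬ (q.C x0 x2) := fun h => q.xiCbe x0 x2 h u15
    have u18 : ¬ (q.C x2 x2) := fun h => eqL q.C (i := x2) (j := x0) x2 a0 h u17
    have u19 : ¬ (q.C x2 x0) := fun h => eqR' q.C (i := x2) (j := x0) x2 a0 u18 h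
    have u20 : q.B x2 x0 := Classical.byContradiction fun h => q.xnjbe x2 x0 u14 h u19 u15
    have u21 : q.B x0 x0 := Classical.byContradiction fun h => eqL q.B (i := x2) (j := x0) x0 a0
        u20 h
    have u22 : q.m x2 x0 := Classical.byContradiction fun h => q.xiBm x2 x0 u20 h
    have u23 : q.B x1 x0 := Classical.byContradiction fun h => q.xoB x0 x1 x0 u3 h u21
    have u24 : ¬ (q.s x0 x2) := fun h => q.xnfs x2 x0 u13 u22 u16 h
    have u25 : q.B x1 x2 := Classical.byContradiction fun h => eqR' q.B (i := x2) (j := x0) x1 a0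
        h u23
    have u26 : ¬ (q.s x1 x2) := fun h => q.xts x0 x1 x2 u4 h u24
    have u27 : q.p x1 x2 := Classical.byContradiction fun h => q.xiBp x1 x2 u25 h
    exact q.xips x1 x2 u27 u26
  have c100111 : ¬ (q.pi x0 x2) → False := by
    intro a0
    have u0 : ¬ (x2 = x0) := fun h => c100110 h
    have u1 : ¬ ((q.p x0 x1 ∨ q.C x0 x1)) := fun h => c100095 h
    have u2 : q.pi x0 x1 := Classical.byContradiction fun h => c100099 h
    exact k0_4 u2 u1 u0 a0
  have c100112 : ¬ ((q.p x0 x2 ∨ q.C x0 x2)) → False := by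
    intro a0
    have u0 : ¬ (x2 = x0) := fun h => c100110 h
    have u1 : ¬ ((q.p x0 x1 ∨ q.C x0 x1)) := fun h => c100095 h
    have u2 : q.pi x0 x1 := Classical.byContradiction fun h => c100099 h
    exact k0_1 u2 u1 u0 a0
  have c100113 : q.be x2 x3 → q.s x0 x3 → False := by
    intro a0 a1
    have u0 : ¬ (q.B x0 x3) := fun h => c100103 h
    have u1 : ¬ (q.C x0 x3) := fun h => c100102 h
    have u2 : (q.p x0 x2 ∨ q.C x0 x2) := Classical.byContradiction fun h => c100112 h
    have u3 : ¬ (q.p x0 x3) := fun h => c100101 h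
    have u4 : q.pi x0 x2 := Classical.byContradiction fun h => c100111 h
    have u5 : ¬ (q.be x0 x3) := fun h => q.xL1b x0 x3 a1 h u0 u1
    have u6 : q.be x2 x0 := Classical.byContradiction fun h => q.xobe x2 x0 x3 h u5 a0
    have u7 : ¬ (q.be x0 x2) := fun h => q.xtbe x0 x2 x3 h a0 u5
    have u8 : q.pi x2 x0 := Classical.byContradiction fun h => q.xibepi x2 x0 u6 h
    have u9 : ¬ (q.C x0 x2) := fun h => q.xiCbe x0 x2 h u7
    have u10 : ¬ (q.B x0 x2) := fun h => q.xiBbe x0 x2 h u7
    have u11 : q.p x0 x2 := Classical.byContradiction fun h => c85 u2 h u9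
    have u12 : ¬ (q.p x2 x3) := fun h => q.xtp x0 x2 x3 u11 h u3
    have u13 : q.s x0 x2 := Classical.byContradiction fun h => q.xips x0 x2 u11 h
    have u14 : q.m x0 x2 := Classical.byContradiction fun h => q.xipm x0 x2 u11 h
    have u15 : q.C x2 x3 := Classical.byContradiction fun h => c100105 u12 h
    have u16 : ¬ (q.s x2 x3) := fun h => q.xL1a x2 x3 h u15 u12
    have u17 : ¬ (q.s x2 x0) := fun h => q.xts x2 x0 x3 h a1 u16
    have u18 : ¬ (q.m x2 x0) := fun h => q.xnfs x2 x0 u17 h u8 u13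
    have u19 : ¬ (q.B x2 x0) := fun h => q.xiBm x2 x0 h u18
    have u20 : q.A x0 x2 := Classical.byContradiction fun h => q.xnjm x0 x2 u14 h u10 u18
    have u21 : q.C x2 x0 := Classical.byContradiction fun h => q.xnjbe x2 x0 u6 u19 h u7
    have u22 : q.al x0 x2 := Classical.byContradiction fun h => q.xiAal x0 x2 u20 h
    exact q.xnfC x0 x2 u9 u22 u4 u21
  have c100114 : ¬ (q.s x2 x1) → q.p x2 x3 → False := by
    intro a0 a1
    have u0 : (q.p x0 x2 ∨ q.C x0 x2) := Classical.byContradiction fun h => c100112 h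
    have u1 : ¬ (q.p x0 x3) := fun h => c100101 h
    have u2 : q.s x0 x1 := Classical.byContradiction fun h => c72 h
    have u3 : ¬ (q.p x0 x2) := fun h => q.xtp x0 x2 x3 h a1 u1
    have u4 : q.C x0 x2 := Classical.byContradiction fun h => c85 u0 u3 h
    have u5 : ¬ (q.s x0 x2) := fun h => q.xL1a x0 x2 h u4 u3
    have u6 : ¬ (q.s x1 x2) := fun h => q.xts x0 x1 x2 u2 h u5
    have u7 : q.p x2 x0 := Classical.byContradiction fun h => q.xop x2 x0 x3 h u1 a1
    have u8 : ¬ (q.p x2 x1) := fun h => q.xips x2 x1 h a0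
    have u9 : ¬ (q.s x1 x1) := fun h => q.xos x1 x2 x1 u6 a0 h
    have u10 : q.p x1 x0 := Classical.byContradiction fun h => q.xop x2 x1 x0 u8 h u7
    have u11 : ¬ (q.s x1 x0) := fun h => q.xts x1 x0 x1 h u2 u9
    exact q.xips x1 x0 u10 u11
  have c100115 : q.p x2 x3 → False := by
    intro a0
    have u0 : ¬ (q.p x0 x3) := fun h => c100101 h
    have u1 : (q.p x0 x2 ∨ q.C x0 x2) := Classical.byContradiction fun h => c100112 h
    have u2 : ¬ (q.C x0 x1) := fun h => c100094 h
    have u3 : q.pi x0 x1 := Classical.byContradiction fun h => c100099 h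
    have u4 : q.s x0 x1 := Classical.byContradiction fun h => c72 h
    have u5 : ¬ (q.be x0 x1) := fun h => c100097 h
    have u6 : ¬ (q.p x0 x2) := fun h => q.xtp x0 x2 x3 h a0 u0
    have u7 : q.p x2 x0 := Classical.byContradiction fun h => q.xop x2 x0 x3 h u0 a0
    have u8 : q.C x0 x2 := Classical.byContradiction fun h => c85 u1 u6 h
    have u9 : q.pi x2 x0 := Classical.byContradiction fun h => q.xippi x2 x0 u7 h
    have u10 : ¬ (q.s x0 x2) := fun h => q.xL1a x0 x2 h u8 u6
    have u11 : q.be x0 x2 := Classical.byContradiction fun h => q.xiCbe x0 x2 u8 h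
    have u12 : ¬ (q.C x2 x1) := fun h => q.xtC x0 x2 x1 u8 h u2
    have u13 : q.pi x2 x1 := Classical.byContradiction fun h => q.xtpi x2 x0 x1 u9 u3 h
    have u14 : ¬ (q.s x1 x2) := fun h => q.xts x0 x1 x2 u4 h u10
    have u15 : ¬ (q.be x2 x1) := fun h => q.xtbe x0 x2 x1 u11 h u5
    have u16 : q.be x1 x2 := Classical.byContradiction fun h => q.xobe x0 x1 x2 u5 h u11
    have u17 : ¬ (q.p x1 x2) := fun h => q.xips x1 x2 h u14
    have u18 : ¬ (q.B x2 x1) := fun h => q.xiBbe x2 x1 h u15
    have u19 : ¬ (q.B x1 x2) := fun h => q.xiBp x1 x2 h u17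
    have u20 : q.C x1 x2 := Classical.byContradiction fun h => q.xnjbe x1 x2 u16 u19 h u15
    have u21 : q.pi x1 x2 := Classical.byContradiction fun h => q.xiCpi x1 x2 u20 h
    have u22 : ¬ (q.al x2 x1) := fun h => q.xnfC x2 x1 u12 h u13 u20
    have u23 : ¬ (q.A x2 x1) := fun h => q.xiAal x2 x1 h u22
    have u24 : q.s x2 x1 := Classical.byContradiction fun h => c100114 h a0
    have u25 : q.m x2 x1 := Classical.byContradiction fun h => q.xism x2 x1 u24 h
    have u26 : ¬ (q.m x1 x2) := fun h => q.xnfs x1 x2 u14 h u21 u24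
    exact q.xnjm x2 x1 u25 u23 u18 u26
  have c100116 : ¬ (q.C x2 x3) → False := by
    intro a0
    have u0 : ¬ (q.p x2 x3) := fun h => c100115 h
    exact c100105 u0 a0
  have c100118 : ¬ (q.be x2 x3) → False := by
    intro a0
    have u0 : q.C x2 x3 := Classical.byContradiction fun h => c100116 h
    exact q.xiCbe x2 x3 u0 a0
  have c100119 : q.s x0 x3 → False := by
    intro a0
    have u0 : q.be x2 x3 := Classical.byContradiction fun h => c100118 h
    exact c100113 u0 a0
  have c100120 : q.s x1 x3 → False := by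
    intro a0
    have u0 : ¬ (q.s x0 x3) := fun h => c100119 h
    have u1 : q.s x0 x1 := Classical.byContradiction fun h => c72 h
    exact q.xts x0 x1 x3 u1 a0 u0
  have c100122 : ¬ (q.be x2 x1) → False := by
    intro a0
    have u0 : ¬ (q.s x1 x3) := fun h => c100120 h
    have u1 : q.be x2 x3 := Classical.byContradiction fun h => c100118 h
    exact c100107 a0 u0 u1
  have c100124 : q.be x0 x2 → False := by
    intro a0
    have u0 : q.be x2 x1 := Classical.byContradiction fun h => c100122 h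
    have u1 : ¬ (q.be x0 x1) := fun h => c100097 h
    exact q.xtbe x0 x2 x1 a0 u0 u1
  have c100125 : ¬ (q.be x2 x0) → False := by
    intro a0
    have u0 : q.be x2 x1 := Classical.byContradiction fun h => c100122 h
    have u1 : ¬ (q.be x0 x1) := fun h => c100097 h
    exact q.xobe x2 x0 x1 a0 u1 u0
  have c100126 : q.C x0 x2 → False := by
    intro a0
    have u0 : ¬ (q.be x0 x2) := fun h => c100124 h
    exact q.xiCbe x0 x2 a0 u0
  have c100127 : q.B x0 x2 → False := by
    intro a0
    have u0 : ¬ (q.be x0 x2) := fun h => c100124 h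
    exact q.xiBbe x0 x2 a0 u0
  have c100128 : ¬ (q.pi x2 x0) → False := by
    intro a0
    have u0 : q.be x2 x0 := Classical.byContradiction fun h => c100125 h
    exact q.xibepi x2 x0 u0 a0
  have c100129 : ¬ (q.p x0 x2) → False := by
    intro a0
    have u0 : ¬ (q.C x0 x2) := fun h => c100126 h
    have u1 : (q.p x0 x2 ∨ q.C x0 x2) := Classical.byContradiction fun h => c100112 h
    exact c85 u1 a0 u0
  have c100131 : q.p x2 x1 → False := by
    intro a0
    have u0 : q.p x0 x2 := Classical.byContradiction fun h => c100129 h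
    have u1 : ¬ (q.p x0 x1) := fun h => c21 h
    exact q.xtp x0 x2 x1 u0 a0 u1
  have c100132 : ¬ (q.s x0 x2) → False := by
    intro a0
    have u0 : q.p x0 x2 := Classical.byContradiction fun h => c100129 h
    exact q.xips x0 x2 u0 a0
  have c100133 : ¬ (q.m x0 x2) → False := by
    intro a0
    have u0 : q.p x0 x2 := Classical.byContradiction fun h => c100129 h
    exact q.xipm x0 x2 u0 a0
  have c100134 : q.B x2 x1 → False := by
    intro a0
    have u0 : ¬ (q.p x2 x1) := fun h => c100131 h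
    exact q.xiBp x2 x1 a0 u0
  have c100135 : q.s x2 x1 → False := by
    intro a0
    have u0 : ¬ (q.p x2 x1) := fun h => c100131 h
    have u1 : q.be x2 x1 := Classical.byContradiction fun h => c100122 h
    have u2 : ¬ (q.B x2 x1) := fun h => c100134 h
    have u3 : ¬ (q.C x2 x1) := fun h => q.xL1a x2 x1 a0 h u0
    exact q.xL1b x2 x1 a0 u1 u2 u3
  have c100136 : q.s x2 x0 → False := by
    intro a0
    have u0 : ¬ (q.s x2 x1) := fun h => c100135 h
    have u1 : q.s x0 x1 := Classical.byContradiction fun h => c72 h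
    exact q.xts x2 x0 x1 a0 u1 u0
  have c100137 : q.m x2 x0 → False := by
    intro a0
    have u0 : ¬ (q.s x2 x0) := fun h => c100136 h
    have u1 : q.s x0 x2 := Classical.byContradiction fun h => c100132 h
    have u2 : q.pi x2 x0 := Classical.byContradiction fun h => c100128 h
    exact q.xnfs x2 x0 u0 a0 u2 u1
  have c100138 : q.B x2 x0 → False := by
    intro a0
    have u0 : ¬ (q.m x2 x0) := fun h => c100137 h
    exact q.xiBm x2 x0 a0 u0
  have c100139 : ¬ (q.A x0 x2) → False := by
    intro a0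
    have u0 : ¬ (q.m x2 x0) := fun h => c100137 h
    have u1 : q.m x0 x2 := Classical.byContradiction fun h => c100133 h
    have u2 : ¬ (q.B x0 x2) := fun h => c100127 h
    exact q.xnjm x0 x2 u1 a0 u2 u0
  have c100140 : ¬ (q.C x2 x0) → False := by
    intro a0
    have u0 : ¬ (q.B x2 x0) := fun h => c100138 h
    have u1 : ¬ (q.be x0 x2) := fun h => c100124 h
    have u2 : q.be x2 x0 := Classical.byContradiction fun h => c100125 h
    exact q.xnjbe x2 x0 u2 u0 a0 u1
  have c100141 : ¬ (q.al x0 x2) → False := by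
    intro a0
    have u0 : q.A x0 x2 := Classical.byContradiction fun h => c100139 h
    exact q.xiAal x0 x2 u0 a0
  have u0 : q.al x0 x2 := Classical.byContradiction fun h => c100141 h
  have u1 : q.C x2 x0 := Classical.byContradiction fun h => c100140 h
  have u2 : q.pi x0 x2 := Classical.byContradiction fun h => c100111 h
  have u3 : ¬ (q.C x0 x2) := fun h => c100126 h
  exact q.xnfC x0 x2 u3 u0 u2 u1

theorem quasi (q : Q X) (x y : X) (h : q.s x y) : q.p x y := by
  by_contra hp
  by_cases hb : q.be x y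
  · by_cases hB : q.B x y
    · exact hp (q.iBp _ _ hB)
    · by_cases hC : q.C x y
      · exact xL1a q x y h hC hp
      · exact xL1b q x y h hb hB hC
  · exact xL2 q x y h hb hp

end Q
end R761.BipLat
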