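import Mathlib
import Pool.Agent.R761.BipLat.Defs

/-! Subtask BIP-NT1: an explicit 11-element lattice in which lhs and rhs differ.
The lattice is the family of subsets of {1,2,3,4,6}: {}, {1}, {2}, {6}, {2,3}, {1,6}, {2,6},
{2,3,4}, {1,2,3,4}, {2,3,4,6}, {1,2,3,4,6}, ordered by inclusion (elements numbered in this
order); meet and join are given by tables. -/

namespace R761.BipLat.NT1

/-- table of meets, entry (a,b) at position 11a+b -/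
def infT : List ℕ := [0, 0, 0, 0, 0, 0, 0, 0, 0, 0, 0, 0, 1, 0, 0, 0, 1, 0, 0, 1, 0, 1, 0, 0, 2,
  0, 2, 0, 2, 2, 2, 2, 2, 0, 0, 0, 3, 0, 3, 3, 0, 0, 3, 3, 0, 0, 2, 0, 4, 0, 2, 4, 4, 4, 4, 0, 1,
  0, 3, 0, 5, 3, 0, 1, 3, 5, 0, 0, 2, 3, 2, 3, 6, 2, 2, 6, 6, 0, 0, 2, 0, 4, 0, 2, 7, 7, 7, 7, 0,
  1, 2, 0, 4, 1, 2, 7, 8, 7, 8, 0, 0, 2, 3, 4, 3, 6, 7, 7, 9, 9, 0, 1, 2, 3, 4, 5, 6, 7, 8, 9, 10]

/-- table of joins, entry (a,b) at position 11a+b -/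
def supT : List ℕ := [0, 1, 2, 3, 4, 5, 6, 7, 8, 9, 10, 1, 1, 8, 5, 8, 5, 10, 8, 8, 10, 10, 2, 8,
  2, 6, 4, 10, 6, 7, 8, 9, 10, 3, 5, 6, 3, 9, 5, 6, 9, 10, 9, 10, 4, 8, 4, 9, 4, 10, 9, 7, 8, 9,
  10, 5, 5, 10, 5, 10, 5, 10, 10, 10, 10, 10, 6, 10, 6, 6, 9, 10, 6, 9, 10, 9, 10, 7, 8, 7, 9, 7,
  10, 9, 7, 8, 9, 10, 8, 8, 8, 10, 8, 10, 10, 8, 8, 10, 10, 9, 10, 9, 9, 9, 10, 9, 9, 10, 9, 10,
  10, 10, 10, 10, 10, 10, 10, 10, 10, 10, 10]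

/-- the carrier -/
def Q : Type := Fin 11

instance : DecidableEq Q := inferInstanceAs (DecidableEq (Fin 11))
instance : Fintype Q := inferInstanceAs (Fintype (Fin 11))

/-- reading a table -/
def rd (T : List ℕ) (a b : Q) : Q := Fin.ofNat 11 (T.getD (11 * (a : Fin 11).val + (b : Fin 11).val) 0)

instance : Max Q := ⟨rd supT⟩
instance : Min Q := ⟨rd infT⟩

theorem h1 : ∀ a b : Q, a ⊔ b = b ⊔ a := by decide +kernel
theorem h2 : ∀ a b c : Q, a ⊔ b ⊔ c = a ⊔ (b ⊔ c) := by decide +kernel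
theorem h3 : ∀ a b : Q, a ⊓ b = b ⊓ a := by decide +kernel
theorem h4 : ∀ a b c : Q, a ⊓ b ⊓ c = a ⊓ (b ⊓ c) := by decide +kernel
theorem h5 : ∀ a b : Q, a ⊔ a ⊓ b = a := by decide +kernel
theorem h6 : ∀ a b : Q, a ⊓ (a ⊔ b) = a := by decide +kernel

/-- the lattice structure -/
@[reducible] def latQ : Lattice Q := Lattice.mk' h1 h2 h3 h4 h5 h6

/-- the valuation -/
def v : ℕ → Q
  | 0 => (1 : Fin 11)
  | 1 => (2 : Fin 11)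
  | 2 => (3 : Fin 11)
  | _ => (4 : Fin 11)

end R761.BipLat.NT1

namespace R761.BipLat

theorem nt1 : StmtNT1 := by
  refine ⟨NT1.Q, NT1.latQ, inferInstance, NT1.v, ?_⟩
  show ¬ (_ = _)
  intro h
  have h2 : NT1.rd NT1.infT (NT1.rd NT1.supT (1 : Fin 11) (NT1.rd NT1.infT (2 : Fin 11) (4 : Fin 11)))
      (NT1.rd NT1.supT (NT1.rd NT1.infT (4 : Fin 11) (NT1.rd NT1.supT (1 : Fin 11) (NT1.rd NT1.infT (2 : Fin 11) (4 : Fin 11)))) (3 : Fin 11))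
      = NT1.rd NT1.supT (NT1.rd NT1.infT (4 : Fin 11) (NT1.rd NT1.supT (1 : Fin 11) (NT1.rd NT1.infT (2 : Fin 11) (4 : Fin 11))))
        (NT1.rd NT1.infT (NT1.rd NT1.supT (1 : Fin 11) (NT1.rd NT1.infT (2 : Fin 11) (4 : Fin 11)))
          (NT1.rd NT1.supT (NT1.rd NT1.infT (2 : Fin 11) (4 : Fin 11))
            (NT1.rd NT1.infT (NT1.rd NT1.supT (1 : Fin 11) (3 : Fin 11))
              (NT1.rd NT1.supT (NT1.rd NT1.infT (4 : Fin 11) (NT1.rd NT1.supT (1 : Fin 11) (NT1.rd NT1.infT (2 : Fin 11) (4 : Fin 11)))) (3 : Fin 11))))) := h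
  revert h2
  decide +kernel

end R761.BipLat
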