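import Pool.Agent.R761.BipLat.Defs

/-! Every lattice embeds into an ortholattice: glue `L` and its dual between a new bottom and a
new top. -/

namespace R761.BipLat
namespace NT2

/-- the horizontal sum of `L` and its dual, with new bounds -/
inductive Hs (L : Type) where
  | bot : Hs L
  | top : Hs L
  | l (x : L) : Hs L
  | r (x : L) : Hs L

variable {L : Type} [Lattice L]

/-- the order -/
def le : Hs L → Hs L → Prop
  | .bot, _ => True
  | _, .top => True
  | .l x, .l y => x ≤ y
  | .r x, .r y => y ≤ x
  | _, _ => False

/-- the join -/
def sup : Hs L → Hs L → Hs L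
  | .bot, b => b
  | .top, _ => .top
  | .l x, .l y => .l (x ⊔ y)
  | .l x, .bot => .l x
  | .l _, _ => .top
  | .r x, .r y => .r (x ⊓ y)
  | .r x, .bot => .r x
  | .r _, _ => .top

/-- the meet -/
def inf : Hs L → Hs L → Hs L
  | .bot, _ => .bot
  | .top, b => b
  | .l x, .l y => .l (x ⊓ y)
  | .l x, .top => .l x
  | .l _, _ => .bot
  | .r x, .r y => .r (x ⊔ y)
  | .r x, .top => .r x
  | .r _, _ => .bot

/-- the orthocomplement -/
def perp : Hs L → Hs L
  | .bot => .top
  | .top => .bot
  | .l x => .r x
  | .r x => .l x

instance : Lattice (Hs L) where
  le := le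
  le_refl a := by cases a <;> simp [le]
  le_trans a b c := by
    cases a <;> cases b <;> cases c <;> simp [le] <;> intro h1 h2 <;>
      first | exact le_trans h1 h2 | exact le_trans h2 h1
  le_antisymm a b := by
    cases a <;> cases b <;> simp [le] <;> intro h1 h2 <;>
      first | exact le_antisymm h1 h2 | exact le_antisymm h2 h1
  sup := sup
  le_sup_left a b := by cases a <;> cases b <;> simp [le, sup]
  le_sup_right a b := by cases a <;> cases b <;> simp [le, sup]
  sup_le a b c := by
    cases a <;> cases b <;> cases c <;> simp [le, sup] <;> intro h1 h2 <;>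
      exact ⟨h1, h2⟩
  inf := inf
  inf_le_left a b := by cases a <;> cases b <;> simp [le, inf]
  inf_le_right a b := by cases a <;> cases b <;> simp [le, inf]
  le_inf a b c := by
    cases a <;> cases b <;> cases c <;> simp [le, inf] <;> intro h1 h2 <;>
      exact ⟨h1, h2⟩

instance : BoundedOrder (Hs L) where
  top := .top
  le_top a := by change le a .top; cases a <;> simp [le]
  bot := .bot
  bot_le a := by change le .bot a; cases a <;> simp [le]

instance : OrthoLattice (Hs L) where
  perp := perp
  perp_perp a := by cases a <;> rfl
  perp_anti a b := by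
    change le a b → le (perp b) (perp a)
    cases a <;> cases b <;> simp [le, perp]
  inf_perp a := by
    change inf a (perp a) = .bot
    cases a <;> simp [inf, perp]
  sup_perp a := by
    change sup a (perp a) = .top
    cases a <;> simp [sup, perp]

/-- `Hs L` as a sum -/
def code : Hs L → Option (Option (L ⊕ L))
  | .bot => none
  | .top => some none
  | .l x => some (some (.inl x))
  | .r x => some (some (.inr x))

omit [Lattice L] in
theorem code_injective : Function.Injective (code (L := L)) := by
  intro a b h
  cases a <;> cases b <;> simp_all [code]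

end NT2

theorem nt2 : StmtNT2 := by
  intro L iL
  refine ⟨NT2.Hs L, inferInstance, NT2.Hs.l, ?_, fun _ _ => rfl, fun _ _ => rfl, ?_⟩
  · intro x y h
    injection h
  · intro hL
    exact Finite.of_injective NT2.code NT2.code_injective

end R761.BipLat
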