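import Mathlib
import Pool.Agent.R761.BipLat.LemC
import Pool.Agent.R761.BipLat.NT1
import Pool.Agent.R761.BipLat.NT2

/-! The identity holds in every bipartition lattice; bipartitions are the regular closed
subrelations of the full relation. -/

namespace R761.BipLat

variable {X : Type*}

namespace Bip

instance : OrthoLattice (Bip X) :=
  { (inferInstance : Lattice (Bip X)), (inferInstance : BoundedOrder (Bip X)) with
    perp := co
    perp_perp := co_co
    perp_anti := fun _ _ h => co_anti h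
    inf_perp := fun r => le_antisymm
      (fun x y h => (inf_le_right : r ⊓ co r ≤ co r) x y h ((inf_le_left : r ⊓ co r ≤ r) x y h))
      bot_le
    sup_perp := fun r => le_antisymm le_top (fun x y _ => by
      by_cases h : r.rel x y
      · exact (le_sup_left : r ≤ r ⊔ co r) x y h
      · exact (le_sup_right : co r ≤ r ⊔ co r) x y h) }

theorem perp_rel (r : Bip X) (x y : X) : (OrthoLattice.perp r).rel x y ↔ ¬ r.rel x y := Iff.rfl

end Bip

/-- The quasi-identity: under the five hypotheses, `(A ∨ B) ∧ (p ∨ C) ≤ p`. -/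
theorem quasi {A B C p : Bip X} (hA : (A ⊔ C) ⊓ (A ⊔ B) = A) (hB : (A ⊔ B) ⊓ (B ⊔ C) = B)
    (hC : (A ⊔ C) ⊓ (p ⊔ C) = C) (hBp : B ≤ p) (hpm : p ≤ A ⊔ B) : (A ⊔ B) ⊓ (p ⊔ C) ≤ p :=
  fun x y h => Q.quasi (mkQ A B C p hA hB hC hBp hpm) x y h

/-- The identity holds in every bipartition lattice. -/
theorem identity (v : ℕ → Bip X) : lhs.eval v = rhs.eval v := by
  change (v 0 ⊔ v 1 ⊓ v 3) ⊓ (v 3 ⊓ (v 0 ⊔ v 1 ⊓ v 3) ⊔ v 2) =
    v 3 ⊓ (v 0 ⊔ v 1 ⊓ v 3) ⊔ (v 0 ⊔ v 1 ⊓ v 3) ⊓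
      (v 1 ⊓ v 3 ⊔ (v 0 ⊔ v 2) ⊓ (v 3 ⊓ (v 0 ⊔ v 1 ⊓ v 3) ⊔ v 2))
  obtain ⟨A, hA⟩ : ∃ A, A = v 0 := ⟨_, rfl⟩
  obtain ⟨C, hC⟩ : ∃ C, C = v 2 := ⟨_, rfl⟩
  obtain ⟨p0, hp0⟩ : ∃ p0, p0 = v 3 := ⟨_, rfl⟩
  obtain ⟨B, hB⟩ : ∃ B, B = v 1 ⊓ v 3 := ⟨_, rfl⟩
  have hBp0 : B ≤ p0 := by rw [hB, hp0]; exact inf_le_right
  rw [← hB, ← hA, ← hC, ← hp0]
  obtain ⟨m, hm⟩ : ∃ m, m = A ⊔ B := ⟨_, rfl⟩
  obtain ⟨p, hp⟩ : ∃ p, p = p0 ⊓ m := ⟨_, rfl⟩
  obtain ⟨al, hal⟩ : ∃ al, al = A ⊔ C := ⟨_, rfl⟩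
  rw [← hm, ← hp, ← hal]
  obtain ⟨π, hπ⟩ : ∃ π, π = p ⊔ C := ⟨_, rfl⟩
  rw [← hπ]
  obtain ⟨h, hh⟩ : ∃ h, h = al ⊓ π := ⟨_, rfl⟩
  rw [← hh]
  obtain ⟨R, hR⟩ : ∃ R, R = B ⊔ h := ⟨_, rfl⟩
  rw [← hR]
  have Am : A ≤ m := hm ▸ le_sup_left
  have Bm : B ≤ m := hm ▸ le_sup_right
  have Bp : B ≤ p := hp ▸ le_inf hBp0 Bm
  have pm : p ≤ m := hp ▸ inf_le_right
  have pπ : p ≤ π := hπ ▸ le_sup_left
  have Cπ : C ≤ π := hπ ▸ le_sup_right
  have Aal : A ≤ al := hal ▸ le_sup_left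
  have Cal : C ≤ al := hal ▸ le_sup_right
  have hle1 : h ≤ al := hh ▸ inf_le_left
  have hle2 : h ≤ π := hh ▸ inf_le_right
  have Ch : C ≤ h := hh ▸ le_inf Cal Cπ
  have BR : B ≤ R := hR ▸ le_sup_left
  have hRle : h ≤ R := hR ▸ le_sup_right
  have Rπ : R ≤ π := hR ▸ sup_le (Bp.trans pπ) hle2
  apply le_antisymm
  · -- apply the quasi-identity to `al ⊓ m`, `m ⊓ R`, `h`, `p ⊔ (m ⊓ R)`
    have e1 : (al ⊓ m) ⊔ (m ⊓ R) = m :=
      le_antisymm (sup_le inf_le_right inf_le_left)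
        (hm.le.trans (sup_le_sup (le_inf Aal Am) (le_inf Bm BR)))
    have e2 : (al ⊓ m) ⊔ h = al :=
      le_antisymm (sup_le inf_le_left hle1)
        (hal.le.trans (sup_le_sup (le_inf Aal Am) Ch))
    have e3 : (m ⊓ R) ⊔ h = R :=
      le_antisymm (sup_le inf_le_right hRle)
        (hR.le.trans (sup_le_sup (le_inf Bm BR) le_rfl))
    have e4 : (p ⊔ m ⊓ R) ⊔ h = π :=
      le_antisymm (sup_le (sup_le pπ (inf_le_right.trans Rπ)) hle2)
        (hπ.le.trans (sup_le_sup le_sup_left Ch))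
    have key := quasi (A := al ⊓ m) (B := m ⊓ R) (C := h) (p := p ⊔ m ⊓ R)
      (by rw [e2, e1]) (by rw [e1, e3]) (by rw [e2, e4]; exact hh.symm) le_sup_right
      (by rw [e1]; exact sup_le pm inf_le_left)
    rw [e1, e4] at key
    exact key
  · exact sup_le (le_inf pm pπ) (le_inf inf_le_left (inf_le_right.trans Rπ))

/-! ### Regular closed subsets of the full relation -/

/-- transitive closure -/
def cl (a : X → X → Prop) : X → X → Prop := Relation.TransGen a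

/-- the union of all open subsets of `a` (open: the complement is transitive) -/
def int (a : X → X → Prop) : X → X → Prop := fun x y =>
  ∃ b : X → X → Prop, (∀ u w, b u w → a u w) ∧
    (∀ u w z, ¬ b u w → ¬ b w z → ¬ b u z) ∧ b x y

theorem int_le (a : X → X → Prop) : ∀ u w, int a u w → a u w :=
  fun _ _ ⟨_, hb, _, h⟩ => hb _ _ h

theorem int_open (a : X → X → Prop) : ∀ u w z, ¬ int a u w → ¬ int a w z → ¬ int a u z := by
  rintro u w z h1 h2 ⟨b, hb, ho, hbz⟩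
  exact ho u w z (fun h => h1 ⟨b, hb, ho, h⟩) (fun h => h2 ⟨b, hb, ho, h⟩) hbz

theorem cl_open {b : X → X → Prop} (ho : ∀ u w z, ¬ b u w → ¬ b w z → ¬ b u z) :
    ∀ u w z, ¬ cl b u w → ¬ cl b w z → ¬ cl b u z := by
  intro x y z h1 h2 h3
  rcases Relation.TransGen.head'_iff.1 h3 with ⟨w, hw, hwz⟩
  have key : b y w := by
    by_contra hc
    exact ho x y w (fun h => h1 (Relation.TransGen.single h)) hc hw
  exact h2 (Relation.TransGen.head' key hwz)

/-- The regular closed relations are exactly the bipartitions. -/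
theorem regular_iff (a : X → X → Prop) : a = cl (int a) ↔ ∃ x : Bip X, x.rel = a := by
  constructor
  · intro h
    refine ⟨⟨a, ?_, ?_⟩, rfl⟩
    · rw [h]; exact fun _ _ _ h1 h2 => Relation.TransGen.trans h1 h2
    · rw [h]; exact cl_open (int_open a)
  · rintro ⟨x, rfl⟩
    funext u w
    apply propext
    constructor
    · intro h
      exact Relation.TransGen.single ⟨x.rel, fun _ _ h => h, x.op, h⟩
    · intro h
      induction h with
      | single h => exact int_le _ _ _ h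
      | tail _ h ih => exact x.tr _ _ _ ih (int_le _ _ _ h)

theorem sup_rel' (x y : Bip X) : (x ⊔ y).rel = cl (fun u w => x.rel u w ∨ y.rel u w) := rfl

theorem inf_rel' (x y : Bip X) :
    (x ⊓ y).rel = cl (int (fun u w => x.rel u w ∧ y.rel u w)) := by
  funext u w
  apply propext
  constructor
  · intro h
    exact Relation.TransGen.single ⟨(x ⊓ y).rel, fun u w h =>
      ⟨(inf_le_left : x ⊓ y ≤ x) u w h, (inf_le_right : x ⊓ y ≤ y) u w h⟩, (x ⊓ y).op, h⟩
  · intro h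
    let z : Bip X := ⟨cl (int (fun u w => x.rel u w ∧ y.rel u w)),
      fun _ _ _ h1 h2 => Relation.TransGen.trans h1 h2, cl_open (int_open _)⟩
    have hx : z ≤ x := by
      intro u w h
      induction h with
      | single h => exact (int_le _ _ _ h).1
      | tail _ h ih => exact x.tr _ _ _ ih (int_le _ _ _ h).1
    have hy : z ≤ y := by
      intro u w h
      induction h with
      | single h => exact (int_le _ _ _ h).2
      | tail _ h ih => exact y.tr _ _ _ ih (int_le _ _ _ h).2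
    exact (le_inf hx hy : z ≤ x ⊓ y) u w h

theorem perp_rel' (x : Bip X) : (OrthoLattice.perp x).rel = cl (fun u w => ¬ x.rel u w) := by
  funext u w
  apply propext
  constructor
  · intro h; exact Relation.TransGen.single h
  · intro h
    induction h with
    | single h => exact h
    | tail _ h ih => exact x.op _ _ _ ih h

end R761.BipLat
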